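import Pool.Agent.Lib.P1ae5m.Basic

/-!
Test measures give support points.
-/

open Metric MeasureTheory Filter Topology

namespace Pool.Agent.P1ae5m

open Pool.Agent.P1ae5 (Cn ip NA IsSupport IsExtreme IsFunctional exists_lower)
open Pool.Agent.P1ae5.SuppAvgAux (norm_fderiv_le)

variable {n : ℕ}

/-- second order part -/
noncomputable def sec (f : Cn n → Cn n) (z : Cn n) : Cn n := f z - f 0 - fderiv ℂ f 0 z

noncomputable def JJ (ν : Measure (Cn n)) (f : Cn n → Cn n) (r : ℝ) : ℂ :=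
  ∫ ζ, ip (sec f ((r : ℂ) • ζ)) ζ ∂ν

lemma tan_sec {f : Cn n → Cn n} (hf : DifferentiableOn ℂ f (ball 0 1)) {r : ℝ} (h0 : 0 < r)
    (h1 : r < 1) : Tan (fun z => sec f ((r : ℂ) • z)) r⁻¹ := tan_dil hf h0 h1

variable {ν : Measure (Cn n)}

lemma int_sec [IsFiniteMeasure ν] (hS : ν (sphere (0 : Cn n) 1)ᶜ = 0) {v : Cn n → Cn n}
    {R : ℝ} (hv : Tan v R) : Integrable (fun ζ => ip (v ζ) ζ) ν :=
  integrable_sphere hS (continuous_ip (hv.contS.mono sphere_subset_closedBall) continuousOn_id)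

lemma JJ_sub [IsProbabilityMeasure ν] (hS : ν (sphere (0 : Cn n) 1)ᶜ = 0) {ρ C : ℝ}
    (hT : ∀ (v : Cn n → Cn n) (R : ℝ), 1 < R → DifferentiableOn ℂ v (ball 0 R) →
      v 0 = 0 → fderiv ℂ v 0 = 0 → ∀ M : ℝ, (∀ z, ‖z‖ ≤ ρ → ‖v z‖ ≤ M) →
        ‖∫ ζ, ip (v ζ) ζ ∂ν‖ ≤ C * M)
    {f : Cn n → Cn n} (hf : DifferentiableOn ℂ f (ball 0 1)) {r s : ℝ} (h0 : 0 < r)
    (h1 : r < 1) (h2 : 0 < s) (h3 : s < 1) {M : ℝ}
    (hM : ∀ z : Cn n, ‖z‖ ≤ ρ → ‖sec f ((r : ℂ) • z) - sec f ((s : ℂ) • z)‖ ≤ M) :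
    ‖JJ ν f r - JJ ν f s‖ ≤ C * M := by
  have t1 := tan_sec hf h0 h1
  have t2 := tan_sec hf h2 h3
  have t3 := t1.sub t2
  have e : JJ ν f r - JJ ν f s =
      ∫ ζ, ip (sec f ((r : ℂ) • ζ) - sec f ((s : ℂ) • ζ)) ζ ∂ν := by
    unfold JJ
    rw [← integral_sub (int_sec hS t1) (int_sec hS t2)]
    congr 1
    ext ζ
    rw [ip_sub]
  rw [e]
  exact hT _ _ t3.hR t3.diff t3.zero t3.hd.fderiv M hM

lemma JJ_bound [IsProbabilityMeasure ν] {ρ C : ℝ}
    (hT : ∀ (v : Cn n → Cn n) (R : ℝ), 1 < R → DifferentiableOn ℂ v (ball 0 R) →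
      v 0 = 0 → fderiv ℂ v 0 = 0 → ∀ M : ℝ, (∀ z, ‖z‖ ≤ ρ → ‖v z‖ ≤ M) →
        ‖∫ ζ, ip (v ζ) ζ ∂ν‖ ≤ C * M)
    {f : Cn n → Cn n} (hf : DifferentiableOn ℂ f (ball 0 1)) {r : ℝ} (h0 : 0 < r)
    (h1 : r < 1) {M : ℝ} (hM : ∀ z : Cn n, ‖z‖ ≤ ρ → ‖sec f ((r : ℂ) • z)‖ ≤ M) :
    ‖JJ ν f r‖ ≤ C * M := by
  have t1 := tan_sec hf h0 h1
  exact hT _ _ t1.hR t1.diff t1.zero t1.hd.fderiv M hM

lemma continuousOn_sec {f : Cn n → Cn n} (hf : DifferentiableOn ℂ f (ball 0 1)) :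
    ContinuousOn (sec f) (ball 0 1) :=
  (hf.continuousOn.sub continuousOn_const).sub (fderiv ℂ f 0).continuous.continuousOn

lemma exists_lim [IsProbabilityMeasure ν] (hS : ν (sphere (0 : Cn n) 1)ᶜ = 0) {ρ C : ℝ}
    (hρ0 : 0 < ρ) (hρ1 : ρ < 1)
    (hT : ∀ (v : Cn n → Cn n) (R : ℝ), 1 < R → DifferentiableOn ℂ v (ball 0 R) →
      v 0 = 0 → fderiv ℂ v 0 = 0 → ∀ M : ℝ, (∀ z, ‖z‖ ≤ ρ → ‖v z‖ ≤ M) →
        ‖∫ ζ, ip (v ζ) ζ ∂ν‖ ≤ C * M)
    {f : Cn n → Cn n} (hf : DifferentiableOn ℂ f (ball 0 1)) :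
    ∃ L, Tendsto (JJ ν f) (𝓝[<] 1) (𝓝 L) := by
  apply cauchy_map_iff_exists_tendsto.1
  rw [Metric.cauchy_iff]
  refine ⟨inferInstance, fun ε hε => ?_⟩
  have hu : UniformContinuousOn (sec f) (closedBall 0 ρ) :=
    (isCompact_closedBall (0 : Cn n) ρ).uniformContinuousOn_of_continuous
      ((continuousOn_sec hf).mono (closedBall_subset_ball hρ1))
  rw [Metric.uniformContinuousOn_iff] at hu
  obtain ⟨η, hη, hu⟩ := hu (ε / (2 * (|C| + 1))) (by positivity)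
  set a : ℝ := max (1 / 2) (1 - η) with ha
  have ha1 : a < 1 := max_lt (by norm_num) (by linarith)
  refine ⟨JJ ν f '' Set.Ioo a 1, image_mem_map (Ioo_mem_nhdsLT ha1), ?_⟩
  rintro _ ⟨r, ⟨hr1, hr2⟩, rfl⟩ _ ⟨s, ⟨hs1, hs2⟩, rfl⟩
  have hr0 : 0 < r := by
    have := le_max_left (1 / 2 : ℝ) (1 - η); linarith
  have hs0 : 0 < s := by
    have := le_max_left (1 / 2 : ℝ) (1 - η); linarith
  have hr3 : 1 - η < r := lt_of_le_of_lt (le_max_right _ _) hr1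
  have hs3 : 1 - η < s := lt_of_le_of_lt (le_max_right _ _) hs1
  have hkey : ‖JJ ν f r - JJ ν f s‖ ≤ C * (ε / (2 * (|C| + 1))) := by
    refine JJ_sub hS hT hf hr0 hr2 hs0 hs2 fun z hz => ?_
    have hm : ∀ t : ℝ, 0 < t → t < 1 → (t : ℂ) • z ∈ closedBall (0 : Cn n) ρ := by
      intro t ht0 ht1
      rw [mem_closedBall_zero_iff, norm_smul, Complex.norm_real, Real.norm_of_nonneg ht0.le]
      nlinarith [norm_nonneg z]
    have hd : dist ((r : ℂ) • z) ((s : ℂ) • z) < η := by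
      rw [dist_eq_norm, ← sub_smul, norm_smul, ← Complex.ofReal_sub, Complex.norm_real,
        Real.norm_eq_abs]
      have h5 : |r - s| < η := by rw [abs_lt]; constructor <;> linarith
      have h6 : ‖z‖ ≤ 1 := hz.trans hρ1.le
      calc |r - s| * ‖z‖ ≤ |r - s| * 1 := by gcongr
        _ < η := by rw [mul_one]; exact h5
    have := hu _ (hm r hr0 hr2) _ (hm s hs0 hs2) hd
    rw [dist_eq_norm] at this
    exact this.le
  rw [dist_eq_norm]
  refine lt_of_le_of_lt hkey ?_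
  have h7 : C * (ε / (2 * (|C| + 1))) ≤ |C| * (ε / (2 * (|C| + 1))) :=
    mul_le_mul_of_nonneg_right (le_abs_self C) (by positivity)
  refine lt_of_le_of_lt h7 ?_
  rw [← mul_div_assoc, div_lt_iff₀ (by positivity)]
  nlinarith [abs_nonneg C]

/-- the functional of a test measure -/
noncomputable def Lam (ν : Measure (Cn n)) (f : Cn n → Cn n) : ℂ :=
  - limUnder (𝓝[<] (1 : ℝ)) (JJ ν f)

lemma sec_add {f g : Cn n → Cn n} (hf : DifferentiableOn ℂ f (ball 0 1))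
    (hg : DifferentiableOn ℂ g (ball 0 1)) (z : Cn n) : sec (f + g) z = sec f z + sec g z := by
  have h1 := hf.differentiableAt (ball_mem_nhds (0 : Cn n) one_pos)
  have h2 := hg.differentiableAt (ball_mem_nhds (0 : Cn n) one_pos)
  unfold sec
  rw [fderiv_add h1 h2]
  simp only [Pi.add_apply, ContinuousLinearMap.add_apply]
  abel

lemma sec_smul {f : Cn n → Cn n} (hf : DifferentiableOn ℂ f (ball 0 1)) (c : ℂ)
    (z : Cn n) : sec (c • f) z = c • sec f z := by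
  have h1 := hf.differentiableAt (ball_mem_nhds (0 : Cn n) one_pos)
  unfold sec
  rw [fderiv_const_smul h1]
  simp only [Pi.smul_apply, ContinuousLinearMap.smul_apply, smul_sub]

lemma isFunctional_Lam [IsProbabilityMeasure ν] (hS : ν (sphere (0 : Cn n) 1)ᶜ = 0) {ρ C : ℝ}
    (hρ0 : 0 < ρ) (hρ1 : ρ < 1)
    (hT : ∀ (v : Cn n → Cn n) (R : ℝ), 1 < R → DifferentiableOn ℂ v (ball 0 R) →
      v 0 = 0 → fderiv ℂ v 0 = 0 → ∀ M : ℝ, (∀ z, ‖z‖ ≤ ρ → ‖v z‖ ≤ M) →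
        ‖∫ ζ, ip (v ζ) ζ ∂ν‖ ≤ C * M) :
    IsFunctional (Lam ν) := by
  have hlim : ∀ f : Cn n → Cn n, DifferentiableOn ℂ f (ball 0 1) →
      Tendsto (JJ ν f) (𝓝[<] 1) (𝓝 (limUnder (𝓝[<] (1 : ℝ)) (JJ ν f))) := fun f hf =>
    tendsto_nhds_limUnder (exists_lim hS hρ0 hρ1 hT hf)
  have hev : ∀ᶠ r : ℝ in 𝓝[<] 1, 0 < r ∧ r < 1 := by
    filter_upwards [Ioo_mem_nhdsLT (show (0 : ℝ) < 1 by norm_num)] with r hr
    exact ⟨hr.1, hr.2⟩
  refine ⟨fun f g hf hg => ?_, fun c f hf => ?_, closedBall 0 ρ, closedBall_subset_ball hρ1,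
    isCompact_closedBall _ _, 3 * C, fun f hf M hM0 hM => ?_⟩
  · unfold Lam
    have h1 := (hlim f hf).add (hlim g hg)
    have h2 := hlim (f + g) (hf.add hg)
    have h3 : Tendsto (fun r => JJ ν f r + JJ ν g r) (𝓝[<] 1)
        (𝓝 (limUnder (𝓝[<] (1 : ℝ)) (JJ ν (f + g)))) := by
      refine h2.congr' ?_
      filter_upwards [hev] with r hr
      unfold JJ
      rw [← integral_add (int_sec hS (tan_sec hf hr.1 hr.2)) (int_sec hS (tan_sec hg hr.1 hr.2))]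
      congr 1
      ext ζ
      rw [sec_add hf hg, ip_add]
    rw [tendsto_nhds_unique h3 h1]
    ring
  · unfold Lam
    have h1 := (hlim f hf).const_mul c
    have h2 := hlim (c • f) (hf.const_smul c)
    have h3 : Tendsto (fun r => c * JJ ν f r) (𝓝[<] 1)
        (𝓝 (limUnder (𝓝[<] (1 : ℝ)) (JJ ν (c • f)))) := by
      refine h2.congr' ?_
      filter_upwards [hev] with r hr
      unfold JJ
      rw [← integral_const_mul]
      congr 1
      ext ζ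
      rw [sec_smul hf, ip_smul]
    rw [tendsto_nhds_unique h3 h1]
    ring
  · unfold Lam
    rw [norm_neg]
    refine le_of_tendsto ((hlim f hf).norm) ?_
    filter_upwards [hev] with r hr
    have hfd : ‖fderiv ℂ f 0‖ ≤ M / ρ := by
      refine norm_fderiv_le hρ0 hM0 (fun w hw => ?_) hM
      exact hf.differentiableAt (isOpen_ball.mem_nhds (closedBall_subset_ball hρ1 hw))
    have h5 : ‖JJ ν f r‖ ≤ C * (3 * M) := by
      refine JJ_bound hT hf hr.1 hr.2 fun z hz => ?_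
      have hz1 : ‖(r : ℂ) • z‖ ≤ ρ := by
        rw [norm_smul, Complex.norm_real, Real.norm_of_nonneg hr.1.le]
        nlinarith [norm_nonneg z, hr.2, hr.1]
      have a1 : ‖f ((r : ℂ) • z)‖ ≤ M := hM _ (mem_closedBall_zero_iff.2 hz1)
      have a2 : ‖f 0‖ ≤ M := hM _ (mem_closedBall_self hρ0.le)
      have a3 : ‖fderiv ℂ f 0 ((r : ℂ) • z)‖ ≤ M := by
        refine ((fderiv ℂ f 0).le_opNorm _).trans ?_
        calc ‖fderiv ℂ f 0‖ * ‖(r : ℂ) • z‖ ≤ M / ρ * ρ := by gcongr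
          _ = M := by field_simp
      unfold sec
      calc ‖f ((r : ℂ) • z) - f 0 - fderiv ℂ f 0 ((r : ℂ) • z)‖
          ≤ ‖f ((r : ℂ) • z) - f 0‖ + ‖fderiv ℂ f 0 ((r : ℂ) • z)‖ := norm_sub_le _ _
        _ ≤ ‖f ((r : ℂ) • z)‖ + ‖f 0‖ + ‖fderiv ℂ f 0 ((r : ℂ) • z)‖ := by
            gcongr; exact norm_sub_le _ _
        _ ≤ 3 * M := by linarith
    linarith

/-- the integral `∫ Re <Aζ,ζ> dν` -/
noncomputable def aInt (ν : Measure (Cn n)) (A : Cn n →L[ℂ] Cn n) : ℝ := ∫ ζ, (ip (A ζ) ζ).re ∂ν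

lemma re_JJ [IsFiniteMeasure ν] (hS : ν (sphere (0 : Cn n) 1)ᶜ = 0)
    {A : Cn n →L[ℂ] Cn n} {g : Cn n → Cn n} (hg : g ∈ NA A) {r : ℝ} (h0 : 0 < r) (h1 : r < 1) :
    (JJ ν g r).re = (∫ ζ, (ip (g ((r : ℂ) • ζ)) ζ).re ∂ν) - r * aInt ν A := by
  obtain ⟨g1, g2, g3, -⟩ := hg
  have hcont : ContinuousOn (fun ζ : Cn n => g ((r : ℂ) • ζ)) (sphere 0 1) := by
    refine g1.continuousOn.comp (continuous_const_smul _).continuousOn fun z hz => ?_
    rw [mem_sphere_zero_iff_norm] at hz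
    rw [mem_ball_zero_iff, norm_smul, Complex.norm_real, Real.norm_of_nonneg h0.le, hz, mul_one]
    exact h1
  have i1 : Integrable (fun ζ => (ip (g ((r : ℂ) • ζ)) ζ).re) ν :=
    integrable_sphere hS (Complex.continuous_re.comp_continuousOn
      (continuous_ip hcont continuousOn_id))
  have i2 : Integrable (fun ζ => (ip (A ζ) ζ).re) ν :=
    integrable_sphere hS (Complex.continuous_re.comp_continuousOn
      (continuous_ip A.continuous.continuousOn continuousOn_id))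
  unfold JJ aInt
  have e1 := (int_sec hS (tan_sec g1 h0 h1))
  have e2 : (∫ ζ, ip (sec g ((r : ℂ) • ζ)) ζ ∂ν).re =
      ∫ ζ, (ip (sec g ((r : ℂ) • ζ)) ζ).re ∂ν := (integral_re e1).symm
  rw [e2, ← integral_const_mul, ← integral_sub i1 (i2.const_mul r)]
  congr 1
  ext ζ
  unfold sec
  rw [g2, g3, sub_zero, ip_sub, map_smul, ip_smul, Complex.sub_re, Complex.re_ofReal_mul]

lemma ae_nonneg' (hS : ν (sphere (0 : Cn n) 1)ᶜ = 0) {A : Cn n →L[ℂ] Cn n} {g : Cn n → Cn n}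
    (hg : g ∈ NA A) {r : ℝ} (h0 : 0 < r) (h1 : r < 1) :
    ∀ᵐ ζ ∂ν, 0 ≤ (ip (g ((r : ℂ) • ζ)) ζ).re := by
  filter_upwards [ae_sphere hS] with ζ hζ
  have hz : (r : ℂ) • ζ ∈ ball (0 : Cn n) 1 := by
    rw [mem_ball_zero_iff, norm_smul, Complex.norm_real, Real.norm_of_nonneg h0.le, hζ, mul_one]
    exact h1
  have hz0 : (r : ℂ) • ζ ≠ 0 := by
    intro h
    have := congrArg norm h
    rw [norm_smul, Complex.norm_real, Real.norm_of_nonneg h0.le, hζ, mul_one, norm_zero] at this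
    exact h0.ne' this
  have h3 := hg.2.2.2 _ hz hz0
  rw [ip_smul_right, Complex.conj_ofReal, Complex.re_ofReal_mul] at h3
  exact (pos_of_mul_pos_right h3 h0.le).le

lemma aInt_pos [IsProbabilityMeasure ν] (hS : ν (sphere (0 : Cn n) 1)ᶜ = 0)
    {A : Cn n →L[ℂ] Cn n} (hA : ∀ z : Cn n, z ≠ 0 → 0 < (ip (A z) z).re) : 0 < aInt ν A := by
  obtain ⟨m, hm, hmA⟩ := exists_lower hA
  have i2 : Integrable (fun ζ => (ip (A ζ) ζ).re) ν :=
    integrable_sphere hS (Complex.continuous_re.comp_continuousOn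
      (continuous_ip A.continuous.continuousOn continuousOn_id))
  have : m ≤ aInt ν A := by
    unfold aInt
    calc m = ∫ _ζ : Cn n, m ∂ν := by simp
      _ ≤ _ := by
        refine integral_mono_ae (integrable_const m) i2 ?_
        filter_upwards [ae_sphere hS] with ζ hζ
        have := hmA ζ
        rw [hζ] at this
        simpa using this
  linarith

/-- the limits exist -/
theorem limit_exists {A : Cn n →L[ℂ] Cn n} (hν : IsTestB ν) {g : Cn n → Cn n} (hg : g ∈ NA A) :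
    ∃ L : ℝ, Tendsto (fun r : ℝ => ∫ ζ, (ip (g ((r : ℂ) • ζ)) ζ).re ∂ν) (𝓝[<] 1) (𝓝 L) := by
  obtain ⟨hP, hS, ρ, C, hρ0, hρ1, hT⟩ := hν
  obtain ⟨L, hL⟩ := exists_lim hS hρ0 hρ1 hT hg.1
  refine ⟨L.re + aInt ν A, ?_⟩
  have hr1 : Tendsto (fun r : ℝ => r * aInt ν A) (𝓝[<] 1) (𝓝 (aInt ν A)) := by
    have : Tendsto (fun r : ℝ => r * aInt ν A) (𝓝 1) (𝓝 (1 * aInt ν A)) :=
      tendsto_id.mul_const _
    rw [one_mul] at this
    exact this.mono_left nhdsWithin_le_nhds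
  have h1 := ((Complex.continuous_re.tendsto _).comp hL).add hr1
  refine h1.congr' ?_
  filter_upwards [Ioo_mem_nhdsLT (show (0 : ℝ) < 1 by norm_num)] with r hr
  rw [Function.comp_apply, re_JJ hS hg hr.1 hr.2]
  ring

/-- a liminf condition is enough -/
theorem vanishes_of_freq {A : Cn n →L[ℂ] Cn n} (hν : IsTestB ν) {g : Cn n → Cn n} (hg : g ∈ NA A)
    (hf : ∀ ε : ℝ, 0 < ε → ∃ᶠ r : ℝ in 𝓝[<] 1, ∫ ζ, (ip (g ((r : ℂ) • ζ)) ζ).re ∂ν < ε) :
    Vanishes ν g := by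
  obtain ⟨L, hL⟩ := limit_exists hν hg
  have h0 : 0 ≤ L := by
    refine ge_of_tendsto hL ?_
    filter_upwards [Ioo_mem_nhdsLT (show (0 : ℝ) < 1 by norm_num)] with r hr
    exact integral_nonneg_of_ae (ae_nonneg' hν.2.1 hg hr.1 hr.2)
  have h1 : L ≤ 0 := by
    refine le_of_forall_pos_le_add fun ε hε => ?_
    rw [zero_add]
    exact le_of_tendsto_of_frequently hL ((hf ε hε).mono fun r hr => hr.le)
  have h2 : L = 0 := le_antisymm h1 h0
  rw [h2] at hL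
  exact hL

/-- **Test measures give support points.** -/
theorem support_of_test {A : Cn n →L[ℂ] Cn n} (hA : ∀ z : Cn n, z ≠ 0 → 0 < (ip (A z) z).re)
    {h : Cn n → Cn n} (hh : h ∈ NA A) (hν : IsTestB ν) (hv : Vanishes ν h) : IsSupport A h := by
  obtain ⟨hP, hS, ρ, C, hρ0, hρ1, hT⟩ := hν
  have hlim : ∀ f : Cn n → Cn n, DifferentiableOn ℂ f (ball 0 1) →
      Tendsto (JJ ν f) (𝓝[<] 1) (𝓝 (limUnder (𝓝[<] (1 : ℝ)) (JJ ν f))) := fun f hf =>
    tendsto_nhds_limUnder (exists_lim hS hρ0 hρ1 hT hf)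
  have hev : ∀ᶠ r : ℝ in 𝓝[<] 1, 0 < r ∧ r < 1 := by
    filter_upwards [Ioo_mem_nhdsLT (show (0 : ℝ) < 1 by norm_num)] with r hr
    exact ⟨hr.1, hr.2⟩
  have hr1 : Tendsto (fun r : ℝ => r * aInt ν A) (𝓝[<] 1) (𝓝 (aInt ν A)) := by
    have : Tendsto (fun r : ℝ => r * aInt ν A) (𝓝 1) (𝓝 (1 * aInt ν A)) :=
      tendsto_id.mul_const _
    rw [one_mul] at this
    exact this.mono_left nhdsWithin_le_nhds
  -- formula for the real part
  have hform : ∀ g ∈ NA A, Tendsto (fun r : ℝ => ∫ ζ, (ip (g ((r : ℂ) • ζ)) ζ).re ∂ν) (𝓝[<] 1)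
      (𝓝 (aInt ν A - (Lam ν g).re)) := by
    intro g hg
    have h1 := (Complex.continuous_re.tendsto _).comp (hlim g hg.1)
    have h2 := h1.add hr1
    have h3 : (limUnder (𝓝[<] (1 : ℝ)) (JJ ν g)).re + aInt ν A = aInt ν A - (Lam ν g).re := by
      unfold Lam
      rw [Complex.neg_re]; ring
    rw [h3] at h2
    refine h2.congr' ?_
    filter_upwards [hev] with r hr
    rw [Function.comp_apply, re_JJ hS hg hr.1 hr.2]
    ring
  have hle : ∀ g ∈ NA A, (Lam ν g).re ≤ aInt ν A := by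
    intro g hg
    have h1 : 0 ≤ aInt ν A - (Lam ν g).re := by
      refine ge_of_tendsto (hform g hg) ?_
      filter_upwards [hev] with r hr
      exact integral_nonneg_of_ae (ae_nonneg' hS hg hr.1 hr.2)
    linarith
  have heq : (Lam ν h).re = aInt ν A := by
    have h1 := tendsto_nhds_unique (hform h hh) hv
    linarith
  have hAm : (fun z => A z) ∈ NA A :=
    ⟨A.differentiable.differentiableOn, map_zero A, A.fderiv, fun z _ hz => hA z hz⟩
  have hA0 : Lam ν (fun z => A z) = 0 := by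
    have h1 : ∀ r, JJ ν (fun z => A z) r = 0 := by
      intro r
      unfold JJ sec
      have : fderiv ℂ (fun z => A z) (0 : Cn n) = A := A.fderiv
      simp [this, ip]
    unfold Lam
    have h2 : Tendsto (JJ ν (fun z => A z)) (𝓝[<] 1) (𝓝 0) := by
      have : JJ ν (fun z => A z) = fun _ => 0 := funext h1
      rw [this]; exact tendsto_const_nhds
    rw [h2.limUnder_eq, neg_zero]
  refine ⟨hh, Lam ν, isFunctional_Lam hS hρ0 hρ1 hT, ⟨fun z => A z, hAm, ?_⟩, fun g hg => ?_⟩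
  · rw [hA0, heq, Complex.zero_re]
    exact (aInt_pos hS hA).ne
  · rw [heq]; exact hle g hg

end Pool.Agent.P1ae5m
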