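import Pool.Agent.Lib.P1ae5m.Defs
import Pool.Agent.Lib.P1ae5.SuppMain

/-!
Basic lemmas.
-/

open Metric MeasureTheory Filter Topology

namespace Pool.Agent.P1ae5m

open Pool.Agent.P1ae5 (Cn ip NA IsSupport IsExtreme IsFunctional exists_lower)

/-- quantitative form of test measures: probability measures `ν` on the unit sphere for which there are `0 < ρ < 1`
and `C` such that `|∫ <v(ζ),ζ> dν(ζ)| ≤ C sup_{‖z‖ ≤ ρ} ‖v(z)‖` for all maps `v` holomorphic on a
ball of radius `R > 1` with `v(0) = 0`, `Dv(0) = 0` -/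
def IsTestB {E : Type} [NormedAddCommGroup E] [InnerProductSpace ℂ E] [MeasurableSpace E]
    (ν : Measure E) : Prop :=
  IsProbabilityMeasure ν ∧ ν (sphere (0 : E) 1)ᶜ = 0 ∧
    ∃ ρ C : ℝ, 0 < ρ ∧ ρ < 1 ∧ ∀ (v : E → E) (R : ℝ), 1 < R → DifferentiableOn ℂ v (ball 0 R) →
      v 0 = 0 → fderiv ℂ v 0 = 0 → ∀ M : ℝ, (∀ z, ‖z‖ ≤ ρ → ‖v z‖ ≤ M) →
        ‖∫ ζ, Pool.Agent.P1ae5.St.sp (v ζ) ζ ∂ν‖ ≤ C * M

variable {n : ℕ}

lemma ip_add (z z' w : Cn n) : ip (z + z') w = ip z w + ip z' w := by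
  unfold ip; rw [inner_add_right]

lemma ip_sub (z z' w : Cn n) : ip (z - z') w = ip z w - ip z' w := by
  unfold ip; rw [inner_sub_right]

lemma ip_smul (a : ℂ) (z w : Cn n) : ip (a • z) w = a * ip z w := by
  unfold ip; rw [inner_smul_right]

lemma ip_smul_right (a : ℂ) (z w : Cn n) : ip z (a • w) = (starRingEnd ℂ) a * ip z w := by
  unfold ip; rw [inner_smul_left]

lemma norm_ip_le (z w : Cn n) : ‖ip z w‖ ≤ ‖z‖ * ‖w‖ := by
  unfold ip; rw [mul_comm]; exact norm_inner_le_norm w z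

lemma ip_self (z : Cn n) : ip z z = ((‖z‖ ^ 2 : ℝ) : ℂ) := by
  unfold ip; rw [inner_self_eq_norm_sq_to_K]; push_cast; rfl

lemma continuous_ip {X : Type*} [TopologicalSpace X] {u v : X → Cn n}
    {s : Set X} (hu : ContinuousOn u s) (hv : ContinuousOn v s) :
    ContinuousOn (fun x => ip (u x) (v x)) s := by
  unfold ip
  exact hv.inner hu

/-- the tangent space: maps holomorphic near the closed ball, vanishing to second order at 0 -/
structure Tan (v : Cn n → Cn n) (R : ℝ) : Prop where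
  hR : 1 < R
  diff : DifferentiableOn ℂ v (ball 0 R)
  zero : v 0 = 0
  hd : HasFDerivAt v (0 : Cn n →L[ℂ] Cn n) 0

lemma Tan.mono {v : Cn n → Cn n} {R R' : ℝ} (h : Tan v R) (h1 : 1 < R') (h2 : R' ≤ R) :
    Tan v R' := ⟨h1, h.diff.mono (ball_subset_ball h2), h.zero, h.hd⟩

lemma Tan.diff1 {v : Cn n → Cn n} {R : ℝ} (h : Tan v R) : DifferentiableOn ℂ v (ball 0 1) :=
  h.diff.mono (ball_subset_ball h.hR.le)

lemma Tan.contS {v : Cn n → Cn n} {R : ℝ} (h : Tan v R) : ContinuousOn v (closedBall 0 1) :=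
  h.diff.continuousOn.mono (closedBall_subset_ball h.hR)

lemma Tan.add {v w : Cn n → Cn n} {R R' : ℝ} (h : Tan v R) (h' : Tan w R') :
    Tan (fun z => v z + w z) (min R R') := by
  refine ⟨lt_min h.hR h'.hR, ?_, by simp [h.zero, h'.zero], ?_⟩
  · exact (h.diff.mono (ball_subset_ball (min_le_left _ _))).fun_add
      (h'.diff.mono (ball_subset_ball (min_le_right _ _)))
  · have := h.hd.fun_add h'.hd
    simpa using this

lemma Tan.smul {v : Cn n → Cn n} {R : ℝ} (h : Tan v R) (c : ℂ) : Tan (fun z => c • v z) R := by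
  refine ⟨h.hR, h.diff.fun_const_smul c, by simp [h.zero], ?_⟩
  have := h.hd.fun_const_smul c
  simpa using this

lemma Tan.sub {v w : Cn n → Cn n} {R R' : ℝ} (h : Tan v R) (h' : Tan w R') :
    Tan (fun z => v z - w z) (min R R') := by
  have h1 := h.add (h'.smul (-1))
  refine ⟨h1.hR, ?_, by simp [h.zero, h'.zero], ?_⟩
  · refine h1.diff.congr fun z _ => ?_
    simp [sub_eq_add_neg]
  · refine h1.hd.congr_of_eventuallyEq ?_
    filter_upwards with z
    simp [sub_eq_add_neg]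

/-- dilation of the second order part of a map holomorphic on the ball -/
lemma tan_dil {f : Cn n → Cn n} (hf : DifferentiableOn ℂ f (ball 0 1)) {r : ℝ} (h0 : 0 < r)
    (h1 : r < 1) :
    Tan (fun z => f ((r : ℂ) • z) - f 0 - fderiv ℂ f 0 ((r : ℂ) • z)) r⁻¹ := by
  have hmaps : ∀ z ∈ ball (0 : Cn n) r⁻¹, (r : ℂ) • z ∈ ball (0 : Cn n) 1 := by
    intro z hz
    rw [mem_ball_zero_iff] at hz ⊢
    rw [norm_smul, Complex.norm_real, Real.norm_of_nonneg h0.le]
    calc r * ‖z‖ < r * r⁻¹ := by gcongr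
      _ = 1 := mul_inv_cancel₀ h0.ne'
  refine ⟨(one_lt_inv₀ h0).2 h1, ?_, by simp, ?_⟩
  · have e1 : DifferentiableOn ℂ (fun z : Cn n => f ((r : ℂ) • z)) (ball 0 r⁻¹) :=
      hf.comp (differentiable_id.const_smul (r : ℂ)).differentiableOn hmaps
    exact (e1.fun_sub (differentiableOn_const _)).fun_sub
      (((fderiv ℂ f 0).differentiable.comp
        (differentiable_id.const_smul (r : ℂ))).differentiableOn)
  · have hfd : HasFDerivAt f (fderiv ℂ f 0) ((r : ℂ) • (0 : Cn n)) := by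
      rw [smul_zero]
      exact (hf.differentiableAt (ball_mem_nhds 0 one_pos)).hasFDerivAt
    have h3 : HasFDerivAt (fun z : Cn n => (r : ℂ) • z) ((r : ℂ) • ContinuousLinearMap.id ℂ (Cn n))
        (0 : Cn n) := (hasFDerivAt_id (0 : Cn n)).fun_const_smul (r : ℂ)
    have h4 := hfd.comp (0 : Cn n) h3
    have h5 : HasFDerivAt (fun z : Cn n => fderiv ℂ f 0 ((r : ℂ) • z))
        ((fderiv ℂ f 0).comp ((r : ℂ) • ContinuousLinearMap.id ℂ (Cn n))) 0 :=
      (fderiv ℂ f 0).hasFDerivAt.comp (0 : Cn n) h3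
    have h6 := (h4.sub_const (f 0)).fun_sub h5
    rw [sub_self] at h6
    exact h6

/-- minimum principle for the real part on the unit disc -/
lemma re_ge_of_circle {φ : ℂ → ℂ} {R c : ℝ} (hR : 1 < R) (hφ : DifferentiableOn ℂ φ (ball 0 R))
    (hc : ∀ l : ℂ, ‖l‖ = 1 → c ≤ (φ l).re) : ∀ l : ℂ, ‖l‖ ≤ 1 → c ≤ (φ l).re := by
  intro l hl
  have h1 : DiffContOnCl ℂ (fun l => Complex.exp (-φ l)) (ball (0 : ℂ) 1) := by
    refine DifferentiableOn.diffContOnCl ?_
    rw [closure_ball _ one_ne_zero]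
    exact (hφ.mono (closedBall_subset_ball hR)).fun_neg.cexp
  have h2 : ∀ z ∈ frontier (ball (0 : ℂ) 1), ‖Complex.exp (-φ z)‖ ≤ Real.exp (-c) := by
    intro z hz
    rw [frontier_ball _ one_ne_zero, mem_sphere_zero_iff_norm] at hz
    rw [Complex.norm_exp, Real.exp_le_exp, Complex.neg_re]
    linarith [hc z hz]
  have h3 := Complex.norm_le_of_forall_mem_frontier_norm_le isBounded_ball h1 h2
    (show l ∈ closure (ball (0 : ℂ) 1) by
      rw [closure_ball _ one_ne_zero, mem_closedBall_zero_iff]; exact hl)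
  rw [Complex.norm_exp, Real.exp_le_exp, Complex.neg_re] at h3
  linarith

/-- minimum principle on slices: a lower bound on the sphere for `Re <v + t A, .>` -/
lemma slice_min {A : Cn n →L[ℂ] Cn n} {v : Cn n → Cn n} {R : ℝ} (hv : Tan v R) {t c : ℝ}
    (hc : ∀ ζ : Cn n, ‖ζ‖ = 1 → c ≤ (ip (v ζ) ζ).re + t * (ip (A ζ) ζ).re) :
    ∀ z : Cn n, ‖z‖ ≤ 1 → c * ‖z‖ ^ 2 ≤ (ip (v z) z).re + t * (ip (A z) z).re := by
  intro z hz
  rcases eq_or_ne z 0 with rfl | hz0
  · simp [hv.zero, ip]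
  have hρ : 0 < ‖z‖ := norm_pos_iff.2 hz0
  set ρ : ℝ := ‖z‖ with hρd
  set ζ : Cn n := ((ρ⁻¹ : ℝ) : ℂ) • z with hζ
  have hζ1 : ‖ζ‖ = 1 := by
    rw [hζ, norm_smul, Complex.norm_real, Real.norm_of_nonneg (by positivity), ← hρd]
    field_simp
  have hzζ : z = (ρ : ℂ) • ζ := by
    rw [hζ, smul_smul, ← Complex.ofReal_mul, mul_inv_cancel₀ hρ.ne', Complex.ofReal_one, one_smul]
  -- the slice function
  set F : ℂ → ℂ := fun l => ip (v (l • ζ)) ζ with hF
  have hmaps : ∀ l ∈ ball (0 : ℂ) R, l • ζ ∈ ball (0 : Cn n) R := by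
    intro l hl
    rw [mem_ball_zero_iff] at hl ⊢
    rw [norm_smul, hζ1, mul_one]; exact hl
  have hFd : DifferentiableOn ℂ F (ball 0 R) := by
    have h1 : DifferentiableOn ℂ (fun l : ℂ => v (l • ζ)) (ball 0 R) :=
      hv.diff.comp (differentiable_id.smul_const ζ).differentiableOn hmaps
    have h2 : F = fun l => innerSL ℂ ζ (v (l • ζ)) := rfl
    rw [h2]
    exact (innerSL ℂ ζ).differentiable.comp_differentiableOn h1
  have hF0 : F 0 = 0 := by simp [hF, hv.zero, ip]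
  have hRpos : (0 : ℝ) < R := by linarith [hv.hR]
  have hds : DifferentiableOn ℂ (dslope F 0) (ball 0 R) :=
    (Complex.differentiableOn_dslope (ball_mem_nhds 0 hRpos)).2 hFd
  set φ : ℂ → ℂ := fun l => dslope F 0 l + t * ip (A ζ) ζ with hφ
  have hφd : DifferentiableOn ℂ φ (ball 0 R) := hds.fun_add (differentiableOn_const _)
  have hval : ∀ l : ℂ, l ≠ 0 → dslope F 0 l = F l / l := by
    intro l hl
    rw [dslope_of_ne _ hl, slope_def_field, hF0, sub_zero, sub_zero]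
  have hcirc : ∀ l : ℂ, ‖l‖ = 1 → c ≤ (φ l).re := by
    intro l hl
    have hl0 : l ≠ 0 := by
      intro h; rw [h, norm_zero] at hl; exact zero_ne_one hl
    have h1 := hc (l • ζ) (by rw [norm_smul, hl, hζ1, mul_one])
    have hinv : l⁻¹ = (starRingEnd ℂ) l := by
      rw [Complex.inv_def, Complex.normSq_eq_norm_sq, hl]; simp
    have e1 : ip (v (l • ζ)) (l • ζ) = F l / l := by
      rw [ip_smul_right, div_eq_inv_mul, hinv]
    have e2 : ip (A (l • ζ)) (l • ζ) = ip (A ζ) ζ := by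
      rw [map_smul, ip_smul, ip_smul_right, ← mul_assoc, ← hinv, mul_inv_cancel₀ hl0, one_mul]
    rw [e1, e2] at h1
    rw [hφ]
    simp only []
    rw [hval l hl0, Complex.add_re, Complex.re_ofReal_mul]
    exact h1
  have h3 := re_ge_of_circle hv.hR hφd hcirc (ρ : ℂ)
    (by rw [Complex.norm_real, Real.norm_of_nonneg hρ.le]; exact hz)
  have hρc : (ρ : ℂ) ≠ 0 := by exact_mod_cast hρ.ne'
  rw [hφ] at h3
  simp only [] at h3
  rw [hval _ hρc, Complex.add_re, Complex.re_ofReal_mul] at h3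
  have e3 : (ip (v z) z).re = ρ ^ 2 * (F ρ / ρ).re := by
    rw [← Complex.re_ofReal_mul]
    congr 1
    have : ip (v z) z = ip (v ((ρ : ℂ) • ζ)) ((ρ : ℂ) • ζ) := by rw [← hzζ]
    rw [this, ip_smul_right, Complex.conj_ofReal]
    have h9 : ip (v ((ρ : ℂ) • ζ)) ζ = F ρ := rfl
    rw [h9]
    push_cast
    field_simp
  have e4 : (ip (A z) z).re = ρ ^ 2 * (ip (A ζ) ζ).re := by
    rw [← Complex.re_ofReal_mul]
    congr 1
    have : ip (A z) z = ip (A ((ρ : ℂ) • ζ)) ((ρ : ℂ) • ζ) := by rw [← hzζ]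
    rw [this, map_smul, ip_smul, ip_smul_right, Complex.conj_ofReal]
    push_cast
    ring
  rw [e3, e4]
  nlinarith [mul_le_mul_of_nonneg_left h3 (sq_nonneg ρ)]

/-! ### integrals over the sphere -/

variable {ν : Measure (Cn n)}

lemma restrict_sphere (hS : ν (sphere (0 : Cn n) 1)ᶜ = 0) : ν.restrict (sphere (0 : Cn n) 1) = ν := by
  rw [Measure.restrict_eq_self_of_ae_mem]
  rw [ae_iff]
  exact hS

lemma ae_sphere (hS : ν (sphere (0 : Cn n) 1)ᶜ = 0) : ∀ᵐ ζ ∂ν, ‖ζ‖ = 1 := by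
  rw [ae_iff]
  convert hS using 2
  ext z
  simp

lemma integrable_sphere {F : Type*} [NormedAddCommGroup F] [IsFiniteMeasure ν]
    (hS : ν (sphere (0 : Cn n) 1)ᶜ = 0) {g : Cn n → F} (hg : ContinuousOn g (sphere 0 1)) :
    Integrable g ν := by
  rw [← restrict_sphere hS]
  exact hg.integrableOn_compact (isCompact_sphere (0 : Cn n) 1)

end Pool.Agent.P1ae5m
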