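import Pool.Agent.Lib.P1ae5m.Curve

/-!
Maps commuting with a circle action.
-/

open Metric MeasureTheory Filter Topology

namespace Pool.Agent.P1ae5m

open Pool.Agent.P1ae5 (Cn ip NA IsSupport IsExtreme IsFunctional exists_lower
  not_support_of_minorant)
open Pool.Agent.P1ae5.St (expi)

variable {n : ℕ}

lemma act_apply (w : Fin n → ℕ) (l : ℂ) (z : Cn n) (i : Fin n) : act w l z i = l ^ w i * z i := rfl

lemma act_act (w : Fin n → ℕ) (a b : ℂ) (z : Cn n) : act w a (act w b z) = act w (a * b) z := by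
  ext i
  rw [act_apply, act_apply, act_apply, mul_pow]
  ring

lemma act_one (w : Fin n → ℕ) (z : Cn n) : act w 1 z = z := by
  ext i
  rw [act_apply, one_pow, one_mul]

lemma act_smul (w : Fin n → ℕ) (l c : ℂ) (z : Cn n) : act w l (c • z) = c • act w l z := by
  ext i
  rw [act_apply, PiLp.smul_apply, PiLp.smul_apply, act_apply, smul_eq_mul, smul_eq_mul]
  ring

lemma act_diff_z (w : Fin n → ℕ) (l : ℂ) : Differentiable ℂ fun z : Cn n => act w l z := by
  rw [differentiable_euclidean]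
  intro i
  have h1 : Differentiable ℂ fun z : Cn n => z i :=
    (EuclideanSpace.proj i : Cn n →L[ℂ] ℂ).differentiable
  exact (differentiable_const _).fun_mul h1

lemma act_diff_l (w : Fin n → ℕ) (z : Cn n) : Differentiable ℂ fun l : ℂ => act w l z := by
  rw [differentiable_euclidean]
  intro i
  exact (differentiable_id.fun_pow _).fun_mul (differentiable_const _)

lemma act_norm_le {w : Fin n → ℕ} (hw : ∀ i, 1 ≤ w i) {l : ℂ} (hl : ‖l‖ ≤ 1) (z : Cn n) :
    ‖act w l z‖ ≤ ‖l‖ * ‖z‖ := by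
  rw [EuclideanSpace.norm_eq, EuclideanSpace.norm_eq, ← Real.sqrt_sq (norm_nonneg l),
    ← Real.sqrt_mul (sq_nonneg _)]
  apply Real.sqrt_le_sqrt
  rw [Finset.mul_sum]
  refine Finset.sum_le_sum fun i _ => ?_
  rw [act_apply, norm_mul, norm_pow, mul_pow]
  have h1 : ‖l‖ ^ w i ≤ ‖l‖ := by
    calc ‖l‖ ^ w i ≤ ‖l‖ ^ 1 := pow_le_pow_of_le_one (norm_nonneg _) hl (hw i)
      _ = ‖l‖ := pow_one _
  gcongr

lemma act_ip {w : Fin n → ℕ} {l : ℂ} (hl : ‖l‖ = 1) (x y : Cn n) :
    ip (act w l x) (act w l y) = ip x y := by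
  rw [ip_coord, ip_coord]
  refine Finset.sum_congr rfl fun i _ => ?_
  rw [act_apply, act_apply, map_mul, map_pow]
  have h1 : l ^ w i * (starRingEnd ℂ) l ^ w i = 1 := by
    rw [← mul_pow, Complex.mul_conj, Complex.normSq_eq_norm_sq, hl]
    simp
  calc l ^ w i * x i * ((starRingEnd ℂ) l ^ w i * (starRingEnd ℂ) (y i))
      = (l ^ w i * (starRingEnd ℂ) l ^ w i) * (x i * (starRingEnd ℂ) (y i)) := by ring
    _ = _ := by rw [h1, one_mul]

lemma act_norm {w : Fin n → ℕ} {l : ℂ} (hl : ‖l‖ = 1) (z : Cn n) : ‖act w l z‖ = ‖z‖ := by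
  have h1 := act_ip (w := w) hl z z
  rw [ip_self, ip_self] at h1
  have h2 : ‖act w l z‖ ^ 2 = ‖z‖ ^ 2 := by exact_mod_cast h1
  exact (sq_eq_sq₀ (norm_nonneg _) (norm_nonneg _)).1 h2

/-- equivariance inside the disc -/
lemma equi_le {w : Fin n → ℕ} (hw : ∀ i, 1 ≤ w i) {h : Cn n → Cn n}
    (hh : DifferentiableOn ℂ h (ball 0 1))
    (heq : ∀ l : ℂ, ‖l‖ = 1 → ∀ z ∈ ball (0 : Cn n) 1, h (act w l z) = act w l (h z))
    {l : ℂ} (hl : ‖l‖ ≤ 1) {z : Cn n} (hz : z ∈ ball (0 : Cn n) 1) :
    h (act w l z) = act w l (h z) := by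
  have hz1 : ‖z‖ < 1 := by simpa using hz
  have h1 : DiffContOnCl ℂ (fun l => h (act w l z)) (ball (0 : ℂ) 1) := by
    refine DifferentiableOn.diffContOnCl ?_
    rw [closure_ball _ one_ne_zero]
    intro m hm
    have hm1 : ‖m‖ ≤ 1 := by simpa using hm
    have hmem : act w m z ∈ ball (0 : Cn n) 1 := by
      rw [mem_ball_zero_iff]
      have := act_norm_le hw hm1 z
      nlinarith [norm_nonneg m, norm_nonneg z]
    have h2 : DifferentiableAt ℂ h (act w m z) :=
      (hh _ hmem).differentiableAt (isOpen_ball.mem_nhds hmem)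
    exact (DifferentiableAt.comp m h2 (act_diff_l w z m)).differentiableWithinAt
  have h2 : DiffContOnCl ℂ (fun l => act w l (h z)) (ball (0 : ℂ) 1) :=
    (act_diff_l w (h z)).diffContOnCl
  have h3 := Complex.eqOn_closure_of_eqOn_frontier isBounded_ball h1 h2 (fun m hm => by
    rw [frontier_ball _ one_ne_zero, mem_sphere_zero_iff_norm] at hm
    exact heq m hm z hz)
  exact h3 (show l ∈ closure (ball (0 : ℂ) 1) by
    rw [closure_ball _ one_ne_zero, mem_closedBall_zero_iff]; exact hl)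

/-- one radial limit -/
theorem support_orbit {A : Cn n →L[ℂ] Cn n} (hA : ∀ z : Cn n, z ≠ 0 → 0 < (ip (A z) z).re)
    {w : Fin n → ℕ} {h : Cn n → Cn n} (hh : h ∈ NA A)
    (heq : ∀ l : ℂ, ‖l‖ = 1 → ∀ z ∈ ball (0 : Cn n) 1, h (act w l z) = act w l (h z))
    {ζ : Cn n} (hζr : ζ ∈ rzero h) (hj : ∃ j, w j ≠ 0 ∧ ζ j ≠ 0) :
    IsSupport A h := by
  obtain ⟨hζ, hlim⟩ := hζr
  have hcurve : IsCurve 2 (fun l => act w l ζ) := by
    refine ⟨by norm_num, (act_diff_l w ζ).differentiableOn, fun l hl => ?_, fun l _ hl => ?_⟩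
    · rw [act_norm hl, hζ]
    · obtain ⟨j, hwj, hζj⟩ := hj
      have h1 : ‖act w l ζ‖ ^ 2 < 1 := by
        have h2 : ‖ζ‖ ^ 2 = 1 := by rw [hζ]; norm_num
        rw [EuclideanSpace.norm_sq_eq] at h2 ⊢
        rw [← h2]
        refine Finset.sum_lt_sum (fun i _ => ?_) ⟨j, Finset.mem_univ j, ?_⟩
        · rw [act_apply, norm_mul, norm_pow, mul_pow]
          have h3 : (‖l‖ ^ w i) ^ 2 ≤ 1 :=
            pow_le_one₀ (by positivity) (pow_le_one₀ (norm_nonneg _) hl.le)
          nlinarith [sq_nonneg ‖ζ i‖]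
        · rw [act_apply, norm_mul, norm_pow, mul_pow]
          have h3 : ‖l‖ ^ w j < 1 := pow_lt_one₀ (norm_nonneg _) hl hwj
          have h4 : (‖l‖ ^ w j) ^ 2 < 1 := pow_lt_one₀ (by positivity) h3 two_ne_zero
          have h5 : 0 < ‖ζ j‖ ^ 2 := by
            have := norm_pos_iff.2 hζj
            positivity
          nlinarith
      nlinarith [norm_nonneg (act w l ζ)]
  have hdens : IsDensity 2 (fun _ => 1) :=
    ⟨differentiableOn_const _, fun l _ => by simp, 1, by simp, by simp⟩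
  refine support_of_curve hA hh hcurve hdens fun ε hε => ?_
  have h1 := hlim (ε / (2 * Real.pi)) (div_pos hε Real.two_pi_pos)
  refine (h1.and_eventually (Ioo_mem_nhdsLT (show (0 : ℝ) < 1 by norm_num))).mono ?_
  rintro r ⟨h3, hr⟩
  have h3' : (ip (h ((r : ℂ) • ζ)) ζ).re < ε / (2 * Real.pi) := h3
  have hz : (r : ℂ) • ζ ∈ ball (0 : Cn n) 1 := by
    rw [mem_ball_zero_iff, norm_smul, Complex.norm_real, Real.norm_of_nonneg hr.1.le, hζ,
      mul_one]
    exact hr.2
  have h2 : ∀ θ : ℝ, (ip (h ((r : ℂ) • act w (expi θ) ζ)) (act w (expi θ) ζ)).re *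
      (1 : ℂ).re = (ip (h ((r : ℂ) • ζ)) ζ).re := by
    intro θ
    rw [← act_smul, heq _ (norm_expi θ) _ hz, act_ip (norm_expi θ), Complex.one_re, mul_one]
  simp only [h2, intervalIntegral.integral_const, sub_zero, smul_eq_mul]
  rw [lt_div_iff₀ Real.two_pi_pos] at h3'
  linarith

theorem support_circle {A : Cn n →L[ℂ] Cn n} (hA : ∀ z : Cn n, z ≠ 0 → 0 < (ip (A z) z).re)
    {w : Fin n → ℕ} (hw : ∀ i, 1 ≤ w i) {h : Cn n → Cn n} (hh : h ∈ NA A)
    (heq : ∀ l : ℂ, ‖l‖ = 1 → ∀ z ∈ ball (0 : Cn n) 1, h (act w l z) = act w l (h z)) :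
    IsSupport A h ↔ ¬ ∃ c : ℝ, 0 < c ∧ ∀ z ∈ ball (0 : Cn n) 1, c * ‖z‖ ^ 2 ≤ (ip (h z) z).re := by
  constructor
  · rintro hs ⟨c, hc, hcb⟩
    refine not_support_of_minorant (A := A) (h := h) (P := fun _ => (c : ℂ))
      (differentiableOn_const _) (fun z _ => by exact_mod_cast hc.ne')
      (fun z hz => by
        rw [Complex.norm_real, Real.norm_of_nonneg hc.le]
        exact hcb z hz) hs
  · intro hno
    -- the extension
    set H : Cn n → Cn n := fun z => act w 2 (h (act w (1 / 2) z)) with hH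
    have hhalf : ‖(1 / 2 : ℂ)‖ = 1 / 2 := by simp
    have hmap : ∀ z ∈ ball (0 : Cn n) 2, act w (1 / 2) z ∈ ball (0 : Cn n) 1 := by
      intro z hz
      rw [mem_ball_zero_iff] at hz ⊢
      have := act_norm_le hw (l := 1 / 2) (by rw [hhalf]; norm_num) z
      rw [hhalf] at this
      linarith
    have hHh : ∀ z ∈ ball (0 : Cn n) 1, H z = h z := by
      intro z hz
      rw [hH]
      simp only []
      rw [equi_le hw hh.1 heq (by rw [hhalf]; norm_num) hz, act_act]
      have : (2 : ℂ) * (1 / 2) = 1 := by norm_num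
      rw [this, act_one]
    have hHd : DifferentiableOn ℂ H (ball 0 2) :=
      (act_diff_z w 2).comp_differentiableOn
        (hh.1.comp (act_diff_z w (1 / 2)).differentiableOn hmap)
    have hHev : H =ᶠ[𝓝 0] h := by
      filter_upwards [ball_mem_nhds (0 : Cn n) one_pos] with z hz
      exact hHh z hz
    have hTan : Tan (fun z => H z - A z) 2 := by
      refine ⟨by norm_num, hHd.fun_sub A.differentiable.differentiableOn, ?_, ?_⟩
      · simp only [map_zero, sub_zero]
        rw [hHh 0 (mem_ball_self one_pos), hh.2.1]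
      · have h1 : HasFDerivAt h A 0 := by
          have := (hh.1.differentiableAt (ball_mem_nhds 0 one_pos)).hasFDerivAt
          rwa [hh.2.2.1] at this
        have h2 := (h1.congr_of_eventuallyEq hHev).fun_sub A.hasFDerivAt
        rwa [sub_self] at h2
    have hφc : ContinuousOn (fun ζ : Cn n => (ip (H ζ) ζ).re) (ball 0 2) :=
      Complex.continuous_re.comp_continuousOn (continuous_ip hHd.continuousOn continuousOn_id)
    have hsub : sphere (0 : Cn n) 1 ⊆ ball 0 2 := by
      intro z hz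
      rw [mem_sphere_zero_iff_norm] at hz
      rw [mem_ball_zero_iff, hz]; norm_num
    -- limits along radii
    have hrad : ∀ ζ : Cn n, ‖ζ‖ = 1 → Tendsto (fun r : ℝ => (ip (h ((r : ℂ) • ζ)) ζ).re) (𝓝[<] 1)
        (𝓝 (ip (H ζ) ζ).re) := by
      intro ζ hζ
      have h1 : ContinuousAt H ζ := hHd.continuousOn.continuousAt
        (isOpen_ball.mem_nhds (hsub (by rw [mem_sphere_zero_iff_norm]; exact hζ)))
      have h2 : Tendsto (fun r : ℝ => (r : ℂ) • ζ) (𝓝 1) (𝓝 ζ) := by
        have h3 : Tendsto (fun s : ℝ => (s : ℂ) • ζ) (𝓝 1) (𝓝 (((1 : ℝ) : ℂ) • ζ)) :=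
          ((Complex.continuous_ofReal.tendsto 1).smul_const ζ)
        rwa [Complex.ofReal_one, one_smul] at h3
      have h4 : Tendsto (fun r : ℝ => H ((r : ℂ) • ζ)) (𝓝[<] 1) (𝓝 (H ζ)) :=
        (h1.tendsto.comp h2).mono_left nhdsWithin_le_nhds
      have h5 : Continuous fun x : Cn n => (ip x ζ).re := by
        unfold ip
        exact Complex.continuous_re.comp (continuous_const.inner continuous_id)
      refine ((h5.tendsto _).comp h4).congr' ?_
      filter_upwards [Ioo_mem_nhdsLT (show (0 : ℝ) < 1 by norm_num)] with r hr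
      simp only [Function.comp_apply]
      rw [hHh _ (by
        rw [mem_ball_zero_iff, norm_smul, Complex.norm_real, Real.norm_of_nonneg hr.1.le, hζ,
          mul_one]
        exact hr.2)]
    -- a zero on the sphere
    obtain ⟨ζ0, hζ0, hz0⟩ : ∃ ζ : Cn n, ‖ζ‖ = 1 ∧ (ip (H ζ) ζ).re = 0 := by
      rcases (sphere (0 : Cn n) 1).eq_empty_or_nonempty with hE | hE
      · exfalso
        apply hno
        refine ⟨1, one_pos, fun z _ => ?_⟩
        have hz : z = 0 := by
          by_contra hz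
          have hR : 0 < ‖z‖ := norm_pos_iff.2 hz
          have : ((‖z‖⁻¹ : ℝ) : ℂ) • z ∈ sphere (0 : Cn n) 1 := by
            rw [mem_sphere_zero_iff_norm, norm_smul, Complex.norm_real,
              Real.norm_of_nonneg (by positivity)]
            field_simp
          rw [hE] at this
          exact this
        rw [hz]
        simp [ip]
      · obtain ⟨ζ0, hζ0, hmin⟩ := (isCompact_sphere (0 : Cn n) 1).exists_isMinOn hE
          (hφc.mono hsub)
        have hζ0' : ‖ζ0‖ = 1 := by rwa [mem_sphere_zero_iff_norm] at hζ0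
        refine ⟨ζ0, hζ0', le_antisymm ?_ ?_⟩
        · by_contra hpos
          push Not at hpos
          apply hno
          refine ⟨_, hpos, fun z hz => ?_⟩
          have h1 := slice_min (A := A) hTan (t := 1) (c := (ip (H ζ0) ζ0).re) (fun ζ hζ => by
            have h2 := hmin (show ζ ∈ sphere (0 : Cn n) 1 by rwa [mem_sphere_zero_iff_norm])
            have h3 : (ip (H ζ0) ζ0).re ≤ (ip (H ζ) ζ).re := h2
            rw [ip_sub, Complex.sub_re]
            linarith) z (by simpa using (mem_ball_zero_iff.1 hz).le)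
          rw [ip_sub, Complex.sub_re, hHh z hz] at h1
          linarith
        · refine ge_of_tendsto (hrad ζ0 hζ0') ?_
          filter_upwards [Ioo_mem_nhdsLT (show (0 : ℝ) < 1 by norm_num)] with s hs
          have hz : (s : ℂ) • ζ0 ∈ ball (0 : Cn n) 1 := by
            rw [mem_ball_zero_iff, norm_smul, Complex.norm_real, Real.norm_of_nonneg hs.1.le, hζ0',
              mul_one]
            exact hs.2
          have hz0 : (s : ℂ) • ζ0 ≠ 0 := by
            intro h
            have := congrArg norm h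
            rw [norm_smul, Complex.norm_real, Real.norm_of_nonneg hs.1.le, hζ0', mul_one,
              norm_zero] at this
            exact hs.1.ne' this
          have h3 := hh.2.2.2 _ hz hz0
          rw [ip_smul_right, Complex.conj_ofReal, Complex.re_ofReal_mul] at h3
          exact (pos_of_mul_pos_right h3 hs.1.le).le
    refine support_orbit (ζ := ζ0) hA hh heq ?_ ?_
    · refine ⟨hζ0, fun ε hε => ?_⟩
      have h1 := hrad ζ0 hζ0
      rw [hz0] at h1
      exact (h1.eventually (gt_mem_nhds hε)).frequently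
    · by_contra hcon
      push Not at hcon
      have h1 : ζ0 = 0 := by
        ext j
        exact hcon j (by have := hw j; omega)
      rw [h1, norm_zero] at hζ0
      exact zero_ne_one hζ0

end Pool.Agent.P1ae5m
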