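import Pool.Agent.Lib.P1ae5m.Back

/-!
Closed analytic transverse curves carry test measures.
-/

open Metric MeasureTheory Filter Topology

namespace Pool.Agent.P1ae5m

open Pool.Agent.P1ae5 (Cn ip NA IsSupport IsExtreme IsFunctional exists_lower
  not_support_of_minorant)
open Pool.Agent.P1ae5.St (expi)

variable {n : ℕ}

lemma norm_expi (θ : ℝ) : ‖expi θ‖ = 1 := Complex.norm_exp_ofReal_mul_I θ

lemma continuous_expi : Continuous expi := by
  unfold expi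
  fun_prop

/-- the annulus -/
def Ann (R : ℝ) : Set ℂ := {l : ℂ | R⁻¹ < ‖l‖ ∧ ‖l‖ < R}

lemma isOpen_Ann (R : ℝ) : IsOpen (Ann R) :=
  (isOpen_lt continuous_const continuous_norm).inter (isOpen_lt continuous_norm continuous_const)

lemma circle_mem_Ann {R : ℝ} (hR : 1 < R) {l : ℂ} (hl : ‖l‖ = 1) : l ∈ Ann R :=
  ⟨by rw [hl]; exact inv_lt_one_of_one_lt₀ hR, by rw [hl]; exact hR⟩

/-- the integrand of the contour integral -/
noncomputable def Gf (Γ : ℂ → Cn n) (Φ : ℂ → ℂ) (v : Cn n → Cn n) (l : ℂ) : ℂ :=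
  Φ l * ip (v (Γ l)) (Γ ((starRingEnd ℂ) l)⁻¹)

lemma ip_coord (z w : Cn n) : ip z w = ∑ i, z i * (starRingEnd ℂ) (w i) := by
  unfold ip
  rw [PiLp.inner_apply]
  refine Finset.sum_congr rfl fun i _ => ?_
  rw [RCLike.inner_apply, mul_comm]

lemma Gf_diff {R : ℝ} {Γ : ℂ → Cn n} {Φ : ℂ → ℂ} (hΓ : IsCurve R Γ) (hΦ : IsDensity R Φ)
    {v : Cn n → Cn n} {R' : ℝ} (hR' : 1 < R') (hv : DifferentiableOn ℂ v (ball 0 R')) {l : ℂ}
    (h1 : R⁻¹ < ‖l‖) (h2 : ‖l‖ ≤ 1) : DifferentiableAt ℂ (Gf Γ Φ v) l := by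
  obtain ⟨hR, hΓd, hΓ1, hΓ2⟩ := hΓ
  have hR0 : 0 < R := by linarith
  have hRi : 0 < R⁻¹ := inv_pos.2 hR0
  have hl0 : 0 < ‖l‖ := hRi.trans h1
  have hlA : l ∈ Ann R := ⟨h1, by linarith⟩
  have hΓl : ‖Γ l‖ ≤ 1 := by
    rcases h2.eq_or_lt with h3 | h3
    · exact (hΓ1 l h3).le
    · exact (hΓ2 l h1 h3).le
  have dΓ : DifferentiableAt ℂ Γ l := (hΓd l hlA).differentiableAt ((isOpen_Ann R).mem_nhds hlA)
  have dΦ : DifferentiableAt ℂ Φ l := (hΦ.1 l hlA).differentiableAt ((isOpen_Ann R).mem_nhds hlA)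
  have dv : DifferentiableAt ℂ v (Γ l) := (hv (Γ l) (by
    rw [mem_ball_zero_iff]; linarith)).differentiableAt (isOpen_ball.mem_nhds (by
    rw [mem_ball_zero_iff]; linarith))
  have dvΓ : DifferentiableAt ℂ (fun l => v (Γ l)) l := dv.comp l dΓ
  have hcl : ((starRingEnd ℂ) l)⁻¹ ∈ Ann R := by
    have h3 : ‖((starRingEnd ℂ) l)⁻¹‖ = ‖l‖⁻¹ := by rw [norm_inv, RCLike.norm_conj]
    refine ⟨?_, ?_⟩
    · rw [h3]
      have : 1 ≤ ‖l‖⁻¹ := (one_le_inv₀ hl0).2 h2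
      exact lt_of_lt_of_le (inv_lt_one_of_one_lt₀ hR) this
    · rw [h3, inv_lt_comm₀ hl0 hR0]
      exact h1
  have hcl0 : (starRingEnd ℂ) l ≠ 0 := by
    rw [← norm_ne_zero_iff, RCLike.norm_conj]
    exact hl0.ne'
  have hfun : Gf Γ Φ v = fun l => Φ l * ∑ i, (v (Γ l)) i *
      (starRingEnd ℂ) (Γ ((starRingEnd ℂ) l)⁻¹ i) := by
    funext l
    unfold Gf
    rw [ip_coord]
  rw [hfun]
  refine dΦ.fun_mul (DifferentiableAt.fun_sum fun i _ => ?_)
  refine DifferentiableAt.fun_mul ?_ ?_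
  · exact ((EuclideanSpace.proj i : Cn n →L[ℂ] ℂ).differentiableAt).comp l dvΓ
  · have dΓ' : DifferentiableAt ℂ Γ ((starRingEnd ℂ) l)⁻¹ :=
      (hΓd _ hcl).differentiableAt ((isOpen_Ann R).mem_nhds hcl)
    have d1 : DifferentiableAt ℂ (fun m : ℂ => Γ m⁻¹) ((starRingEnd ℂ) l) :=
      DifferentiableAt.comp ((starRingEnd ℂ) l) dΓ' (differentiableAt_inv hcl0)
    have d2 : DifferentiableAt ℂ (fun m : ℂ => (Γ m⁻¹) i) ((starRingEnd ℂ) l) :=
      ((EuclideanSpace.proj i : Cn n →L[ℂ] ℂ).differentiableAt).comp _ d1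
    have d3 := d2.conj_conj
    rw [Complex.conj_conj] at d3
    exact d3

lemma circleInt_eq (f : ℂ → ℂ) {r : ℝ} (hr : r ≠ 0) : (∮ z in C(0, r), (z - 0)⁻¹ • f z) =
    Complex.I * ∫ θ in (0 : ℝ)..2 * Real.pi, f (r * expi θ) := by
  unfold circleIntegral
  rw [← intervalIntegral.integral_const_mul]
  refine intervalIntegral.integral_congr fun θ _ => ?_
  simp only [deriv_circleMap, sub_zero, smul_eq_mul]
  have h1 : circleMap 0 r θ = r * expi θ := by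
    unfold circleMap expi
    rw [zero_add]
  have h2 : circleMap 0 r θ ≠ 0 := by
    rw [h1]
    have : expi θ ≠ 0 := Complex.exp_ne_zero _
    exact mul_ne_zero (by exact_mod_cast hr) this
  rw [← h1]
  field_simp

theorem contour_bound {R : ℝ} {Γ : ℂ → Cn n} {Φ : ℂ → ℂ} (hΓ : IsCurve R Γ)
    (hΦ : IsDensity R Φ) : ∃ ρ C : ℝ, 0 < ρ ∧ ρ < 1 ∧ ∀ (v : Cn n → Cn n) (R' : ℝ), 1 < R' →
      DifferentiableOn ℂ v (ball 0 R') → ∀ M : ℝ, (∀ z, ‖z‖ ≤ ρ → ‖v z‖ ≤ M) →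
        ‖∫ θ in (0 : ℝ)..2 * Real.pi, Φ (expi θ) * ip (v (Γ (expi θ))) (Γ (expi θ))‖ ≤ C * M := by
  obtain ⟨hR, hΓd, hΓ1, hΓ2⟩ := hΓ
  have hR0 : 0 < R := by linarith
  have hRi : R⁻¹ < 1 := inv_lt_one_of_one_lt₀ hR
  obtain ⟨r, hr1, hr2⟩ := exists_between hRi
  have hr0 : 0 < r := (inv_pos.2 hR0).trans hr1
  have hcS : IsCompact (sphere (0 : ℂ) r) := isCompact_sphere _ _
  have hne : (sphere (0 : ℂ) r).Nonempty := ⟨(r : ℂ), by
    rw [mem_sphere_zero_iff_norm, Complex.norm_real, Real.norm_of_nonneg hr0.le]⟩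
  have hsubA : sphere (0 : ℂ) r ⊆ Ann R := by
    intro l hl
    rw [mem_sphere_zero_iff_norm] at hl
    exact ⟨by rw [hl]; exact hr1, by rw [hl]; linarith⟩
  obtain ⟨l0, hl0, hl0m⟩ := hcS.exists_isMaxOn hne ((hΓd.continuousOn.mono hsubA).norm)
  obtain ⟨B1, hB1⟩ := hcS.exists_bound_of_continuousOn (hΦ.1.continuousOn.mono hsubA)
  have hcS' : IsCompact (sphere (0 : ℂ) r⁻¹) := isCompact_sphere _ _
  have hsubA' : sphere (0 : ℂ) r⁻¹ ⊆ Ann R := by
    intro l hl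
    rw [mem_sphere_zero_iff_norm] at hl
    refine ⟨?_, ?_⟩
    · rw [hl]
      have : 1 < r⁻¹ := (one_lt_inv₀ hr0).2 hr2
      linarith
    · rw [hl, inv_lt_comm₀ hr0 hR0]; exact hr1
  obtain ⟨B2, hB2⟩ := hcS'.exists_bound_of_continuousOn (hΓd.continuousOn.mono hsubA')
  have hl0' : ‖l0‖ = r := by rwa [mem_sphere_zero_iff_norm] at hl0
  refine ⟨max (1 / 2) ‖Γ l0‖, 2 * Real.pi * (|B1| * |B2|), lt_of_lt_of_le (by norm_num)
    (le_max_left _ _), max_lt (by norm_num) (hΓ2 l0 (by rw [hl0']; exact hr1)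
      (by rw [hl0']; exact hr2)), fun v R' hR' hv M hM => ?_⟩
  have hM0 : 0 ≤ M := (norm_nonneg _).trans (hM 0 (by
    rw [norm_zero]
    exact le_trans (by norm_num) (le_max_left _ _)))
  have hd : ∀ l : ℂ, r ≤ ‖l‖ → ‖l‖ ≤ 1 → DifferentiableAt ℂ (Gf Γ Φ v) l := fun l h1 h2 =>
    Gf_diff ⟨hR, hΓd, hΓ1, hΓ2⟩ hΦ hR' hv (by linarith) h2
  have hshift := Complex.circleIntegral_sub_center_inv_smul_eq_of_differentiable_on_annulus_off_countable
    (c := 0) (r := r) (R := 1) hr0 hr2.le (f := Gf Γ Φ v) (s := ∅) Set.countable_empty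
    (fun l hl => by
      have h1 : ‖l‖ ≤ 1 := by simpa using hl.1
      have h2 : r ≤ ‖l‖ := by simpa using hl.2
      exact (hd l h2 h1).continuousAt.continuousWithinAt)
    (fun l hl => by
      have h1 : ‖l‖ < 1 := by simpa using hl.1.1
      have h2 : r < ‖l‖ := by simpa using hl.1.2
      exact hd l h2.le h1.le)
  rw [circleInt_eq _ one_ne_zero, circleInt_eq _ hr0.ne'] at hshift
  have hshift2 : (∫ θ in (0 : ℝ)..2 * Real.pi, Gf Γ Φ v (((1 : ℝ) : ℂ) * expi θ)) =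
      ∫ θ in (0 : ℝ)..2 * Real.pi, Gf Γ Φ v ((r : ℂ) * expi θ) :=
    mul_left_cancel₀ Complex.I_ne_zero hshift
  have hlhs : (∫ θ in (0 : ℝ)..2 * Real.pi, Gf Γ Φ v (((1 : ℝ) : ℂ) * expi θ)) =
      ∫ θ in (0 : ℝ)..2 * Real.pi, Φ (expi θ) * ip (v (Γ (expi θ))) (Γ (expi θ)) := by
    refine intervalIntegral.integral_congr fun θ _ => ?_
    simp only [Complex.ofReal_one, one_mul]
    unfold Gf
    have h1 : ((starRingEnd ℂ) (expi θ))⁻¹ = expi θ := by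
      rw [inv_eq_iff_eq_inv, Complex.inv_def, Complex.normSq_eq_norm_sq, norm_expi]
      simp
    rw [h1]
  rw [← hlhs, hshift2]
  have hbd : ∀ θ ∈ Set.uIoc (0 : ℝ) (2 * Real.pi), ‖Gf Γ Φ v ((r : ℂ) * expi θ)‖ ≤
      |B1| * |B2| * M := by
    intro θ _
    have hn : ‖(r : ℂ) * expi θ‖ = r := by
      rw [norm_mul, norm_expi, mul_one, Complex.norm_real, Real.norm_of_nonneg hr0.le]
    have hs : (r : ℂ) * expi θ ∈ sphere (0 : ℂ) r := by rw [mem_sphere_zero_iff_norm, hn]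
    have hs' : ((starRingEnd ℂ) ((r : ℂ) * expi θ))⁻¹ ∈ sphere (0 : ℂ) r⁻¹ := by
      rw [mem_sphere_zero_iff_norm, norm_inv, RCLike.norm_conj, hn]
    have h1 : ‖Φ ((r : ℂ) * expi θ)‖ ≤ |B1| := (hB1 _ hs).trans (le_abs_self _)
    have h2 : ‖Γ ((starRingEnd ℂ) ((r : ℂ) * expi θ))⁻¹‖ ≤ |B2| :=
      (hB2 _ hs').trans (le_abs_self _)
    have h3 : ‖v (Γ ((r : ℂ) * expi θ))‖ ≤ M := hM _ ((hl0m hs).trans (le_max_right _ _))
    unfold Gf
    rw [norm_mul]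
    calc ‖Φ ((r : ℂ) * expi θ)‖ *
          ‖ip (v (Γ ((r : ℂ) * expi θ))) (Γ ((starRingEnd ℂ) ((r : ℂ) * expi θ))⁻¹)‖
        ≤ |B1| * (‖v (Γ ((r : ℂ) * expi θ))‖ *
          ‖Γ ((starRingEnd ℂ) ((r : ℂ) * expi θ))⁻¹‖) := by
          gcongr
          exact norm_ip_le _ _
      _ ≤ |B1| * (M * |B2|) := by gcongr
      _ = |B1| * |B2| * M := by ring
  refine (intervalIntegral.norm_integral_le_of_norm_le_const hbd).trans (le_of_eq ?_)
  rw [sub_zero, abs_of_pos Real.two_pi_pos]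
  ring

/-- the measure of a curve with density -/
noncomputable def curveM (Γ : ℂ → Cn n) (Φ : ℂ → ℂ) : Measure (Cn n) :=
  (ENNReal.ofReal (∫ θ in (0 : ℝ)..2 * Real.pi, (Φ (expi θ)).re))⁻¹ •
    ((volume.restrict (Set.Ioc (0 : ℝ) (2 * Real.pi))).withDensity
      (fun θ => ENNReal.ofReal (Φ (expi θ)).re)).map (fun θ => Γ (expi θ))

theorem curve_test {R : ℝ} {Γ : ℂ → Cn n} {Φ : ℂ → ℂ} (hΓ : IsCurve R Γ)
    (hΦ : IsDensity R Φ) :
    0 < (∫ θ in (0 : ℝ)..2 * Real.pi, (Φ (expi θ)).re) ∧ IsTestB (curveM Γ Φ) ∧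
      ∀ F : Cn n → ℝ, ContinuousOn F (sphere 0 1) → ∫ ζ, F ζ ∂(curveM Γ Φ) =
        (∫ θ in (0 : ℝ)..2 * Real.pi, (Φ (expi θ)).re)⁻¹ *
          ∫ θ in (0 : ℝ)..2 * Real.pi, F (Γ (expi θ)) * (Φ (expi θ)).re := by
  have hcirc : ∀ θ : ℝ, expi θ ∈ Ann R := fun θ => circle_mem_Ann hΓ.1 (norm_expi θ)
  have hγ : Continuous fun θ : ℝ => Γ (expi θ) :=
    hΓ.2.1.continuousOn.comp_continuous continuous_expi hcirc
  have hΦc : Continuous fun θ : ℝ => Φ (expi θ) :=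
    hΦ.1.continuousOn.comp_continuous continuous_expi hcirc
  have hq : Continuous fun θ : ℝ => (Φ (expi θ)).re := Complex.continuous_re.comp hΦc
  have hq0 : ∀ θ : ℝ, 0 ≤ (Φ (expi θ)).re := fun θ => (hΦ.2.1 _ (norm_expi θ)).2
  have hqr : ∀ θ : ℝ, ((Φ (expi θ)).re : ℂ) = Φ (expi θ) := fun θ => by
    apply Complex.ext
    · simp
    · simp [(hΦ.2.1 _ (norm_expi θ)).1]
  have hm : 0 < ∫ θ in (0 : ℝ)..2 * Real.pi, (Φ (expi θ)).re := by
    obtain ⟨l, hl, hl0⟩ := hΦ.2.2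
    obtain ⟨t, ht, htl⟩ : ∃ t ∈ Set.Icc (0 : ℝ) (2 * Real.pi), expi t = l := by
      have hl0' : l ≠ 0 := by
        intro h
        rw [h, norm_zero] at hl
        exact zero_ne_one hl
      have hexp : expi l.arg = l := by
        have := Complex.norm_mul_exp_arg_mul_I l
        rw [hl, Complex.ofReal_one, one_mul] at this
        exact this
      have hper : Function.Periodic (fun θ : ℝ => expi θ) (2 * Real.pi) := by
        intro θ
        change expi (θ + 2 * Real.pi) = expi θ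
        unfold expi
        push_cast
        rw [add_mul, Complex.exp_add, Complex.exp_two_pi_mul_I, mul_one]
      obtain ⟨y, hy, hy2⟩ := hper.exists_mem_Ico₀ Real.two_pi_pos l.arg
      exact ⟨y, ⟨hy.1, hy.2.le⟩, by
        have h3 : expi l.arg = expi y := hy2
        rw [← h3, hexp]⟩
    refine intervalIntegral.integral_pos Real.two_pi_pos hq.continuousOn (fun θ _ => hq0 θ)
      ⟨t, ht, ?_⟩
    refine lt_of_le_of_ne (hq0 t) fun h => hl0 ?_
    rw [← htl, ← hqr t, ← h, Complex.ofReal_zero]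
  obtain ⟨m, hmd⟩ : ∃ m, m = ∫ θ in (0 : ℝ)..2 * Real.pi, (Φ (expi θ)).re := ⟨_, rfl⟩
  rw [← hmd] at hm ⊢
  set μ0 : Measure ℝ := (volume.restrict (Set.Ioc (0 : ℝ) (2 * Real.pi))).withDensity
    (fun θ => ENNReal.ofReal (Φ (expi θ)).re) with hμ0
  have hInt : Integrable (fun θ : ℝ => (Φ (expi θ)).re)
      (volume.restrict (Set.Ioc (0 : ℝ) (2 * Real.pi))) :=
    (hq.integrableOn_Icc (a := 0) (b := 2 * Real.pi)).mono_set Set.Ioc_subset_Icc_self
  have hμ0u : μ0 Set.univ = ENNReal.ofReal m := by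
    rw [hμ0, withDensity_apply _ MeasurableSet.univ, Measure.restrict_univ,
      ← ofReal_integral_eq_lintegral_ofReal hInt (Filter.Eventually.of_forall hq0), hmd,
      intervalIntegral.integral_of_le Real.two_pi_pos.le]
  haveI : IsFiniteMeasure μ0 := ⟨by rw [hμ0u]; exact ENNReal.ofReal_lt_top⟩
  set ν' : Measure (Cn n) := μ0.map (fun θ => Γ (expi θ)) with hν'
  haveI : IsFiniteMeasure ν' := by rw [hν']; infer_instance
  have hcm : curveM Γ Φ = (ENNReal.ofReal m)⁻¹ • ν' := by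
    unfold curveM
    rw [← hmd]
  have hν'S : ν' (sphere (0 : Cn n) 1)ᶜ = 0 := by
    rw [hν', Measure.map_apply hγ.measurable isClosed_sphere.measurableSet.compl]
    have : (fun θ => Γ (expi θ)) ⁻¹' (sphere (0 : Cn n) 1)ᶜ = ∅ := by
      ext θ
      simp [hΓ.2.2.1 _ (norm_expi θ)]
    rw [this, measure_empty]
  have hm0 : ENNReal.ofReal m ≠ 0 := by
    rw [Ne, ENNReal.ofReal_eq_zero, not_le]; exact hm
  have hP : IsProbabilityMeasure (curveM Γ Φ) := by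
    constructor
    rw [hcm, Measure.smul_apply, hν', Measure.map_apply hγ.measurable MeasurableSet.univ,
      Set.preimage_univ, hμ0u, smul_eq_mul, ENNReal.inv_mul_cancel hm0 ENNReal.ofReal_ne_top]
  have hS : (curveM Γ Φ) (sphere (0 : Cn n) 1)ᶜ = 0 := by
    rw [hcm, Measure.smul_apply, hν'S, smul_zero]
  have hform : ∀ {W : Type} [NormedAddCommGroup W] [NormedSpace ℝ W] (F : Cn n → W),
      ContinuousOn F (sphere 0 1) → ∫ ζ, F ζ ∂(curveM Γ Φ) =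
        m⁻¹ • ∫ θ in (0 : ℝ)..2 * Real.pi, (Φ (expi θ)).re • F (Γ (expi θ)) := by
    intro W _ _ F hF
    have h1 : Integrable F ν' := integrable_sphere hν'S hF
    rw [hcm, integral_smul_measure, hν', integral_map hγ.aemeasurable (by
      rw [← hν']; exact h1.aestronglyMeasurable), hμ0,
      integral_withDensity_eq_integral_toReal_smul hq.measurable.ennreal_ofReal
        (Filter.Eventually.of_forall fun _ => ENNReal.ofReal_lt_top),
      intervalIntegral.integral_of_le Real.two_pi_pos.le, ENNReal.toReal_inv,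
      ENNReal.toReal_ofReal hm.le]
    congr 1
    refine integral_congr_ae (Filter.Eventually.of_forall fun θ => ?_)
    simp only [ENNReal.toReal_ofReal (hq0 θ)]
  refine ⟨hm, ⟨hP, hS, ?_⟩, fun F hF => ?_⟩
  · obtain ⟨ρ, C, hρ0, hρ1, hb⟩ := contour_bound hΓ hΦ
    refine ⟨ρ, m⁻¹ * C, hρ0, hρ1, fun v R' hR' hv _ _ M hM => ?_⟩
    have h1 : ContinuousOn (fun ζ => ip (v ζ) ζ) (sphere (0 : Cn n) 1) :=
      continuous_ip (hv.continuousOn.mono fun z hz => by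
        rw [mem_sphere_zero_iff_norm] at hz
        rw [mem_ball_zero_iff, hz]; exact hR') continuousOn_id
    have h2 := hform _ h1
    change ‖∫ ζ, ip (v ζ) ζ ∂(curveM Γ Φ)‖ ≤ m⁻¹ * C * M
    rw [h2, norm_smul, Real.norm_of_nonneg (inv_nonneg.2 hm.le), mul_assoc]
    refine mul_le_mul_of_nonneg_left ?_ (inv_nonneg.2 hm.le)
    have h3 := hb v R' hR' hv M hM
    refine le_trans (le_of_eq ?_) h3
    congr 1
    refine intervalIntegral.integral_congr fun θ _ => ?_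
    change (Φ (expi θ)).re • ip (v (Γ (expi θ))) (Γ (expi θ)) = _
    rw [Complex.real_smul, hqr]
  · rw [hform F hF, smul_eq_mul]
    congr 1
    refine intervalIntegral.integral_congr fun θ _ => ?_
    simp only [smul_eq_mul]
    ring

/-- **Curve criterion.** -/
theorem support_of_curve {A : Cn n →L[ℂ] Cn n} (hA : ∀ z : Cn n, z ≠ 0 → 0 < (ip (A z) z).re)
    {h : Cn n → Cn n} (hh : h ∈ NA A) {R : ℝ} {Γ : ℂ → Cn n} {Φ : ℂ → ℂ} (hΓ : IsCurve R Γ)
    (hΦ : IsDensity R Φ)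
    (hv : ∀ ε : ℝ, 0 < ε → ∃ᶠ r : ℝ in 𝓝[<] 1, ∫ θ in (0 : ℝ)..2 * Real.pi,
      (ip (h ((r : ℂ) • Γ (expi θ))) (Γ (expi θ))).re * (Φ (expi θ)).re < ε) :
    IsSupport A h := by
  obtain ⟨hm, hT, hF⟩ := curve_test hΓ hΦ
  refine support_of_test hA hh hT (vanishes_of_freq hT hh fun ε hε => ?_)
  have h1 := hv ((∫ θ in (0 : ℝ)..2 * Real.pi, (Φ (expi θ)).re) * ε) (mul_pos hm hε)
  refine (h1.and_eventually (Ioo_mem_nhdsLT (show (0 : ℝ) < 1 by norm_num))).mono ?_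
  rintro r ⟨h2, hr⟩
  have hcont : ContinuousOn (fun ζ : Cn n => h ((r : ℂ) • ζ)) (sphere 0 1) := by
    refine hh.1.continuousOn.comp (continuous_const_smul _).continuousOn fun z hz => ?_
    rw [mem_sphere_zero_iff_norm] at hz
    rw [mem_ball_zero_iff, norm_smul, Complex.norm_real, Real.norm_of_nonneg hr.1.le, hz, mul_one]
    exact hr.2
  have h3 := hF (fun ζ => (ip (h ((r : ℂ) • ζ)) ζ).re) (Complex.continuous_re.comp_continuousOn
      (continuous_ip hcont continuousOn_id))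
  rw [h3, inv_mul_lt_iff₀ hm]
  exact h2

end Pool.Agent.P1ae5m
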