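import Pool.Agent.Lib.P1ae5m.DSum

/-!
Direct sums are not extreme points.
-/

open Metric MeasureTheory Filter Topology

namespace Pool.Agent.P1ae5m

open Pool.Agent.P1ae5 (Cn ip NA IsSupport IsExtreme IsFunctional exists_lower herm
  not_support_of_minorant)
open Pool.Agent.P1ae5.NotSuppAux (perturb)

lemma real_aux {t x α S N : ℝ} (ht0 : 0 ≤ t) (ht1 : t < 1) (hx : 0 < x) (hα : 0 < α)
    (h2 : N ≤ t ^ 2 * S) (h3 : S - N = 4 * x * α) (h4 : (x + α) ^ 2 ≤ S) :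
    α * (1 - t) ≤ x * (1 + t) := by
  by_contra hcon
  push Not at hcon
  have h6 : 0 ≤ 1 - t ^ 2 := by nlinarith
  have h5 : (x + α) ^ 2 * (1 - t ^ 2) ≤ 4 * x * α := by
    have h7 : (x + α) ^ 2 * (1 - t ^ 2) ≤ S * (1 - t ^ 2) := mul_le_mul_of_nonneg_right h4 h6
    nlinarith
  have h8 : (x * (1 + t) - α * (1 - t)) * (x * (1 - t) - α * (1 + t)) ≤ 0 := by nlinarith
  have h9 : x * (1 + t) - α * (1 - t) < 0 := by linarith
  have h10 : x * (1 - t) - α * (1 + t) < 0 := by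
    have : 0 ≤ t * (x + α) := mul_nonneg ht0 (by linarith)
    nlinarith
  have h11 := mul_pos_of_neg_of_neg h9 h10
  linarith

/-- Harnack inequality on the disc -/
lemma harnack {φ : ℂ → ℂ} (hφ : DifferentiableOn ℂ φ (ball 0 1))
    (hpos : ∀ l ∈ ball (0 : ℂ) 1, 0 < (φ l).re) {l : ℂ} (hl : l ∈ ball (0 : ℂ) 1) :
    (φ 0).re * (1 - ‖l‖) ≤ (φ l).re * (1 + ‖l‖) := by
  obtain ⟨a, ha⟩ : ∃ a, a = φ 0 := ⟨_, rfl⟩
  have ha0 : 0 < a.re := by rw [ha]; exact hpos 0 (mem_ball_self one_pos)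
  have hden : ∀ m ∈ ball (0 : ℂ) 1, φ m + (starRingEnd ℂ) a ≠ 0 := by
    intro m hm h
    have h1 := congrArg Complex.re h
    rw [Complex.add_re, Complex.conj_re, Complex.zero_re] at h1
    linarith [hpos m hm]
  have hid : ∀ w : ℂ, Complex.normSq (w + (starRingEnd ℂ) a) - Complex.normSq (w - a) =
      4 * w.re * a.re := by
    intro w
    simp only [Complex.normSq_apply, Complex.add_re, Complex.add_im, Complex.sub_re,
      Complex.sub_im, Complex.conj_re, Complex.conj_im]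
    ring
  set ψ : ℂ → ℂ := fun m => (φ m - a) / (φ m + (starRingEnd ℂ) a) with hψ
  have hψd : DifferentiableOn ℂ ψ (ball 0 1) :=
    (hφ.fun_sub (differentiableOn_const _)).fun_div (hφ.fun_add (differentiableOn_const _)) hden
  have hψm : Set.MapsTo ψ (ball 0 1) (ball 0 1) := by
    intro m hm
    rw [mem_ball_zero_iff, hψ]
    simp only []
    rw [norm_div, div_lt_one (norm_pos_iff.2 (hden m hm)),
      ← sq_lt_sq₀ (norm_nonneg _) (norm_nonneg _), ← Complex.normSq_eq_norm_sq,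
      ← Complex.normSq_eq_norm_sq]
    have h1 := hid (φ m)
    have h2 : 0 < 4 * (φ m).re * a.re := mul_pos (mul_pos (by norm_num) (hpos m hm)) ha0
    linarith
  have hψ0 : ψ 0 = 0 := by
    rw [hψ]
    simp only [← ha, sub_self, zero_div]
  have h1 : ‖ψ l‖ ≤ ‖l‖ := by
    have := Complex.norm_le_norm_of_mapsTo_ball hψd (hψm.mono_right ball_subset_closedBall) hψ0
      (by simpa using hl)
    exact this
  rw [hψ] at h1
  simp only [] at h1
  rw [norm_div, div_le_iff₀ (norm_pos_iff.2 (hden l hl))] at h1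
  have h2 : ‖φ l - a‖ ^ 2 ≤ (‖l‖ * ‖φ l + (starRingEnd ℂ) a‖) ^ 2 := by gcongr
  rw [mul_pow, ← Complex.normSq_eq_norm_sq, ← Complex.normSq_eq_norm_sq (φ l + _)] at h2
  have h3 := hid (φ l)
  have h4 : ((φ l).re + a.re) ^ 2 ≤ Complex.normSq (φ l + (starRingEnd ℂ) a) := by
    rw [Complex.normSq_apply, Complex.add_re, Complex.conj_re]
    nlinarith [sq_nonneg (φ l + (starRingEnd ℂ) a).im]
  have hl1 : ‖l‖ < 1 := by simpa using hl
  have hl0 : 0 ≤ ‖l‖ := norm_nonneg l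
  have hx := hpos l hl
  rw [← ha]
  exact real_aux hl0 hl1 hx ha0 h2 h3 h4

/-- lower bound for members of the family -/
lemma lower {m : ℕ} {D : Cn m →L[ℂ] Cn m} {g : Cn m → Cn m} (hg : g ∈ NA D)
    (hD : ∀ z : Cn m, z ≠ 0 → 0 < (ip (D z) z).re) {c : ℝ}
    (hc : ∀ z : Cn m, c * ‖z‖ ^ 2 ≤ (ip (D z) z).re) (hc0 : 0 < c) {x : Cn m}
    (hx : x ∈ ball (0 : Cn m) 1) :
    c / 4 * (‖x‖ ^ 2 * (1 - ‖x‖ ^ 2)) ≤ (ip (g x) x).re := by
  rcases eq_or_ne x 0 with rfl | hx0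
  · simp [ip]
  have hρ : 0 < ‖x‖ := norm_pos_iff.2 hx0
  have hx1 : ‖x‖ < 1 := by simpa using hx
  set ρ : ℝ := ‖x‖ with hρd
  set ζ : Cn m := ((ρ⁻¹ : ℝ) : ℂ) • x with hζ
  have hζ1 : ‖ζ‖ = 1 := by
    rw [hζ, norm_smul, Complex.norm_real, Real.norm_of_nonneg (by positivity), ← hρd]
    field_simp
  have hζ0 : ζ ≠ 0 := by
    intro h
    rw [h, norm_zero] at hζ1
    exact zero_ne_one hζ1
  have hxζ : x = (ρ : ℂ) • ζ := by
    rw [hζ, smul_smul, ← Complex.ofReal_mul, mul_inv_cancel₀ hρ.ne', Complex.ofReal_one, one_smul]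
  set F : ℂ → ℂ := fun l => ip (g (l • ζ)) ζ with hF
  have hmaps : ∀ l ∈ ball (0 : ℂ) 1, l • ζ ∈ ball (0 : Cn m) 1 := by
    intro l hl
    rw [mem_ball_zero_iff] at hl ⊢
    rw [norm_smul, hζ1, mul_one]; exact hl
  have hFd : DifferentiableOn ℂ F (ball 0 1) := by
    have h1 : DifferentiableOn ℂ (fun l : ℂ => g (l • ζ)) (ball 0 1) :=
      hg.1.comp (differentiable_id.smul_const ζ).differentiableOn hmaps
    have h2 : F = fun l => innerSL ℂ ζ (g (l • ζ)) := rfl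
    rw [h2]
    exact (innerSL ℂ ζ).differentiable.comp_differentiableOn h1
  have hF0 : F 0 = 0 := by simp [hF, hg.2.1, ip]
  have hds : DifferentiableOn ℂ (dslope F 0) (ball 0 1) :=
    (Complex.differentiableOn_dslope (ball_mem_nhds 0 one_pos)).2 hFd
  have hval : ∀ l : ℂ, l ≠ 0 → dslope F 0 l = F l / l := by
    intro l hl
    rw [dslope_of_ne _ hl, slope_def_field, hF0, sub_zero, sub_zero]
  have hval0 : dslope F 0 0 = ip (D ζ) ζ := by
    rw [dslope_same]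
    have h1 : HasFDerivAt g D ((0 : ℂ) • ζ) := by
      rw [zero_smul]
      have := (hg.1.differentiableAt (ball_mem_nhds 0 one_pos)).hasFDerivAt
      rwa [hg.2.2.1] at this
    have h2 : HasDerivAt (fun l : ℂ => l • ζ) ζ 0 := by
      simpa using (hasDerivAt_id (0 : ℂ)).smul_const ζ
    have h3 := h1.comp_hasDerivAt (0 : ℂ) h2
    have h4 := (innerSL ℂ ζ).hasFDerivAt.comp_hasDerivAt (0 : ℂ) h3
    exact h4.deriv
  have hpos : ∀ l ∈ ball (0 : ℂ) 1, 0 < (dslope F 0 l).re := by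
    intro l hl
    rcases eq_or_ne l 0 with rfl | hl0
    · rw [hval0]; exact hD ζ hζ0
    · rw [hval l hl0]
      have h1 := hg.2.2.2 _ (hmaps l hl) (smul_ne_zero hl0 hζ0)
      rw [ip_smul_right] at h1
      have h2 : (F l / l).re = ((starRingEnd ℂ) l * ip (g (l • ζ)) ζ).re / ‖l‖ ^ 2 := by
        have h3 : F l / l = (((‖l‖ ^ 2)⁻¹ : ℝ) : ℂ) * ((starRingEnd ℂ) l * ip (g (l • ζ)) ζ) := by
          have h4 : l * (starRingEnd ℂ) l = ((‖l‖ ^ 2 : ℝ) : ℂ) := by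
            rw [Complex.mul_conj, Complex.normSq_eq_norm_sq]
          have h5 : ((‖l‖ ^ 2 : ℝ) : ℂ) ≠ 0 := by
            have := norm_pos_iff.2 hl0
            exact_mod_cast (by positivity : (‖l‖ ^ 2 : ℝ) ≠ 0)
          rw [Complex.ofReal_inv, div_eq_iff hl0]
          have h6 : (((‖l‖ ^ 2 : ℝ) : ℂ))⁻¹ * ((starRingEnd ℂ) l * ip (g (l • ζ)) ζ) * l =
              (((‖l‖ ^ 2 : ℝ) : ℂ))⁻¹ * (l * (starRingEnd ℂ) l) * ip (g (l • ζ)) ζ := by ring
          rw [h6, h4, inv_mul_cancel₀ h5, one_mul]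
        rw [h3, Complex.re_ofReal_mul]
        field_simp
      rw [h2]
      have := norm_pos_iff.2 hl0
      positivity
  have hρb : (ρ : ℂ) ∈ ball (0 : ℂ) 1 := by
    rw [mem_ball_zero_iff, Complex.norm_real, Real.norm_of_nonneg hρ.le]; exact hx1
  have h3 := harnack hds hpos hρb
  have hρc : (ρ : ℂ) ≠ 0 := by exact_mod_cast hρ.ne'
  rw [hval0, hval _ hρc, Complex.norm_real, Real.norm_of_nonneg hρ.le] at h3
  have h4 : (ip (g x) x).re = ρ ^ 2 * (F ρ / ρ).re := by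
    rw [← Complex.re_ofReal_mul]
    congr 1
    have : ip (g x) x = ip (g ((ρ : ℂ) • ζ)) ((ρ : ℂ) • ζ) := by rw [← hxζ]
    rw [this, ip_smul_right, Complex.conj_ofReal]
    have h9 : ip (g ((ρ : ℂ) • ζ)) ζ = F ρ := rfl
    rw [h9]
    push_cast
    field_simp
  rw [h4]
  have h5 := hc ζ
  rw [hζ1, one_pow, mul_one] at h5
  obtain ⟨y, hy⟩ : ∃ y, y = (F ρ / ρ).re := ⟨_, rfl⟩
  rw [← hy] at h3 ⊢
  have h6 : c * (1 - ρ) ≤ y * (1 + ρ) := le_trans
    (mul_le_mul_of_nonneg_right h5 (by linarith)) h3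
  have h7 : c / 4 * (1 - ρ ^ 2) ≤ y := by
    have h8 : c * (1 - ρ ^ 2) ≤ y * (1 + ρ) ^ 2 := by nlinarith
    have hy0 : 0 ≤ y := by
      have : 0 ≤ c * (1 - ρ) := mul_nonneg hc0.le (by linarith)
      nlinarith
    have h9 : y * (1 + ρ) ^ 2 ≤ y * 4 := by
      apply mul_le_mul_of_nonneg_left _ hy0
      nlinarith
    linarith
  calc c / 4 * (ρ ^ 2 * (1 - ρ ^ 2)) = ρ ^ 2 * (c / 4 * (1 - ρ ^ 2)) := by ring
    _ ≤ ρ ^ 2 * y := by gcongr

variable {n r : ℕ} {d : Fin r → ℕ} {ι : ∀ j, Cn (d j) →ₗᵢ[ℂ] Cn n}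

theorem dsum_not_extreme (hι : IsDec ι) {A : Cn n →L[ℂ] Cn n}
    (hA : ∀ z : Cn n, z ≠ 0 → 0 < (ip (A z) z).re) {D : ∀ j, Cn (d j) →L[ℂ] Cn (d j)}
    (hD : ∀ j x, Pool.Agent.P1ae5.St.hp A (ι j x) = ι j (D j x))
    {h : ∀ j, Cn (d j) → Cn (d j)} (hh : ∀ j, h j ∈ NA (D j)) {i j : Fin r} (hij : i ≠ j)
    (hi : 1 ≤ d i) (hj : 1 ≤ d j) : ¬ IsExtreme A (dsum A ι h) := by
  rintro ⟨hm, hext⟩
  obtain ⟨c, hc0, hc⟩ := exists_lower (D_pos hA hD i)
  -- unit vectors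
  set a : Cn (d i) := EuclideanSpace.single ⟨0, hi⟩ 1 with ha
  set b : Cn (d j) := EuclideanSpace.single ⟨0, hj⟩ 1 with hb
  have ha1 : ‖a‖ = 1 := by simp [ha]
  have hb1 : ‖b‖ = 1 := by simp [hb]
  set e : Cn n := ι i a with he
  set f : Cn n := ι j b with hf
  have he1 : ‖e‖ = 1 := by rw [he, (ι i).norm_map, ha1]
  have hf1 : ‖f‖ = 1 := by rw [hf, (ι j).norm_map, hb1]
  have hef : ip e f = 0 := by
    rw [he, ip_iota, hf, pr_ne hι hij]
    simp [ip]
  have hfe : ip f e = 0 := by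
    rw [hf, ip_iota, he, pr_ne hι hij.symm]
    simp [ip]
  have hip_e : ∀ z : Cn n, ‖ip z e‖ ≤ ‖pr (ι i) z‖ := by
    intro z
    rw [he, ip_iota']
    refine (norm_ip_le _ _).trans ?_
    rw [ha1, mul_one]
  have hip_f : ∀ z : Cn n, ‖ip z f‖ ≤ ‖pr (ι j) z‖ := by
    intro z
    rw [hf, ip_iota']
    refine (norm_ip_le _ _).trans ?_
    rw [hb1, mul_one]
  have hconj : ∀ z : Cn n, ‖ip e z‖ = ‖ip z e‖ := by
    intro z
    unfold ip
    exact norm_inner_symm _ _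
  have hdi : ∀ u : Cn n, HasFDerivAt (fun z : Cn n => ip z u) (innerSL ℂ u) 0 := fun u =>
    (innerSL ℂ u).hasFDerivAt
  have hdd : ∀ u : Cn n, Differentiable ℂ (fun z : Cn n => ip z u) := fun u =>
    (innerSL ℂ u).differentiable
  set v : Cn n → Cn n := fun z => (ip z e * (ip z f * ip z f)) • e with hv
  have hvd : DifferentiableOn ℂ v (ball 0 1) :=
    (((hdd e).fun_mul ((hdd f).fun_mul (hdd f))).smul_const e).differentiableOn
  have hv0 : v 0 = 0 := by simp [hv, ip]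
  have hv1 : HasFDerivAt v (0 : Cn n →L[ℂ] Cn n) 0 := by
    have h1 := ((hdi e).fun_mul ((hdi f).fun_mul (hdi f))).smul_const e
    refine h1.congr_fderiv ?_
    ext z
    simp [ip]
  have hvn : ∀ z : Cn n, ‖ip (v z) z‖ ≤ ‖pr (ι i) z‖ ^ 2 * ‖pr (ι j) z‖ ^ 2 := by
    intro z
    rw [hv]
    simp only []
    rw [ip_smul, norm_mul, norm_mul, norm_mul, hconj]
    calc ‖ip z e‖ * (‖ip z f‖ * ‖ip z f‖) * ‖ip z e‖
        ≤ ‖pr (ι i) z‖ * (‖pr (ι j) z‖ * ‖pr (ι j) z‖) * ‖pr (ι i) z‖ := by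
          gcongr
          · exact hip_e z
          · exact hip_f z
          · exact hip_f z
          · exact hip_e z
      _ = _ := by ring
  have hlow : ∀ z ∈ ball (0 : Cn n) 1, c / 4 * (‖pr (ι i) z‖ ^ 2 * ‖pr (ι j) z‖ ^ 2) ≤
      (ip (dsum A ι h z) z).re := by
    intro z hz
    have hz1 : ‖z‖ < 1 := by simpa using hz
    rw [re_dsum]
    have hnn : ∀ k, 0 ≤ (ip (h k (pr (ι k) z)) (pr (ι k) z)).re := by
      intro k
      rcases eq_or_ne (pr (ι k) z) 0 with h0 | h0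
      · rw [h0]; simp [ip]
      · exact ((hh k).2.2.2 _ (pr_ball _ hz) h0).le
    have h1 := Finset.single_le_sum (f := fun k => (ip (h k (pr (ι k) z)) (pr (ι k) z)).re)
      (fun k _ => hnn k) (Finset.mem_univ i)
    refine le_trans ?_ h1
    refine le_trans ?_ (lower (hh i) (D_pos hA hD i) hc hc0 (pr_ball (ι i) hz))
    have h2 := sum_sq hι z
    rw [← Finset.add_sum_erase _ _ (Finset.mem_univ i)] at h2
    have h3 := Finset.single_le_sum (f := fun k => ‖pr (ι k) z‖ ^ 2)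
      (s := Finset.univ.erase i) (fun k _ => sq_nonneg _)
      (Finset.mem_erase.2 ⟨hij.symm, Finset.mem_univ j⟩)
    have h4 : ‖pr (ι j) z‖ ^ 2 ≤ 1 - ‖pr (ι i) z‖ ^ 2 := by
      have : ‖z‖ ^ 2 < 1 := by nlinarith [norm_nonneg z]
      linarith
    have hc4 : 0 ≤ c / 4 := by positivity
    gcongr
  have key : ∀ s : ℂ, ‖s‖ = c / 8 → dsum A ι h + s • v ∈ NA A := by
    intro s hs
    refine perturb hm (hvd.const_smul s) (by simp [hv0]) ?_ fun z hz hz0 => ?_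
    · have := hv1.const_smul s
      rw [smul_zero] at this
      exact this
    · rw [Pi.smul_apply, ip_smul]
      refine lt_of_le_of_lt (Complex.abs_re_le_norm _) ?_
      rw [norm_mul, hs]
      have h1 := hvn z
      have h2 := hlow z hz
      have h3 := hm.2.2.2 z hz hz0
      obtain ⟨X, hX⟩ : ∃ X, X = ‖pr (ι i) z‖ ^ 2 * ‖pr (ι j) z‖ ^ 2 := ⟨_, rfl⟩
      rw [← hX] at h1 h2
      have hX0 : 0 ≤ X := by rw [hX]; positivity
      have h4 : c / 8 * ‖ip (v z) z‖ ≤ c / 8 * X := by gcongr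
      rcases hX0.eq_or_lt with h5 | h5
      · rw [← h5, mul_zero] at h4
        linarith
      · have : c / 8 * X < c / 4 * X := by
          apply mul_lt_mul_of_pos_right _ h5
          linarith
        linarith
  have hc8 : ‖((c / 8 : ℝ) : ℂ)‖ = c / 8 := by
    rw [Complex.norm_real, Real.norm_of_nonneg (by positivity)]
  have k1 := key ((c / 8 : ℝ) : ℂ) hc8
  have k2 := key (-((c / 8 : ℝ) : ℂ)) (by rw [norm_neg, hc8])
  have hex := hext _ k1 _ k2 (1 / 2) (by norm_num) (by norm_num) (fun z hz => by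
      rw [Pi.add_apply, Pi.add_apply, Pi.smul_apply, Pi.smul_apply]
      push_cast
      module)
  -- a point where `v` does not vanish
  set z0 : Cn n := (1 / 4 : ℂ) • (e + f) with hz0
  have hz0b : z0 ∈ ball (0 : Cn n) 1 := by
    rw [mem_ball_zero_iff, hz0, norm_smul]
    have h1 : ‖e + f‖ ≤ 2 := by
      have := norm_add_le e f
      rw [he1, hf1] at this
      linarith
    have h2 : ‖(1 / 4 : ℂ)‖ = 1 / 4 := by simp
    rw [h2]
    linarith
  have h1 := (hex z0 hz0b).1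
  rw [Pi.add_apply, Pi.smul_apply] at h1
  have h2 : ((c / 8 : ℝ) : ℂ) • v z0 = 0 := by
    have := congrArg (fun w => w - dsum A ι h z0) h1
    simpa using this
  have hc8' : ((c / 8 : ℝ) : ℂ) ≠ 0 := by exact_mod_cast (by positivity : c / 8 ≠ 0)
  have h3 : v z0 = 0 := (smul_eq_zero.1 h2).resolve_left hc8'
  have e0 : e ≠ 0 := by
    intro h
    rw [h, norm_zero] at he1
    exact zero_ne_one he1
  have h4 : ip z0 e * (ip z0 f * ip z0 f) = 0 := (smul_eq_zero.1 h3).resolve_right e0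
  have h5 : ip z0 e = 1 / 4 := by
    rw [hz0, ip_smul, ip_add, hfe, ip_self, he1]
    simp
  have h6 : ip z0 f = 1 / 4 := by
    rw [hz0, ip_smul, ip_add, hef, ip_self, hf1]
    simp
  rw [h5, h6] at h4
  norm_num at h4

end Pool.Agent.P1ae5m
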