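import Pool.Agent.Lib.P1ae5m.Forth

/-!
Direct sums.
-/

open Metric MeasureTheory Filter Topology

namespace Pool.Agent.P1ae5m

open Pool.Agent.P1ae5 (Cn ip NA IsSupport IsExtreme IsFunctional exists_lower herm
  not_support_of_minorant)

section

variable {m n : ℕ} (ι : Cn m →ₗᵢ[ℂ] Cn n)

lemma ip_iota (x : Cn m) (z : Cn n) : ip (ι x) z = ip x (pr ι z) := by
  unfold ip pr
  rw [ContinuousLinearMap.adjoint_inner_left]
  rfl

lemma ip_iota' (x : Cn m) (z : Cn n) : ip z (ι x) = ip (pr ι z) x := by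
  unfold ip pr
  rw [ContinuousLinearMap.adjoint_inner_right]
  rfl

lemma ip_ext {x y : Cn m} (h : ∀ w, ip w x = ip w y) : x = y := by
  have : x - y = 0 := by
    rw [← inner_self_eq_zero (𝕜 := ℂ), inner_sub_left]
    have h1 := h (x - y)
    unfold ip at h1
    rw [h1, sub_self]
  exact sub_eq_zero.1 this

lemma pr_iota (x : Cn m) : pr ι (ι x) = x := by
  refine ip_ext fun w => ?_
  rw [← ip_iota]
  unfold ip
  exact ι.inner_map_map x w

lemma norm_pr_le (z : Cn n) : ‖pr ι z‖ ≤ ‖z‖ := by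
  have h1 : ‖pr ι z‖ ^ 2 ≤ ‖pr ι z‖ * ‖z‖ := by
    have h2 : ip (pr ι z) (pr ι z) = ip (ι (pr ι z)) z := (ip_iota ι _ _).symm
    rw [ip_self] at h2
    have h3 : ‖ip (ι (pr ι z)) z‖ ≤ ‖ι (pr ι z)‖ * ‖z‖ := norm_ip_le _ _
    rw [← h2, Complex.norm_real, Real.norm_of_nonneg (sq_nonneg _), ι.norm_map] at h3
    exact h3
  rcases (norm_nonneg (pr ι z)).eq_or_lt with h4 | h4
  · rw [← h4]; exact norm_nonneg _
  · rw [sq] at h1
    exact le_of_mul_le_mul_left h1 h4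

lemma pr_ball {z : Cn n} (hz : z ∈ ball (0 : Cn n) 1) : pr ι z ∈ ball (0 : Cn m) 1 := by
  rw [mem_ball_zero_iff] at hz ⊢
  exact lt_of_le_of_lt (norm_pr_le ι z) hz

end

variable {n r : ℕ} {d : Fin r → ℕ} {ι : ∀ j, Cn (d j) →ₗᵢ[ℂ] Cn n}

lemma sum_sq (hι : IsDec ι) (z : Cn n) : ‖z‖ ^ 2 = ∑ j, ‖pr (ι j) z‖ ^ 2 := by
  have h1 : ip z z = ∑ j, ip (pr (ι j) z) (pr (ι j) z) := by
    conv_lhs => rw [← hι z]
    have h2 : ∀ w : Cn n, ip (∑ j, ι j (pr (ι j) z)) w = ∑ j, ip (ι j (pr (ι j) z)) w := by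
      intro w
      unfold ip
      rw [inner_sum]
    rw [h2]
    refine Finset.sum_congr rfl fun j _ => ?_
    rw [ip_iota, hι z]
  rw [ip_self] at h1
  simp only [ip_self] at h1
  exact_mod_cast h1

lemma pr_ne (hι : IsDec ι) {i j : Fin r} (hij : i ≠ j) (x : Cn (d j)) : pr (ι i) (ι j x) = 0 := by
  have h1 := sum_sq hι (ι j x)
  rw [(ι j).norm_map, ← Finset.add_sum_erase _ _ (Finset.mem_univ j), pr_iota] at h1
  have h2 : ∑ k ∈ Finset.univ.erase j, ‖pr (ι k) (ι j x)‖ ^ 2 = 0 := by linarith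
  have h3 := (Finset.sum_eq_zero_iff_of_nonneg (fun k _ => sq_nonneg _)).1 h2 i
    (Finset.mem_erase.2 ⟨hij, Finset.mem_univ i⟩)
  have h4 : ‖pr (ι i) (ι j x)‖ = 0 := by
    exact pow_eq_zero_iff (two_ne_zero) |>.1 h3
  exact norm_eq_zero.1 h4

lemma skew (A : Cn n →L[ℂ] Cn n) (z : Cn n) :
    (ip (A z - Pool.Agent.P1ae5.St.hp A z) z).re = 0 := by
  have h1 : A z - Pool.Agent.P1ae5.St.hp A z =
      (1 / 2 : ℂ) • (A z - ContinuousLinearMap.adjoint A z) := by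
    unfold Pool.Agent.P1ae5.St.hp
    module
  rw [h1, ip_smul, ip_sub]
  have h2 : ip (ContinuousLinearMap.adjoint A z) z = (starRingEnd ℂ) (ip (A z) z) := by
    unfold ip
    rw [ContinuousLinearMap.adjoint_inner_right, inner_conj_symm]
  rw [h2, Complex.sub_conj]
  simp

lemma re_dsum (A : Cn n →L[ℂ] Cn n) (ι : ∀ j, Cn (d j) →ₗᵢ[ℂ] Cn n)
    (h : ∀ j, Cn (d j) → Cn (d j)) (z : Cn n) :
    (ip (dsum A ι h z) z).re = ∑ j, (ip (h j (pr (ι j) z)) (pr (ι j) z)).re := by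
  unfold dsum
  rw [ip_add, Complex.add_re, skew, add_zero]
  have h2 : ∀ w : Cn n, ip (∑ j, ι j (h j (pr (ι j) z))) w =
      ∑ j, ip (ι j (h j (pr (ι j) z))) w := by
    intro w
    unfold ip
    rw [inner_sum]
  rw [h2, Complex.re_sum]
  refine Finset.sum_congr rfl fun j _ => ?_
  rw [ip_iota]

lemma hp_lin (A : Cn n →L[ℂ] Cn n) (z : Cn n) : Pool.Agent.P1ae5.St.hp A z = herm A z := rfl

lemma hp_sum (hι : IsDec ι) {A : Cn n →L[ℂ] Cn n} {D : ∀ j, Cn (d j) →L[ℂ] Cn (d j)}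
    (hD : ∀ j x, Pool.Agent.P1ae5.St.hp A (ι j x) = ι j (D j x)) (z : Cn n) :
    ∑ j, ι j (D j (pr (ι j) z)) = Pool.Agent.P1ae5.St.hp A z := by
  conv_rhs => rw [← hι z]
  rw [hp_lin, map_sum]
  refine Finset.sum_congr rfl fun j _ => ?_
  rw [← hp_lin, hD]

lemma herm_re (A : Cn n →L[ℂ] Cn n) (z : Cn n) :
    (ip (Pool.Agent.P1ae5.St.hp A z) z).re = (ip (A z) z).re := by
  have h1 := skew A z
  rw [ip_sub, Complex.sub_re] at h1
  linarith

lemma D_pos {A : Cn n →L[ℂ] Cn n} (hA : ∀ z : Cn n, z ≠ 0 → 0 < (ip (A z) z).re)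
    {D : ∀ j, Cn (d j) →L[ℂ] Cn (d j)}
    (hD : ∀ j x, Pool.Agent.P1ae5.St.hp A (ι j x) = ι j (D j x)) (j : Fin r) (x : Cn (d j))
    (hx : x ≠ 0) : 0 < (ip (D j x) x).re := by
  have h1 : ι j x ≠ 0 := by
    intro h
    have := (ι j).norm_map x
    rw [h, norm_zero] at this
    exact hx (norm_eq_zero.1 this.symm)
  have h2 := hA _ h1
  rw [← herm_re, hD, ip_iota, pr_iota] at h2
  exact h2

lemma piece_diff {m : ℕ} (κ : Cn m →ₗᵢ[ℂ] Cn n) {f : Cn m → Cn m}
    (hf : DifferentiableOn ℂ f (ball 0 1)) :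
    DifferentiableOn ℂ (fun z : Cn n => κ (f (pr κ z))) (ball 0 1) := by
  have h1 : DifferentiableOn ℂ (fun z : Cn n => f (pr κ z)) (ball 0 1) :=
    hf.comp (pr κ).differentiable.differentiableOn fun z hz => pr_ball κ hz
  exact (κ.toContinuousLinearMap.differentiable).comp_differentiableOn h1

theorem dsum_mem (hι : IsDec ι) {A : Cn n →L[ℂ] Cn n}
    {D : ∀ j, Cn (d j) →L[ℂ] Cn (d j)}
    (hD : ∀ j x, Pool.Agent.P1ae5.St.hp A (ι j x) = ι j (D j x))
    {h : ∀ j, Cn (d j) → Cn (d j)} (hh : ∀ j, h j ∈ NA (D j)) : dsum A ι h ∈ NA A := by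
  refine ⟨?_, ?_, ?_, fun z hz hz0 => ?_⟩
  · unfold dsum
    refine DifferentiableOn.fun_add (DifferentiableOn.fun_sum fun j _ => piece_diff (ι j) (hh j).1) ?_
    exact A.differentiable.differentiableOn.fun_sub (herm A).differentiable.differentiableOn
  · unfold dsum
    simp only [map_zero]
    rw [hp_lin, map_zero, sub_zero, add_zero]
    refine Finset.sum_eq_zero fun j _ => ?_
    rw [(hh j).2.1, map_zero]
  · have h1 : ∀ j, HasFDerivAt (fun z : Cn n => ι j (h j (pr (ι j) z)))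
        (((ι j).toContinuousLinearMap.comp (D j)).comp (pr (ι j))) 0 := by
      intro j
      have e1 : HasFDerivAt (h j) (D j) (pr (ι j) 0) := by
        rw [map_zero]
        have := ((hh j).1.differentiableAt (ball_mem_nhds 0 one_pos)).hasFDerivAt
        rwa [(hh j).2.2.1] at this
      have e2 := e1.comp (0 : Cn n) (pr (ι j)).hasFDerivAt
      exact ((ι j).toContinuousLinearMap.hasFDerivAt).comp (0 : Cn n) e2
    have h2 := (HasFDerivAt.fun_sum (u := Finset.univ) fun j _ => h1 j).fun_add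
      (A.hasFDerivAt.fun_sub (herm A).hasFDerivAt)
    have h3 : (∑ j, ((ι j).toContinuousLinearMap.comp (D j)).comp (pr (ι j))) + (A - herm A) = A := by
      refine ContinuousLinearMap.ext fun z => ?_
      have h4 := hp_sum hι hD z
      simp only [add_apply, sub_apply, ContinuousLinearMap.sum_apply,
        ContinuousLinearMap.comp_apply, LinearIsometry.coe_toContinuousLinearMap]
      rw [h4, hp_lin]
      abel
    rw [h3] at h2
    exact h2.fderiv
  · rw [re_dsum]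
    have hnn : ∀ j, 0 ≤ (ip (h j (pr (ι j) z)) (pr (ι j) z)).re := by
      intro j
      rcases eq_or_ne (pr (ι j) z) 0 with h0 | h0
      · rw [h0]; simp [ip]
      · exact ((hh j).2.2.2 _ (pr_ball _ hz) h0).le
    obtain ⟨j, hj⟩ : ∃ j, pr (ι j) z ≠ 0 := by
      by_contra hcon
      push Not at hcon
      apply hz0
      rw [← hι z]
      exact Finset.sum_eq_zero fun j _ => by rw [hcon j, map_zero]
    exact Finset.sum_pos' (fun j _ => hnn j) ⟨j, Finset.mem_univ j, (hh j).2.2.2 _ (pr_ball _ hz) hj⟩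

end Pool.Agent.P1ae5m
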