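import Pool.Agent.Lib.P1ae5m.DSum

/-!
Support points among direct sums.
-/

open Metric MeasureTheory Filter Topology

namespace Pool.Agent.P1ae5m

open Pool.Agent.P1ae5 (Cn ip NA IsSupport IsExtreme IsFunctional exists_lower herm
  not_support_of_minorant)

lemma int_sphere_aux {n : ℕ} {ν : Measure (Cn n)} [IsFiniteMeasure ν]
    (hS : ν (sphere (0 : Cn n) 1)ᶜ = 0) {g : Cn n → Cn n}
    (hg : DifferentiableOn ℂ g (ball 0 1)) {r : ℝ} (h0 : 0 < r) (h1 : r < 1) :
    AEStronglyMeasurable (fun ζ => (ip (g ((r : ℂ) • ζ)) ζ).re) ν := by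
  have hcont : ContinuousOn (fun ζ : Cn n => g ((r : ℂ) • ζ)) (sphere 0 1) := by
    refine hg.continuousOn.comp (continuous_const_smul _).continuousOn fun z hz => ?_
    rw [mem_sphere_zero_iff_norm] at hz
    rw [mem_ball_zero_iff, norm_smul, Complex.norm_real, Real.norm_of_nonneg h0.le, hz, mul_one]
    exact h1
  exact (integrable_sphere hS (Complex.continuous_re.comp_continuousOn
      (continuous_ip hcont continuousOn_id))).aestronglyMeasurable

/-- images of test measures under isometric embeddings -/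
lemma test_map {m n : ℕ} (κ : Cn m →ₗᵢ[ℂ] Cn n) {ν : Measure (Cn m)} (hν : IsTestB ν) :
    IsTestB (ν.map κ) := by
  obtain ⟨hP, hS, ρ, C, hρ0, hρ1, hT⟩ := hν
  have hκ : Measurable κ := κ.continuous.measurable
  have hP' : IsProbabilityMeasure (ν.map κ) := Measure.isProbabilityMeasure_map hκ.aemeasurable
  have hS' : (ν.map κ) (sphere (0 : Cn n) 1)ᶜ = 0 := by
    rw [Measure.map_apply hκ isClosed_sphere.measurableSet.compl]
    have : κ ⁻¹' (sphere (0 : Cn n) 1)ᶜ = (sphere (0 : Cn m) 1)ᶜ := by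
      ext x
      simp
    rw [this, hS]
  refine ⟨hP', hS', ρ, C, hρ0, hρ1, fun v R hR hv hv0 hv1 M hM => ?_⟩
  have hmapR : ∀ x ∈ ball (0 : Cn m) R, κ x ∈ ball (0 : Cn n) R := by
    intro x hx
    rw [mem_ball_zero_iff] at hx ⊢
    rwa [κ.norm_map]
  have hd1 : DifferentiableOn ℂ (fun x : Cn m => v (κ x)) (ball 0 R) :=
    hv.comp κ.toContinuousLinearMap.differentiable.differentiableOn hmapR
  have hd : DifferentiableOn ℂ (fun x : Cn m => pr κ (v (κ x))) (ball 0 R) :=
    (pr κ).differentiable.comp_differentiableOn hd1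
  have hfd : fderiv ℂ (fun x : Cn m => pr κ (v (κ x))) 0 = 0 := by
    have e0 : DifferentiableAt ℂ v 0 := (hv 0 (mem_ball_self (by linarith))).differentiableAt
      (ball_mem_nhds 0 (by linarith))
    have e1 : HasFDerivAt v (0 : Cn n →L[ℂ] Cn n) (κ 0) := by
      rw [map_zero]
      have := e0.hasFDerivAt
      rwa [hv1] at this
    have e2 := e1.comp (0 : Cn m) κ.toContinuousLinearMap.hasFDerivAt
    have e3 := ((pr κ).hasFDerivAt).comp (0 : Cn m) e2
    rw [ContinuousLinearMap.zero_comp, ContinuousLinearMap.comp_zero] at e3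
    exact e3.fderiv
  have h1 := hT _ R hR hd (by simp [hv0]) hfd M (fun x hx =>
    (norm_pr_le κ _).trans (hM _ (by rwa [κ.norm_map])))
  have h2 : ∫ ζ, ip (v ζ) ζ ∂(ν.map κ) = ∫ x, ip (pr κ (v (κ x))) x ∂ν := by
    have h3 : ContinuousOn (fun ζ => ip (v ζ) ζ) (sphere (0 : Cn n) 1) :=
      continuous_ip (hv.continuousOn.mono fun z hz => by
        rw [mem_sphere_zero_iff_norm] at hz
        rw [mem_ball_zero_iff, hz]; exact hR) continuousOn_id
    rw [integral_map hκ.aemeasurable (integrable_sphere hS' h3).aestronglyMeasurable]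
    refine integral_congr_ae (Filter.Eventually.of_forall fun x => ?_)
    simp only []
    rw [ip_iota']
  change ‖∫ ζ, ip (v ζ) ζ ∂(ν.map κ)‖ ≤ C * M
  rw [h2]
  exact h1

variable {n r : ℕ} {d : Fin r → ℕ} {ι : ∀ j, Cn (d j) →ₗᵢ[ℂ] Cn n}

/-- values on the images of the embeddings -/
lemma dsum_iota (hι : IsDec ι) (A : Cn n →L[ℂ] Cn n) {D : ∀ j, Cn (d j) →L[ℂ] Cn (d j)}
    {h : ∀ j, Cn (d j) → Cn (d j)} (hh : ∀ j, h j ∈ NA (D j)) (j : Fin r) (x : Cn (d j)) :
    dsum A ι h (ι j x) = ι j (h j x) + (A (ι j x) - Pool.Agent.P1ae5.St.hp A (ι j x)) := by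
  unfold dsum
  congr 1
  rw [← Finset.add_sum_erase _ _ (Finset.mem_univ j), pr_iota]
  have : ∑ i ∈ Finset.univ.erase j, ι i (h i (pr (ι i) (ι j x))) = 0 := by
    refine Finset.sum_eq_zero fun i hi => ?_
    rw [pr_ne hι (Finset.ne_of_mem_erase hi), (hh i).2.1, map_zero]
  rw [this, add_zero]

theorem support_of_component (hι : IsDec ι) {A : Cn n →L[ℂ] Cn n}
    (hA : ∀ z : Cn n, z ≠ 0 → 0 < (ip (A z) z).re) {D : ∀ j, Cn (d j) →L[ℂ] Cn (d j)}
    (hD : ∀ j x, Pool.Agent.P1ae5.St.hp A (ι j x) = ι j (D j x))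
    {h : ∀ j, Cn (d j) → Cn (d j)} (hh : ∀ j, h j ∈ NA (D j)) {j : Fin r}
    (hs : IsSupport (D j) (h j)) : IsSupport A (dsum A ι h) := by
  obtain ⟨ν, hν, hv⟩ := exists_test (D_pos hA hD j) hs
  have hT := test_map (ι j) hν
  refine support_of_test hA (dsum_mem hι hD hh) hT ?_
  obtain ⟨hP', hS', -⟩ := hT
  refine Tendsto.congr' ?_ hv
  filter_upwards [Ioo_mem_nhdsLT (show (0 : ℝ) < 1 by norm_num)] with s hs
  have hint := int_sphere_aux hS' (dsum_mem hι hD hh).1 hs.1 hs.2
  change ∫ x, (ip (h j ((s : ℂ) • x)) x).re ∂ν =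
    ∫ ζ, (ip (dsum A ι h ((s : ℂ) • ζ)) ζ).re ∂(ν.map (ι j))
  rw [integral_map (ι j).continuous.measurable.aemeasurable hint]
  refine integral_congr_ae (Filter.Eventually.of_forall fun x => ?_)
  simp only []
  have e1 : (s : ℂ) • ι j x = ι j ((s : ℂ) • x) := by rw [map_smul]
  rw [e1, dsum_iota hι A hh, ip_add, Complex.add_re, ip_iota, pr_iota, ← e1]
  have e2 : (ip (A ((s : ℂ) • ι j x) - Pool.Agent.P1ae5.St.hp A ((s : ℂ) • ι j x)) (ι j x)).re
      = 0 := by
    rw [hp_lin, map_smul, map_smul, ← smul_sub, ip_smul, Complex.re_ofReal_mul, ← hp_lin, skew,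
      mul_zero]
  rw [e2, add_zero]

/-- the functional on the component -/
lemma functional_comp {m : ℕ} (κ : Cn m →ₗᵢ[ℂ] Cn n) {Λ : (Cn n → Cn n) → ℂ}
    (hΛ : IsFunctional Λ) : IsFunctional (fun g : Cn m → Cn m => Λ (fun z => κ (g (pr κ z)))) := by
  obtain ⟨hadd, hsm, K, hKb, hKc, C, hC⟩ := hΛ
  refine ⟨fun f g hf hg => ?_, fun c f hf => ?_, pr κ '' K, ?_, hKc.image (pr κ).continuous, C,
    fun f hf M hM0 hM => ?_⟩
  · have h1 := hadd _ _ (piece_diff κ hf) (piece_diff κ hg)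
    refine Eq.trans (congrArg Λ ?_) h1
    funext z
    simp only [Pi.add_apply, map_add]
  · have h1 := hsm c _ (piece_diff κ hf)
    refine Eq.trans (congrArg Λ ?_) h1
    funext z
    simp only [Pi.smul_apply, map_smul]
  · rintro _ ⟨z, hz, rfl⟩
    exact pr_ball κ (hKb hz)
  · refine hC _ (piece_diff κ hf) M hM0 fun z hz => ?_
    rw [κ.norm_map]
    exact hM _ ⟨z, hz, rfl⟩

lemma func_zero {Λ : (Cn n → Cn n) → ℂ} (hΛ : IsFunctional Λ) : Λ (fun _ => 0) = 0 := by
  have h1 := hΛ.2.1 0 (0 : Cn n → Cn n) (differentiableOn_const _)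
  rw [zero_smul, zero_mul] at h1
  exact h1

lemma func_sum {Λ : (Cn n → Cn n) → ℂ} (hΛ : IsFunctional Λ) {τ : Type*} (s : Finset τ)
    (f : τ → Cn n → Cn n) (hf : ∀ i, DifferentiableOn ℂ (f i) (ball 0 1)) :
    Λ (fun z => ∑ i ∈ s, f i z) = ∑ i ∈ s, Λ (f i) := by
  classical
  induction s using Finset.induction_on with
  | empty => simpa using func_zero hΛ
  | insert a s ha ih =>
    rw [Finset.sum_insert ha, ← ih]
    have h1 := hΛ.1 (f a) (fun z => ∑ i ∈ s, f i z) (hf a) (DifferentiableOn.fun_sum fun i _ => hf i)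
    rw [← h1]
    congr 1
    funext z
    rw [Finset.sum_insert ha]
    rfl

/-- value of a functional on a direct sum -/
lemma func_dsum {Λ : (Cn n → Cn n) → ℂ} (hΛ : IsFunctional Λ) (A : Cn n →L[ℂ] Cn n)
    (ι : ∀ j, Cn (d j) →ₗᵢ[ℂ] Cn n)
    {h : ∀ j, Cn (d j) → Cn (d j)} (hh : ∀ j, DifferentiableOn ℂ (h j) (ball 0 1)) :
    Λ (dsum A ι h) = (∑ j, Λ (fun z => ι j (h j (pr (ι j) z)))) +
      Λ (fun z => A z - Pool.Agent.P1ae5.St.hp A z) := by
  rw [← func_sum hΛ Finset.univ (fun j z => ι j (h j (pr (ι j) z)))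
    (fun j => piece_diff (ι j) (hh j))]
  exact hΛ.1 (fun z => ∑ j, ι j (h j (pr (ι j) z))) (fun z => A z - herm A z)
    (DifferentiableOn.fun_sum fun j _ => piece_diff (ι j) (hh j))
    (A.differentiable.differentiableOn.fun_sub (herm A).differentiable.differentiableOn)

theorem component_of_support (hι : IsDec ι) {A : Cn n →L[ℂ] Cn n}
    (hA : ∀ z : Cn n, z ≠ 0 → 0 < (ip (A z) z).re) {D : ∀ j, Cn (d j) →L[ℂ] Cn (d j)}
    (hD : ∀ j x, Pool.Agent.P1ae5.St.hp A (ι j x) = ι j (D j x))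
    {h : ∀ j, Cn (d j) → Cn (d j)} (hh : ∀ j, h j ∈ NA (D j))
    (hs : IsSupport A (dsum A ι h)) : ∃ j, IsSupport (D j) (h j) := by
  classical
  by_contra hcon
  push Not at hcon
  obtain ⟨hm, Λ, hΛ, hne, hmax⟩ := hs
  have hgap := value_gap hA hΛ hne hmax
  have hDm : ∀ j, (fun x => D j x) ∈ NA (D j) := fun j => a_mem (D_pos hA hD j)
  -- the functional is constant in each component
  have hcomp : ∀ j, (Λ (fun z => ι j (D j (pr (ι j) z)))).re =
      (Λ (fun z => ι j (h j (pr (ι j) z)))).re := by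
    intro j
    by_contra hne'
    refine hcon j ⟨hh j, fun g => Λ (fun z => ι j (g (pr (ι j) z))), functional_comp (ι j) hΛ,
      ⟨fun x => D j x, hDm j, hne'⟩, fun g hg => ?_⟩
    have hup : ∀ i, Function.update h j g i ∈ NA (D i) := by
      intro i
      rcases eq_or_ne i j with rfl | hij
      · rw [Function.update_self]; exact hg
      · rw [Function.update_of_ne hij]; exact hh i
    have h1 := hmax _ (dsum_mem hι hD hup)
    rw [func_dsum hΛ A ι (fun j => (hup j).1), func_dsum hΛ A ι (fun j => (hh j).1),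
      Complex.add_re, Complex.add_re, Complex.re_sum, Complex.re_sum] at h1
    have h2 : ∑ i, (Λ (fun z => ι i (Function.update h j g i (pr (ι i) z)))).re ≤
        ∑ i, (Λ (fun z => ι i (h i (pr (ι i) z)))).re := by linarith
    rw [← Finset.add_sum_erase _ _ (Finset.mem_univ j),
      ← Finset.add_sum_erase _ (fun i => (Λ (fun z => ι i (h i (pr (ι i) z)))).re)
        (Finset.mem_univ j)] at h2
    have h3 : ∑ i ∈ Finset.univ.erase j,
        (Λ (fun z => ι i (Function.update h j g i (pr (ι i) z)))).re =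
        ∑ i ∈ Finset.univ.erase j, (Λ (fun z => ι i (h i (pr (ι i) z)))).re := by
      refine Finset.sum_congr rfl fun i hi => ?_
      rw [Function.update_of_ne (Finset.ne_of_mem_erase hi)]
    rw [h3, Function.update_self] at h2
    linarith
  have h1 : (Λ (dsum A ι h)).re = (Λ (fun z => A z)).re := by
    have h2 : (fun z => A z) = dsum A ι (fun j x => D j x) := by
      funext z
      unfold dsum
      rw [hp_sum hι hD]
      abel
    rw [h2, func_dsum hΛ A ι (fun j => (hh j).1), func_dsum hΛ A ι (fun j => (hDm j).1),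
      Complex.add_re, Complex.add_re, Complex.re_sum, Complex.re_sum]
    congr 1
    exact Finset.sum_congr rfl fun j _ => (hcomp j).symm
  exact hgap.ne' h1

end Pool.Agent.P1ae5m
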