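import Pool.Agent.Lib.P1ae5.StmtSupp

/-!
Definitions for the theorem on test measures and support points (MP_1ae5d5_an).
-/

open Metric MeasureTheory Filter Topology

namespace Pool.Agent.P1ae5m

open Pool.Agent.P1ae5.St

variable {E : Type} [NormedAddCommGroup E] [InnerProductSpace ℂ E]

/-- `∫ Re <h(rζ),ζ> dν(ζ) → 0` as `r → 1`, `r < 1` -/
def Vanishes [MeasurableSpace E] (ν : Measure E) (h : E → E) : Prop :=
  Tendsto (fun r : ℝ => ∫ ζ, (sp (h ((r : ℂ) • ζ)) ζ).re ∂ν) (𝓝[<] 1) (𝓝 0)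

/-- the finite measure `σ` on the unit sphere represents `Λ` on the maps `v` holomorphic near the
closed ball with `v(0) = 0`, `Dv(0) = 0`: `Λ(v) = - ∫ <v(ζ),ζ> dσ(ζ)` -/
def Reps [MeasurableSpace E] (σ : Measure E) (Λ : (E → E) → ℂ) : Prop :=
  IsFiniteMeasure σ ∧ σ (sphere (0 : E) 1)ᶜ = 0 ∧
    ∀ (v : E → E) (R : ℝ), 1 < R → DifferentiableOn ℂ v (ball 0 R) → v 0 = 0 →
      fderiv ℂ v 0 = 0 → Λ v = - ∫ ζ, sp (v ζ) ζ ∂σ

/-- qualitative form of test measures: nonzero finite measures on the unit sphere which represent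
some continuous linear functional on the maps vanishing to second order at `0` -/
def IsTest [MeasurableSpace E] (ν : Measure E) : Prop := ν ≠ 0 ∧ ∃ Λ, IsFunc Λ ∧ Reps ν Λ

/-- test measures: probability measures `ν` on the unit sphere for which there are `C` and
`0 ≤ q < 1` with `|∫ <v(ζ),ζ> dν(ζ)| ≤ C q^k sup_{‖z‖ ≤ 1} ‖v(z)‖` for every `k ≥ 2` and every
holomorphic map `v` which is homogeneous of degree `k` -/
def IsTestM [MeasurableSpace E] (ν : Measure E) : Prop :=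
  IsProbabilityMeasure ν ∧ ν (sphere (0 : E) 1)ᶜ = 0 ∧ ∃ C q : ℝ, 0 ≤ q ∧ q < 1 ∧
    ∀ (k : ℕ) (v : E → E) (m : ℝ), 2 ≤ k → Differentiable ℂ v →
      (∀ (l : ℂ) (z : E), v (l • z) = l ^ k • v z) → (∀ z, ‖z‖ ≤ 1 → ‖v z‖ ≤ m) →
        ‖∫ ζ, sp (v ζ) ζ ∂ν‖ ≤ C * q ^ k * m

/-- closed transverse curves on the unit sphere: `Γ` is holomorphic on the annulus
`1/R < |λ| < R`, `‖Γ‖ = 1` on the unit circle and `‖Γ‖ < 1` for `1/R < |λ| < 1` -/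
def IsCurve (R : ℝ) (Γ : ℂ → E) : Prop :=
  1 < R ∧ DifferentiableOn ℂ Γ {l : ℂ | R⁻¹ < ‖l‖ ∧ ‖l‖ < R} ∧ (∀ l : ℂ, ‖l‖ = 1 → ‖Γ l‖ = 1) ∧
    ∀ l : ℂ, R⁻¹ < ‖l‖ → ‖l‖ < 1 → ‖Γ l‖ < 1

/-- analytic densities: `Φ` is holomorphic on the annulus `1/R < |λ| < R`, real and nonnegative on
the unit circle, and not identically zero there -/
def IsDensity (R : ℝ) (Φ : ℂ → ℂ) : Prop :=
  DifferentiableOn ℂ Φ {l : ℂ | R⁻¹ < ‖l‖ ∧ ‖l‖ < R} ∧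
    (∀ l : ℂ, ‖l‖ = 1 → (Φ l).im = 0 ∧ 0 ≤ (Φ l).re) ∧ ∃ l : ℂ, ‖l‖ = 1 ∧ Φ l ≠ 0

/-- peak sets of the ball algebra: `f` is continuous on the closed ball, holomorphic on the ball,
`f = 1` on `K` and `|f| < 1` elsewhere on the closed ball; `K` is a subset of the sphere -/
def IsPeak (K : Set E) : Prop :=
  K ⊆ sphere 0 1 ∧ ∃ f : E → ℂ, ContinuousOn f (closedBall 0 1) ∧ DifferentiableOn ℂ f (ball 0 1) ∧
    (∀ z ∈ K, f z = 1) ∧ ∀ z ∈ closedBall (0 : E) 1, z ∉ K → ‖f z‖ < 1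

/-- the unit vectors `ζ` with `liminf Re <h(rζ),ζ> = 0` as `r → 1`, `r < 1` (for `h` in `N_A`) -/
def rzero (h : E → E) : Set E :=
  {ζ | ‖ζ‖ = 1 ∧ ∀ ε : ℝ, 0 < ε → ∃ᶠ r : ℝ in 𝓝[<] 1, (sp (h ((r : ℂ) • ζ)) ζ).re < ε}

/-- the circle action `z ↦ (λ^{w_1} z_1, ..., λ^{w_n} z_n)` -/
noncomputable def act {n : ℕ} (w : Fin n → ℕ) (l : ℂ) (z : EuclideanSpace ℂ (Fin n)) :
    EuclideanSpace ℂ (Fin n) :=
  WithLp.toLp 2 fun i => l ^ w i * z i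

variable {F : Type} [NormedAddCommGroup F] [InnerProductSpace ℂ F]

/-- the adjoint `ι^*` of a linear isometry `ι` -/
noncomputable def pr [CompleteSpace E] [CompleteSpace F] (ι : F →ₗᵢ[ℂ] E) : E →L[ℂ] F :=
  ContinuousLinearMap.adjoint ι.toContinuousLinearMap

/-- the compression `x ↦ ι^* h(ι x)` of a map -/
noncomputable def cmp [CompleteSpace E] [CompleteSpace F] (ι : F →ₗᵢ[ℂ] E) (h : E → E) (x : F) :
    F :=
  pr ι (h (ι x))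

/-- the compression `ι^* A ι` of a linear operator -/
noncomputable def cmpL [CompleteSpace E] [CompleteSpace F] (ι : F →ₗᵢ[ℂ] E) (A : E →L[ℂ] E) :
    F →L[ℂ] F :=
  (pr ι).comp (A.comp ι.toContinuousLinearMap)

/-- orthogonal decomposition of `E` into the images of the isometries `ι j`: `Σ ι_j ι_j^* = 1` -/
def IsDec [CompleteSpace E] {r : ℕ} {d : Fin r → ℕ}
    (ι : ∀ j, EuclideanSpace ℂ (Fin (d j)) →ₗᵢ[ℂ] E) : Prop :=
  ∀ z, ∑ j, ι j (pr (ι j) z) = z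

/-- the map `z ↦ Σ ι_j h_j(ι_j^* z) + (A - D) z` -/
noncomputable def dsum [CompleteSpace E] {r : ℕ} {d : Fin r → ℕ} (A : E →L[ℂ] E)
    (ι : ∀ j, EuclideanSpace ℂ (Fin (d j)) →ₗᵢ[ℂ] E)
    (h : ∀ j, EuclideanSpace ℂ (Fin (d j)) → EuclideanSpace ℂ (Fin (d j))) (z : E) : E :=
  ∑ j, ι j (h j (pr (ι j) z)) + (A z - hp A z)

/-- the function `p(λ) = ∫ (1 + e^{iθ} λ)/(1 - e^{iθ} λ) dμ(θ)` -/
noncomputable def herg (μ : Measure ℝ) (l : ℂ) : ℂ :=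
  ∫ θ, (1 + expi θ * l) / (1 - expi θ * l) ∂μ

end Pool.Agent.P1ae5m
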