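import Pool.Agent.Lib.P1ae5m.DSupp
import Pool.Agent.Lib.P1ae5m.DExt
import Pool.Agent.Lib.P1ae5.SuppSlice2

/-!
Diagonal maps.
-/

open Metric MeasureTheory Filter Topology

namespace Pool.Agent.P1ae5m

open Pool.Agent.P1ae5 (Cn ip NA IsSupport IsExtreme IsFunctional exists_lower herm
  not_support_of_minorant rotAvg rot cis rotAvg_mem not_support_of_infinite rotAvg_support)
open Pool.Agent.P1ae5.St (expi IsFinSupp)

/-- one dimensional block -/
noncomputable def g1 (c : ℝ) (μ : Measure ℝ) (x : Cn 1) : Cn 1 := ((c : ℂ) * herg μ (x 0)) • x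

noncomputable def H1 (c : ℝ) (x : Cn 1) : Cn 1 := ((c : ℂ) * ((1 + x 0) / (1 - x 0))) • x

noncomputable def D1 (c : ℝ) : Cn 1 →L[ℂ] Cn 1 := (c : ℂ) • ContinuousLinearMap.id ℂ (Cn 1)

lemma norm_cn1 (x : Cn 1) : ‖x‖ = ‖x 0‖ := by
  rw [EuclideanSpace.norm_eq]
  simp

lemma re_cayley {w : ℂ} (hw : ‖w‖ < 1) : 0 < ((1 + w) / (1 - w)).re := by
  have h1 : (1 : ℂ) - w ≠ 0 := by
    intro h
    have : w = 1 := (sub_eq_zero.1 h).symm
    rw [this, norm_one] at hw
    exact lt_irrefl _ hw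
  rw [Complex.div_re]
  have h2 : 0 < Complex.normSq (1 - w) := Complex.normSq_pos.2 h1
  have h3 : ‖w‖ ^ 2 < 1 := by nlinarith [norm_nonneg w]
  rw [← Complex.normSq_eq_norm_sq, Complex.normSq_apply] at h3
  rw [← add_div]
  apply div_pos _ h2
  simp only [Complex.add_re, Complex.sub_re, Complex.one_re, Complex.add_im, Complex.sub_im,
    Complex.one_im]
  nlinarith

lemma den1 {x : Cn 1} (hx : x ∈ ball (0 : Cn 1) 1) : (1 : ℂ) - x 0 ≠ 0 := by
  rw [mem_ball_zero_iff, norm_cn1] at hx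
  intro h
  have : x 0 = 1 := (sub_eq_zero.1 h).symm
  rw [this, norm_one] at hx
  exact lt_irrefl _ hx

lemma H1_mem {c : ℝ} (hc : 0 < c) : H1 c ∈ NA (D1 c) := by
  have hp : Differentiable ℂ fun x : Cn 1 => x 0 :=
    (EuclideanSpace.proj 0 : Cn 1 →L[ℂ] ℂ).differentiable
  have hφ : DifferentiableOn ℂ (fun x : Cn 1 => (c : ℂ) * ((1 + x 0) * (1 - x 0)⁻¹))
      (ball 0 1) := by
    refine (differentiableOn_const _).fun_mul ?_
    refine ((differentiable_const _).fun_add hp).differentiableOn.fun_mul ?_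
    exact ((differentiable_const _).fun_sub hp).differentiableOn.fun_inv fun x hx => den1 hx
  have hφ' : DifferentiableOn ℂ (fun x : Cn 1 => (c : ℂ) * ((1 + x 0) / (1 - x 0)))
      (ball 0 1) := hφ.congr fun x _ => by rw [div_eq_mul_inv]
  refine ⟨hφ'.fun_smul differentiableOn_id, by simp [H1], ?_, fun z hz hz0 => ?_⟩
  · have h1 : HasFDerivAt (fun x : Cn 1 => (c : ℂ) * ((1 + x 0) / (1 - x 0))) _ 0 :=
      (hφ'.differentiableAt (ball_mem_nhds 0 one_pos)).hasFDerivAt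
    have h2 := h1.fun_smul (hasFDerivAt_id (0 : Cn 1))
    have h3 : HasFDerivAt (H1 c) (D1 c) 0 := by
      refine h2.congr_fderiv ?_
      refine ContinuousLinearMap.ext fun x => ?_
      simp [D1]
    exact h3.fderiv
  · have h1 : ‖z 0‖ < 1 := by
      rw [mem_ball_zero_iff, norm_cn1] at hz; exact hz
    unfold H1
    rw [ip_smul, ip_self, mul_comm ((c : ℂ) * _) _, Complex.re_ofReal_mul, Complex.re_ofReal_mul]
    have h2 : 0 < ‖z‖ := norm_pos_iff.2 hz0
    have h3 := re_cayley h1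
    positivity

lemma rotAvg_H1 (c : ℝ) (μ : Measure ℝ) : rotAvg μ (H1 c) = g1 c μ := by
  funext x
  unfold rotAvg g1 herg
  have h1 : ∀ θ : ℝ, rot (cis θ) (H1 c) x =
      ((c : ℂ) * ((1 + expi θ * x 0) / (1 - expi θ * x 0))) • x := by
    intro θ
    have h0 : cis θ ≠ 0 := Complex.exp_ne_zero _
    unfold rot H1
    have h2 : (cis θ • x) 0 = expi θ * x 0 := rfl
    rw [h2, smul_comm _ (cis θ) x, smul_smul, inv_mul_cancel₀ h0, one_smul]
  simp only [h1]
  rw [integral_smul_const, integral_const_mul]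

lemma D1_pos {c : ℝ} (hc : 0 < c) (z : Cn 1) (hz : z ≠ 0) : 0 < (ip (D1 c z) z).re := by
  have h1 : D1 c z = (c : ℂ) • z := rfl
  rw [h1, ip_smul, ip_self, Complex.re_ofReal_mul]
  have h2 : 0 < ‖z‖ := norm_pos_iff.2 hz
  rw [Complex.ofReal_re]
  positivity

theorem g1_mem {c : ℝ} (hc : 0 < c) (μ : Measure ℝ) [IsProbabilityMeasure μ] :
    g1 c μ ∈ NA (D1 c) := by
  rw [← rotAvg_H1]
  exact rotAvg_mem (H1_mem hc) μ

theorem g1_support {c : ℝ} (hc : 0 < c) (μ : Measure ℝ) [IsProbabilityMeasure μ] :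
    IsSupport (D1 c) (g1 c μ) ↔ IsFinSupp μ := by
  rw [← rotAvg_H1]
  constructor
  · intro h
    by_contra hno
    exact not_support_of_infinite (D1_pos hc) (H1_mem hc) μ hno h
  · rintro ⟨S, hS, hae⟩
    set u : Cn 1 := EuclideanSpace.single 0 1 with hu
    have hu1 : ‖u‖ = 1 := by simp [hu]
    have hu0 : u 0 = 1 := by simp [hu]
    refine rotAvg_support (D1_pos hc) (H1_mem hc) hu1 (N := 1) (fun _ => c) (fun _ => hc.le)
      (fun _ => 1) (fun _ => by simp) 0 ?_ μ hS hae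
    intro l hl hl0
    unfold H1
    have h1 : (l • u) 0 = l := by
      rw [PiLp.smul_apply, hu0, smul_eq_mul, mul_one]
    rw [h1, ip_smul, ip_smul, ip_self, hu1]
    simp only [Finset.univ_unique, Finset.sum_singleton, one_mul]
    push_cast
    field_simp
    ring

variable {n : ℕ}

/-- the embedding of the `j`-th coordinate axis -/
noncomputable def axis (e : OrthonormalBasis (Fin n) ℂ (Cn n)) (j : Fin n) : Cn 1 →ₗᵢ[ℂ] Cn n where
  toLinearMap := (LinearMap.toSpanSingleton ℂ (Cn n) (e j)).comp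
    ((EuclideanSpace.proj 0 : Cn 1 →L[ℂ] ℂ) : Cn 1 →ₗ[ℂ] ℂ)
  norm_map' x := by
    change ‖x 0 • e j‖ = ‖x‖
    rw [norm_smul, e.norm_eq_one, mul_one, norm_cn1]

lemma axis_apply (e : OrthonormalBasis (Fin n) ℂ (Cn n)) (j : Fin n) (x : Cn 1) :
    axis e j x = x 0 • e j := rfl

lemma pr_axis (e : OrthonormalBasis (Fin n) ℂ (Cn n)) (j : Fin n) (z : Cn n) :
    pr (axis e j) z 0 = ip z (e j) := by
  have h1 := ip_iota' (axis e j) (EuclideanSpace.single 0 1 : Cn 1) z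
  rw [axis_apply] at h1
  have h2 : (EuclideanSpace.single 0 1 : Cn 1) 0 = 1 := by simp
  rw [h2, one_smul] at h1
  rw [h1]
  unfold ip
  rw [PiLp.inner_apply]
  simp

lemma isDec_axis (e : OrthonormalBasis (Fin n) ℂ (Cn n)) : IsDec (axis e) := by
  intro z
  have h1 := e.sum_repr' z
  conv_rhs => rw [← h1]
  refine Finset.sum_congr rfl fun j _ => ?_
  rw [axis_apply, pr_axis]
  rfl

lemma dsum_axis (A : Cn n →L[ℂ] Cn n) (e : OrthonormalBasis (Fin n) ℂ (Cn n)) (c : Fin n → ℝ)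
    (μ : Fin n → Measure ℝ) : dsum A (axis e) (fun j => g1 (c j) (μ j)) = fun z =>
      ∑ j, ((c j : ℂ) * herg (μ j) (ip z (e j)) * ip z (e j)) • e j +
        (A z - Pool.Agent.P1ae5.St.hp A z) := by
  funext z
  unfold dsum
  congr 1
  refine Finset.sum_congr rfl fun j _ => ?_
  rw [axis_apply]
  have h1 : g1 (c j) (μ j) (pr (axis e j) z) 0 =
      (c j : ℂ) * herg (μ j) (ip z (e j)) * ip z (e j) := by
    unfold g1
    rw [PiLp.smul_apply, smul_eq_mul, pr_axis]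
  rw [h1]

/-- **Diagonal maps.** -/
theorem diag_thm {A : Cn n →L[ℂ] Cn n} (hA : ∀ z : Cn n, z ≠ 0 → 0 < (ip (A z) z).re)
    (e : OrthonormalBasis (Fin n) ℂ (Cn n)) (c : Fin n → ℝ)
    (hc : ∀ j, Pool.Agent.P1ae5.St.hp A (e j) = (c j : ℂ) • e j)
    (μ : Fin n → Measure ℝ) (hμ : ∀ j, IsProbabilityMeasure (μ j)) {h : Cn n → Cn n}
    (hh : h = fun z => ∑ j, ((c j : ℂ) * herg (μ j) (ip z (e j)) * ip z (e j)) • e j +
        (A z - Pool.Agent.P1ae5.St.hp A z)) :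
    h ∈ NA A ∧ (2 ≤ n → ¬ IsExtreme A h) ∧ (IsSupport A h ↔ ∃ j, IsFinSupp (μ j)) := by
  have hc0 : ∀ j, 0 < c j := by
    intro j
    have h0 : e j ≠ 0 := e.orthonormal.ne_zero j
    have h1 := hA _ h0
    rw [← herm_re, hc, ip_smul, ip_self, e.norm_eq_one, Complex.re_ofReal_mul] at h1
    simpa using h1
  have hD : ∀ j x, Pool.Agent.P1ae5.St.hp A (axis e j x) = axis e j (D1 (c j) x) := by
    intro j x
    rw [axis_apply, hp_lin, map_smul, ← hp_lin, hc, axis_apply]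
    have h1 : D1 (c j) x 0 = (c j : ℂ) * x 0 := rfl
    rw [h1, smul_smul, mul_comm]
  have hm : ∀ j, g1 (c j) (μ j) ∈ NA (D1 (c j)) := fun j => g1_mem (hc0 j) (μ j)
  have hι := isDec_axis e
  have hhd : h = dsum A (axis e) (fun j => g1 (c j) (μ j)) := by rw [hh, dsum_axis]
  rw [hhd]
  refine ⟨dsum_mem hι hD hm, fun hn => ?_, ⟨fun hs => ?_, ?_⟩⟩
  · exact dsum_not_extreme hι hA hD hm (i := ⟨0, by omega⟩) (j := ⟨1, by omega⟩)
      (by simp) le_rfl le_rfl
  · obtain ⟨j, hj⟩ := component_of_support hι hA hD hm hs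
    exact ⟨j, (g1_support (hc0 j) (μ j)).1 hj⟩
  · rintro ⟨j, hj⟩
    exact support_of_component hι hA hD hm ((g1_support (hc0 j) (μ j)).2 hj)

end Pool.Agent.P1ae5m
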