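import Pool.Agent.Lib.P1ae5m.Forth

/-!
Domination.
-/

open Metric MeasureTheory Filter Topology

namespace Pool.Agent.P1ae5m

open Pool.Agent.P1ae5 (Cn ip NA IsSupport IsExtreme IsFunctional exists_lower
  not_support_of_minorant)

variable {n : ℕ}

lemma int_h {ν : Measure (Cn n)} [IsProbabilityMeasure ν] (hS : ν (sphere (0 : Cn n) 1)ᶜ = 0)
    {g : Cn n → Cn n} (hg : DifferentiableOn ℂ g (ball 0 1)) {r : ℝ} (h0 : 0 < r) (h1 : r < 1) :
    Integrable (fun ζ => (ip (g ((r : ℂ) • ζ)) ζ).re) ν := by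
  have hcont : ContinuousOn (fun ζ : Cn n => g ((r : ℂ) • ζ)) (sphere 0 1) := by
    refine hg.continuousOn.comp (continuous_const_smul _).continuousOn fun z hz => ?_
    rw [mem_sphere_zero_iff_norm] at hz
    rw [mem_ball_zero_iff, norm_smul, Complex.norm_real, Real.norm_of_nonneg h0.le, hz, mul_one]
    exact h1
  exact integrable_sphere hS (Complex.continuous_re.comp_continuousOn
      (continuous_ip hcont continuousOn_id))

/-- **Domination**: if `h` is a support point and `Re <g z,z> ≤ C Re <h z,z>` near the sphere,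
then `g` is a support point. -/
theorem support_of_dom {A B : Cn n →L[ℂ] Cn n} (hA : ∀ z : Cn n, z ≠ 0 → 0 < (ip (A z) z).re)
    (hB : ∀ z : Cn n, z ≠ 0 → 0 < (ip (B z) z).re) {h g : Cn n → Cn n}
    (hs : IsSupport A h) (hg : g ∈ NA B) {r₀ C : ℝ} (hr₀ : r₀ < 1)
    (hdom : ∀ z : Cn n, r₀ < ‖z‖ → ‖z‖ < 1 → (ip (g z) z).re ≤ C * (ip (h z) z).re) :
    IsSupport B g := by
  obtain ⟨ν, hν, hv⟩ := exists_test hA hs
  refine support_of_test hB hg hν ?_
  obtain ⟨hP, hS, -⟩ := hν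
  have h1 : Tendsto (fun r : ℝ => C * ∫ ζ, (ip (h ((r : ℂ) • ζ)) ζ).re ∂ν) (𝓝[<] 1) (𝓝 0) := by
    have := hv.const_mul C
    rwa [mul_zero] at this
  have hm : max r₀ 0 < 1 := max_lt hr₀ one_pos
  refine squeeze_zero' ?_ ?_ h1
  · filter_upwards [Ioo_mem_nhdsLT hm] with r hr
    have hr0 : 0 < r := lt_of_le_of_lt (le_max_right _ _) hr.1
    exact integral_nonneg_of_ae (ae_nonneg' hS hg hr0 hr.2)
  · filter_upwards [Ioo_mem_nhdsLT hm] with r hr
    have hr0 : 0 < r := lt_of_le_of_lt (le_max_right _ _) hr.1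
    have hr1 : r₀ < r := lt_of_le_of_lt (le_max_left _ _) hr.1
    change ∫ ζ, (ip (g ((r : ℂ) • ζ)) ζ).re ∂ν ≤ _
    rw [← integral_const_mul]
    refine integral_mono_ae (int_h hS hg.1 hr0 hr.2) ((int_h hS hs.1.1 hr0 hr.2).const_mul C) ?_
    filter_upwards [ae_sphere hS] with ζ hζ
    have hn : ‖(r : ℂ) • ζ‖ = r := by
      rw [norm_smul, Complex.norm_real, Real.norm_of_nonneg hr0.le, hζ, mul_one]
    have h2 := hdom ((r : ℂ) • ζ) (by rw [hn]; exact hr1) (by rw [hn]; exact hr.2)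
    rw [ip_smul_right, ip_smul_right, Complex.conj_ofReal, Complex.re_ofReal_mul,
      Complex.re_ofReal_mul] at h2
    have h3 : r * (ip (g ((r : ℂ) • ζ)) ζ).re ≤ r * (C * (ip (h ((r : ℂ) • ζ)) ζ).re) := by
      linarith
    exact le_of_mul_le_mul_left h3 hr0

end Pool.Agent.P1ae5m
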