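import Pool.Agent.Lib.P1ae5m.Forth

/-!
Duality for linear extremal problems on `N_A`.
-/

open Metric MeasureTheory Filter Topology

namespace Pool.Agent.P1ae5m

open Pool.Agent.P1ae5 (Cn ip NA IsSupport IsExtreme IsFunctional exists_lower
  not_support_of_minorant)

variable {n : ℕ}

lemma ae_nonneg_fin {σ : Measure (Cn n)} (hS : σ (sphere (0 : Cn n) 1)ᶜ = 0)
    {A : Cn n →L[ℂ] Cn n} {g : Cn n → Cn n} (hg : g ∈ NA A) {r : ℝ} (h0 : 0 < r) (h1 : r < 1) :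
    0 ≤ ∫ ζ, (ip (g ((r : ℂ) • ζ)) ζ).re ∂σ :=
  integral_nonneg_of_ae (ae_nonneg' hS hg h0 h1)

/-- values of a represented functional -/
lemma rep_value {A : Cn n →L[ℂ] Cn n} {Λ : (Cn n → Cn n) → ℂ} (hΛ : IsFunctional Λ)
    {σ : Measure (Cn n)} (hσ : Reps σ Λ) {g : Cn n → Cn n} (hg : g ∈ NA A) :
    Tendsto (fun r : ℝ => ∫ ζ, (ip (g ((r : ℂ) • ζ)) ζ).re ∂σ) (𝓝[<] 1)
      (𝓝 (aInt σ A - ((Λ g).re - (Λ (fun z => A z)).re))) := by
  obtain ⟨hF, hS, hrep⟩ := hσ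
  have h1 := (Complex.continuous_re.tendsto _).comp (func_dil hg hΛ)
  rw [Complex.sub_re] at h1
  have h2 : Tendsto (fun r : ℝ => r * aInt σ A) (𝓝[<] 1) (𝓝 (1 * aInt σ A)) :=
    (tendsto_id.mono_left nhdsWithin_le_nhds).mul_const _
  rw [one_mul] at h2
  refine (h2.sub h1).congr' ?_
  filter_upwards [Ioo_mem_nhdsLT (show (0 : ℝ) < 1 by norm_num)] with r hr
  have h3 := re_JJ (ν := σ) hS hg hr.1 hr.2
  have ht := tan_sec hg.1 hr.1 hr.2
  have h4 : Λ (fun z => sec g ((r : ℂ) • z)) = - JJ σ g r :=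
    hrep _ _ ht.hR ht.diff ht.zero ht.hd.fderiv
  rw [Function.comp_apply, h4, Complex.neg_re, h3]
  ring

/-- **Duality.** -/
theorem duality {A : Cn n →L[ℂ] Cn n}
    (hA : ∀ z : Cn n, z ≠ 0 → 0 < (ip (A z) z).re) {h : Cn n → Cn n} (hh : h ∈ NA A)
    {Λ : (Cn n → Cn n) → ℂ} (hΛ : IsFunctional Λ) (hne : ∃ g ∈ NA A, (Λ g).re ≠ (Λ h).re) :
    (∀ g ∈ NA A, (Λ g).re ≤ (Λ h).re) ↔ ∃ σ : Measure (Cn n), Reps σ Λ ∧ Vanishes σ h := by
  constructor
  · intro hmax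
    obtain ⟨ν, κ, hνP, hνS, hκ0, hfull, hvan⟩ := exists_rep hA hh hΛ hne hmax
    have hκ' : (ENNReal.ofReal κ⁻¹).toReal = κ⁻¹ := ENNReal.toReal_ofReal (inv_nonneg.2 hκ0.le)
    refine ⟨ENNReal.ofReal κ⁻¹ • ν, ⟨?_, ?_, fun v R hR hv hv0 hv1 => ?_⟩, ?_⟩
    · constructor
      rw [Measure.smul_apply, smul_eq_mul]
      exact ENNReal.mul_lt_top ENNReal.ofReal_lt_top (measure_lt_top ν _)
    · rw [Measure.smul_apply, hνS, smul_zero]
    · have htan : Tan v R := ⟨hR, hv, hv0, by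
        have h1 : DifferentiableAt ℂ v 0 := (hv 0 (mem_ball_self (by linarith))).differentiableAt
          (ball_mem_nhds 0 (by linarith))
        have := h1.hasFDerivAt
        rwa [hv1] at this⟩
      have h1 := hfull v R htan
      have h2 : ∫ ζ, Pool.Agent.P1ae5.St.sp (v ζ) ζ ∂(ENNReal.ofReal κ⁻¹ • ν) =
          κ⁻¹ • ∫ ζ, ip (v ζ) ζ ∂ν := by
        rw [integral_smul_measure, hκ']
        rfl
      rw [h2, h1, Complex.real_smul]
      have hκc : (κ : ℂ) ≠ 0 := by exact_mod_cast hκ0.ne'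
      push_cast
      field_simp
    · have h1 := hvan.const_mul κ⁻¹
      rw [mul_zero] at h1
      refine h1.congr fun r => ?_
      rw [integral_smul_measure, hκ', smul_eq_mul]
  · rintro ⟨σ, hσ, hv⟩ g hg
    have h1 := tendsto_nhds_unique (rep_value hΛ hσ hh) hv
    have h2 : 0 ≤ aInt σ A - ((Λ g).re - (Λ (fun z => A z)).re) := by
      refine ge_of_tendsto (rep_value hΛ hσ hg) ?_
      filter_upwards [Ioo_mem_nhdsLT (show (0 : ℝ) < 1 by norm_num)] with r hr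
      exact ae_nonneg_fin hσ.2.1 hg hr.1 hr.2
    linarith

end Pool.Agent.P1ae5m
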