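import Pool.Agent.Lib.P1ae5m.Hom

/-!
The explicit form of the definition of test measures.
-/

open Metric MeasureTheory Filter Topology

namespace Pool.Agent.P1ae5m

open Pool.Agent.P1ae5 (Cn ip NA IsSupport cis)
open Pool.Agent.P1ae5.SuppAvgAux

variable {n : ℕ}

lemma fderiv_hom {v : Cn n → Cn n} {k : ℕ} (hk : 2 ≤ k) (hv : IsHom k v) :
    v 0 = 0 ∧ fderiv ℂ v 0 = 0 := by
  constructor
  · have := hv.2 0 0
    rwa [zero_smul, zero_pow (by omega), zero_smul] at this
  · ext1 z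
    have h3 : HasFDerivAt v (fderiv ℂ v ((0 : ℂ) • z)) ((0 : ℂ) • z) := (hv.1 _).hasFDerivAt
    have h4 : HasDerivAt (fun t : ℂ => t • z) z 0 := by
      simpa using (hasDerivAt_id (0 : ℂ)).smul_const z
    have h5 := h3.comp_hasDerivAt (0 : ℂ) h4
    rw [zero_smul] at h5
    have h6 : HasDerivAt (fun t : ℂ => t ^ k • v z) ((0 : ℂ) • v z) 0 := by
      have h7 := (hasDerivAt_pow k (0 : ℂ)).smul_const (v z)
      rw [zero_pow (by omega : k - 1 ≠ 0), mul_zero] at h7
      exact h7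
    have h8 : (v ∘ fun t : ℂ => t • z) = fun t : ℂ => t ^ k • v z := by
      funext t
      exact hv.2 t z
    rw [h8] at h5
    have h9 := h5.unique h6
    rw [h9]
    simp

theorem testM_of_testB {ν : Measure (Cn n)} (hν : IsTestB ν) : IsTestM ν := by
  obtain ⟨hP, hS, ρ, C, hρ0, hρ1, hT⟩ := hν
  refine ⟨hP, hS, C, ρ, hρ0.le, hρ1, fun k v m hk hd hh hm => ?_⟩
  obtain ⟨h0, h1⟩ := fderiv_hom hk ⟨hd, hh⟩
  have h2 := hT v 2 one_lt_two hd.differentiableOn h0 h1 (ρ ^ k * m) (fun z hz => by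
    have h3 : z = (ρ : ℂ) • ((ρ⁻¹ : ℝ) • z) := by
      rw [Complex.coe_smul, smul_smul, mul_inv_cancel₀ hρ0.ne', one_smul]
    rw [h3, hh, norm_smul, norm_pow, Complex.norm_real, Real.norm_of_nonneg hρ0.le]
    refine mul_le_mul_of_nonneg_left (hm _ ?_) (by positivity)
    rw [norm_smul, norm_inv, Real.norm_of_nonneg hρ0.le, inv_mul_le_iff₀ hρ0, mul_one]
    exact hz)
  rw [mul_assoc]
  exact h2

theorem testB_of_testM {ν : Measure (Cn n)} (hν : IsTestM ν) : IsTestB ν := by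
  obtain ⟨hP, hS, C, q, hq0, hq1, hE⟩ := hν
  set ρ : ℝ := (1 + q) / 2 with hρ
  have hρ0 : 0 < ρ := by rw [hρ]; linarith
  have hρ1 : ρ < 1 := by rw [hρ]; linarith
  have hqρ : q < ρ := by rw [hρ]; linarith
  have hqq : q / ρ < 1 := (div_lt_one hρ0).2 hqρ
  refine ⟨hP, hS, ρ, |C| * (1 - q / ρ)⁻¹, hρ0, hρ1, fun v R hR hv hv0 hv1 M hM => ?_⟩
  have hM0 : 0 ≤ M := (norm_nonneg _).trans (hM 0 (by rw [norm_zero]; exact hρ0.le))
  set r : ℝ := (1 + R) / 2 with hr
  have hr1 : 1 < r := by rw [hr]; linarith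
  have hrR : r < R := by rw [hr]; linarith
  have hr0 : 0 < r := by linarith
  set f : Cn n → Cn n := fun z => v ((r : ℂ) • z) with hf
  have hfd : DifferentiableOn ℂ f (ball 0 1) := by
    refine DifferentiableOn.comp (g := v) (f := fun z : Cn n => (r : ℂ) • z) (t := ball 0 R) hv
      (Differentiable.differentiableOn (by fun_prop)) ?_
    intro z hz
    rw [mem_ball_zero_iff] at hz ⊢
    rw [norm_smul, Complex.norm_real, Real.norm_of_nonneg hr0.le]
    have := mul_le_mul_of_nonneg_left hz.le hr0.le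
    linarith
  have hex : ∀ k, ∃ V : Cn n → Cn n, IsHom k V ∧ ∀ z ∈ ball (0 : Cn n) 1, V z = part k f z :=
    fun k => exists_hom (diff_part hfd k) fun z hz l hl => part_hom hfd k hz hl
  choose V hVh hVe using hex
  set W : ℕ → Cn n → Cn n := fun k z => V k ((r⁻¹ : ℂ) • z) with hW
  have hWh : ∀ k, IsHom k (W k) := by
    intro k
    refine ⟨(hVh k).1.comp (by fun_prop), fun l z => ?_⟩
    rw [hW]
    simp only
    rw [smul_comm, (hVh k).2]
  have hnr : ∀ z : Cn n, ‖(r⁻¹ : ℂ) • z‖ = ‖z‖ / r := by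
    intro z
    rw [norm_smul, norm_inv, Complex.norm_real, Real.norm_of_nonneg hr0.le]
    field_simp
  have hWe : ∀ k (z : Cn n), ‖z‖ < r → W k z = part k f ((r⁻¹ : ℂ) • z) := by
    intro k z hz
    refine hVe k _ ?_
    rw [mem_ball_zero_iff, hnr, div_lt_one hr0]
    exact hz
  have hfr : ∀ z : Cn n, f ((r⁻¹ : ℂ) • z) = v z := by
    intro z
    rw [hf]
    simp only
    rw [smul_smul, mul_inv_cancel₀ (by exact_mod_cast hr0.ne'), one_smul]
  have hsum : ∀ z : Cn n, ‖z‖ ≤ 1 → HasSum (fun k => W k z) (v z) := by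
    intro z hz
    have h1 := hasSum_part hfd (z := (r⁻¹ : ℂ) • z) (by
      rw [mem_ball_zero_iff, hnr, div_lt_one hr0]; linarith)
    rw [hfr] at h1
    have h2 : (fun k => W k z) = fun k => part k f ((r⁻¹ : ℂ) • z) :=
      funext fun k => hWe k z (by linarith)
    rw [h2]
    exact h1
  have hscale : ∀ (s : ℝ) (z : Cn n) (k : ℕ), 0 < s →
      W k z = ((s⁻¹ : ℝ) : ℂ) ^ k • W k ((s : ℂ) • z) := by
    intro s z k hs
    rw [(hWh k).2, smul_smul, ← mul_pow, ← Complex.ofReal_mul, inv_mul_cancel₀ hs.ne',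
      Complex.ofReal_one, one_pow, one_smul]
  -- bound by sup over ‖z‖ ≤ ρ
  have hb2 : ∀ (k : ℕ) (z : Cn n), ‖z‖ ≤ 1 → ‖W k z‖ ≤ ρ⁻¹ ^ k * M := by
    intro k z hz
    have hz2 : ‖(ρ : ℂ) • z‖ ≤ ρ := by
      rw [norm_smul, Complex.norm_real, Real.norm_of_nonneg hρ0.le]
      exact mul_le_of_le_one_right hρ0.le hz
    rw [hscale ρ z k hρ0, norm_smul, norm_pow, Complex.norm_real,
      Real.norm_of_nonneg (by positivity)]
    refine mul_le_mul_of_nonneg_left ?_ (by positivity)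
    rw [hWe k _ (by linarith)]
    refine norm_part_le fun θ => ?_
    rw [smul_comm, hfr]
    refine hM _ ?_
    rw [norm_smul, norm_cis, one_mul]
    exact hz2
  -- summable bound
  set r' : ℝ := (1 + r) / 2 with hr'
  have hr'1 : 1 < r' := by rw [hr']; linarith
  have hr'r : r' < r := by rw [hr']; linarith
  have hr'0 : 0 < r' := by linarith
  obtain ⟨B, hB0, hB⟩ := Pool.Agent.P1ae5.SuppAvgAux.exists_bound hfd (r := r' / r)
    ((div_lt_one hr0).2 hr'r)
  have hb1 : ∀ (k : ℕ) (z : Cn n), ‖z‖ ≤ 1 → ‖W k z‖ ≤ B * r'⁻¹ ^ k := by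
    intro k z hz
    have hz2 : ‖(r' : ℂ) • z‖ ≤ r' := by
      rw [norm_smul, Complex.norm_real, Real.norm_of_nonneg hr'0.le]
      exact mul_le_of_le_one_right hr'0.le hz
    rw [hscale r' z k hr'0, norm_smul, norm_pow, Complex.norm_real,
      Real.norm_of_nonneg (by positivity), mul_comm B]
    refine mul_le_mul_of_nonneg_left ?_ (by positivity)
    rw [hWe k _ (by linarith)]
    refine norm_part_le fun θ => hB _ ?_
    rw [mem_closedBall_zero_iff, norm_smul, norm_cis, one_mul, hnr]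
    gcongr
  -- the parts of degree 0 and 1 vanish
  have hr'inv : r'⁻¹ < 1 := inv_lt_one_of_one_lt₀ hr'1
  have hW0 : ∀ z : Cn n, ‖z‖ ≤ 1 → W 0 z = 0 := by
    intro z hz
    rw [hWe 0 z (by linarith), part_zero_eq hfd (by
      rw [mem_ball_zero_iff, hnr, div_lt_one hr0]; linarith), hf]
    simp only
    rw [smul_zero, hv0]
  have hW1 : ∀ z : Cn n, ‖z‖ ≤ 1 → W 1 z = 0 := by
    intro z hz
    rw [hWe 1 z (by linarith), part_one_eq hfd (by
      rw [mem_ball_zero_iff, hnr, div_lt_one hr0]; linarith)]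
    have h1 : HasFDerivAt v (fderiv ℂ v ((r : ℂ) • (0 : Cn n))) ((r : ℂ) • (0 : Cn n)) := by
      rw [smul_zero]
      exact ((hv 0 (mem_ball_self (by linarith))).differentiableAt
        (isOpen_ball.mem_nhds (mem_ball_self (by linarith)))).hasFDerivAt
    have h2 : HasFDerivAt (fun z : Cn n => (r : ℂ) • z)
        ((r : ℂ) • ContinuousLinearMap.id ℂ (Cn n)) 0 := (hasFDerivAt_id (0 : Cn n)).const_smul (r : ℂ)
    have h3 := h1.comp (0 : Cn n) h2
    rw [smul_zero, hv1] at h3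
    have h4 : fderiv ℂ f 0 = 0 := by
      rw [ContinuousLinearMap.zero_comp] at h3
      exact h3.fderiv
    rw [h4]
    simp
  have hae := ae_sphere hS
  have hmeas : ∀ k, AEStronglyMeasurable (fun ζ => ip (W k ζ) ζ) ν := fun k =>
    (integrable_sphere hS (continuous_ip (hWh k).1.continuous.continuousOn
      continuousOn_id)).aestronglyMeasurable
  have hS2 : Summable fun k : ℕ => B * r'⁻¹ ^ k :=
    (summable_geometric_of_lt_one (by positivity) hr'inv).mul_left B
  have h1 : HasSum (fun k => ∫ ζ, ip (W k ζ) ζ ∂ν) (∫ ζ, ip (v ζ) ζ ∂ν) := by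
    refine hasSum_integral_of_dominated_convergence (fun k _ => B * r'⁻¹ ^ k) hmeas ?_ ?_ ?_ ?_
    · intro k
      filter_upwards [hae] with ζ hζ
      refine (norm_ip_le _ _).trans ?_
      rw [hζ, mul_one]
      exact hb1 k ζ hζ.le
    · exact Filter.Eventually.of_forall fun _ => hS2
    · exact integrable_const _
    · filter_upwards [hae] with ζ hζ
      have h2 := hsum ζ hζ.le
      have h3 : Continuous fun w : Cn n => ip w ζ := by
        unfold ip
        exact continuous_const.inner continuous_id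
      let L : Cn n →ₗ[ℂ] ℂ :=
        { toFun := fun w => ip w ζ
          map_add' := fun a b => ip_add a b ζ
          map_smul' := fun a b => by rw [ip_smul]; rfl }
      have h4 := h2.mapL ⟨L, h3⟩
      exact h4
  have h2 : HasSum (fun k : ℕ => |C| * M * (q / ρ) ^ k) (|C| * M * (1 - q / ρ)⁻¹) :=
    (hasSum_geometric_of_lt_one (by positivity) hqq).mul_left _
  have h3 := h1.norm_le_of_bounded h2 (fun k => by
    rcases Nat.lt_or_ge k 2 with hk | hk
    · have h4 : ∫ ζ, ip (W k ζ) ζ ∂ν = 0 := by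
        rw [integral_eq_zero_of_ae]
        filter_upwards [hae] with ζ hζ
        have h5 : W k ζ = 0 := by
          interval_cases k
          · exact hW0 ζ hζ.le
          · exact hW1 ζ hζ.le
        rw [h5]
        unfold ip
        simp
      rw [h4, norm_zero]
      positivity
    · have h4 := hE k (W k) (ρ⁻¹ ^ k * M) hk (hWh k).1 (hWh k).2 (hb2 k)
      refine h4.trans ?_
      have h5 : C * q ^ k * (ρ⁻¹ ^ k * M) = C * M * (q / ρ) ^ k := by
        rw [div_eq_mul_inv, mul_pow]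
        ring
      rw [h5]
      gcongr
      exact le_abs_self C)
  refine h3.trans (le_of_eq ?_)
  ring

theorem testM_iff {ν : Measure (Cn n)} : IsTestM ν ↔ IsTestB ν :=
  ⟨testB_of_testM, testM_of_testB⟩

/-- **The criterion.** -/
theorem support_iff_expl {A : Cn n →L[ℂ] Cn n} (hA : ∀ z : Cn n, z ≠ 0 → 0 < (ip (A z) z).re)
    {h : Cn n → Cn n} (hh : h ∈ NA A) :
    IsSupport A h ↔ ∃ ν : Measure (Cn n), IsTestM ν ∧ Vanishes ν h := by
  constructor
  · intro hs
    obtain ⟨ν, hν, hv⟩ := exists_test hA hs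
    exact ⟨ν, testM_of_testB hν, hv⟩
  · rintro ⟨ν, hν, hv⟩
    exact support_of_test hA hh (testB_of_testM hν) hv

lemma nonneg_sphere {A : Cn n →L[ℂ] Cn n} {h : Cn n → Cn n} (hh : h ∈ NA A)
    (hc : ContinuousOn h (closedBall 0 1)) {ζ : Cn n} (hζ : ‖ζ‖ = 1) : 0 ≤ (ip (h ζ) ζ).re := by
  have h2 : Tendsto (fun s : ℝ => (s : ℂ) • ζ) (𝓝[<] 1) (𝓝[closedBall 0 1] ζ) := by
    refine tendsto_nhdsWithin_iff.2 ⟨?_, ?_⟩
    · have h3 : Tendsto (fun s : ℝ => (s : ℂ) • ζ) (𝓝 1) (𝓝 (((1 : ℝ) : ℂ) • ζ)) :=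
        ((Complex.continuous_ofReal.tendsto 1).smul_const ζ)
      rw [Complex.ofReal_one, one_smul] at h3
      exact h3.mono_left nhdsWithin_le_nhds
    · filter_upwards [Ioo_mem_nhdsLT (show (0 : ℝ) < 1 by norm_num)] with s hs
      rw [mem_closedBall_zero_iff, norm_smul, Complex.norm_real, Real.norm_of_nonneg hs.1.le, hζ,
        mul_one]
      exact hs.2.le
  have h3 := (hc ζ (by rw [mem_closedBall_zero_iff, hζ])).tendsto.comp h2
  have h4 : Continuous fun w : Cn n => (ip w ζ).re := by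
    unfold ip
    exact Complex.continuous_re.comp (continuous_const.inner continuous_id)
  have h5 := (h4.tendsto _).comp h3
  refine ge_of_tendsto h5 ?_
  filter_upwards [Ioo_mem_nhdsLT (show (0 : ℝ) < 1 by norm_num)] with s hs
  have h6 : (s : ℂ) • ζ ∈ ball (0 : Cn n) 1 := by
    rw [mem_ball_zero_iff, norm_smul, Complex.norm_real, Real.norm_of_nonneg hs.1.le, hζ, mul_one]
    exact hs.2
  have h7 : (s : ℂ) • ζ ≠ 0 := by
    intro h
    have := congrArg norm h
    rw [norm_smul, Complex.norm_real, Real.norm_of_nonneg hs.1.le, hζ, mul_one, norm_zero] at this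
    exact hs.1.ne' this
  have h8 := hh.2.2.2 _ h6 h7
  rw [ip_smul_right, Complex.conj_ofReal, Complex.re_ofReal_mul] at h8
  exact ((mul_pos_iff_of_pos_left hs.1).1 h8).le

theorem vanishes_iff_cont {A : Cn n →L[ℂ] Cn n} {h : Cn n → Cn n} (hh : h ∈ NA A)
    (hc : ContinuousOn h (closedBall 0 1)) {ν : Measure (Cn n)} [IsFiniteMeasure ν]
    (hS : ν (sphere (0 : Cn n) 1)ᶜ = 0) :
    Vanishes ν h ↔ ν {ζ | (ip (h ζ) ζ).re ≠ 0} = 0 := by
  obtain ⟨B, hB⟩ := (isCompact_closedBall (0 : Cn n) 1).exists_bound_of_continuousOn hc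
  have hin : ∀ s : ℝ, s ∈ Set.Ioo (0 : ℝ) 1 → ∀ ζ : Cn n, ‖ζ‖ = 1 →
      (s : ℂ) • ζ ∈ closedBall (0 : Cn n) 1 := by
    intro s hs ζ hζ
    rw [mem_closedBall_zero_iff, norm_smul, Complex.norm_real, Real.norm_of_nonneg hs.1.le, hζ,
      mul_one]
    exact hs.2.le
  have hae := ae_sphere hS
  have h1 : Tendsto (fun r : ℝ => ∫ ζ, (ip (h ((r : ℂ) • ζ)) ζ).re ∂ν) (𝓝[<] 1)
      (𝓝 (∫ ζ, (ip (h ζ) ζ).re ∂ν)) := by
    refine tendsto_integral_filter_of_dominated_convergence (fun _ => B) ?_ ?_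
      (integrable_const B) ?_
    · filter_upwards [Ioo_mem_nhdsLT (show (0 : ℝ) < 1 by norm_num)] with s hs
      refine (integrable_sphere hS (Complex.continuous_re.comp_continuousOn
        (continuous_ip ?_ continuousOn_id))).aestronglyMeasurable
      exact hc.comp (continuous_const_smul _).continuousOn fun z hz =>
        hin s hs z (by rwa [mem_sphere_zero_iff_norm] at hz)
    · filter_upwards [Ioo_mem_nhdsLT (show (0 : ℝ) < 1 by norm_num)] with s hs
      filter_upwards [hae] with ζ hζ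
      refine (Complex.abs_re_le_norm _).trans ((norm_ip_le _ _).trans ?_)
      rw [hζ, mul_one]
      exact hB _ (hin s hs ζ hζ)
    · filter_upwards [hae] with ζ hζ
      have h2 : Tendsto (fun s : ℝ => (s : ℂ) • ζ) (𝓝[<] 1) (𝓝[closedBall 0 1] ζ) := by
        refine tendsto_nhdsWithin_iff.2 ⟨?_, ?_⟩
        · have h3 : Tendsto (fun s : ℝ => (s : ℂ) • ζ) (𝓝 1) (𝓝 (((1 : ℝ) : ℂ) • ζ)) :=
            ((Complex.continuous_ofReal.tendsto 1).smul_const ζ)
          rw [Complex.ofReal_one, one_smul] at h3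
          exact h3.mono_left nhdsWithin_le_nhds
        · filter_upwards [Ioo_mem_nhdsLT (show (0 : ℝ) < 1 by norm_num)] with s hs
          exact hin s hs ζ hζ
      have h3 := (hc ζ (by rw [mem_closedBall_zero_iff, hζ])).tendsto.comp h2
      have h4 : Continuous fun w : Cn n => (ip w ζ).re := by
        unfold ip
        exact Complex.continuous_re.comp (continuous_const.inner continuous_id)
      exact (h4.tendsto _).comp h3
  have hint : Integrable (fun ζ => (ip (h ζ) ζ).re) ν :=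
    integrable_sphere hS (Complex.continuous_re.comp_continuousOn (continuous_ip
      (hc.mono sphere_subset_closedBall) continuousOn_id))
  have hnn : 0 ≤ᵐ[ν] fun ζ => (ip (h ζ) ζ).re := by
    filter_upwards [hae] with ζ hζ
    exact nonneg_sphere hh hc hζ
  have h2 : (∫ ζ, (ip (h ζ) ζ).re ∂ν) = 0 ↔ ν {ζ | (ip (h ζ) ζ).re ≠ 0} = 0 := by
    rw [integral_eq_zero_iff_of_nonneg_ae hnn hint]
    exact Iff.rfl
  rw [← h2]
  constructor
  · intro h3
    exact tendsto_nhds_unique h1 h3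
  · intro h3
    rw [h3] at h1
    exact h1

theorem support_iff_cont {A : Cn n →L[ℂ] Cn n} (hA : ∀ z : Cn n, z ≠ 0 → 0 < (ip (A z) z).re)
    {h : Cn n → Cn n} (hh : h ∈ NA A) (hc : ContinuousOn h (closedBall 0 1)) :
    IsSupport A h ↔ ∃ ν : Measure (Cn n), IsTestM ν ∧ ν {ζ | (ip (h ζ) ζ).re ≠ 0} = 0 := by
  rw [support_iff_expl hA hh]
  constructor
  · rintro ⟨ν, hν, hv⟩
    haveI := hν.1
    exact ⟨ν, hν, (vanishes_iff_cont hh hc hν.2.1).1 hv⟩
  · rintro ⟨ν, hν, hv⟩
    haveI := hν.1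
    exact ⟨ν, hν, (vanishes_iff_cont hh hc hν.2.1).2 hv⟩

theorem peak_null_expl {ν : Measure (Cn n)} (hν : IsTestM ν) {K : Set (Cn n)} (hK : IsPeak K) :
    ν K = 0 := peak_null (testB_of_testM hν) hK

end Pool.Agent.P1ae5m
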