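import Pool.Agent.Lib.P1ae5m.Back

/-!
Support points give test measures.
-/

open Metric MeasureTheory Filter Topology
open scoped CompactlySupported

namespace Pool.Agent.P1ae5m

open Pool.Agent.P1ae5 (Cn ip NA IsSupport IsExtreme IsFunctional exists_lower
  not_support_of_minorant)

variable {n : ℕ}

lemma a_mem {A : Cn n →L[ℂ] Cn n} (hA : ∀ z : Cn n, z ≠ 0 → 0 < (ip (A z) z).re) :
    (fun z => A z) ∈ NA A :=
  ⟨A.differentiable.differentiableOn, map_zero A, A.fderiv, fun z _ hz => hA z hz⟩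

lemma value_gap {A : Cn n →L[ℂ] Cn n} (hA : ∀ z : Cn n, z ≠ 0 → 0 < (ip (A z) z).re)
    {h : Cn n → Cn n} {Λ : (Cn n → Cn n) → ℂ} (hΛ : IsFunctional Λ)
    (hne : ∃ g ∈ NA A, (Λ g).re ≠ (Λ h).re) (hmax : ∀ g ∈ NA A, (Λ g).re ≤ (Λ h).re) :
    (Λ (fun z => A z)).re < (Λ h).re := by
  refine lt_of_le_of_ne (hmax _ (a_mem hA)) fun he => ?_
  obtain ⟨m, hm0, hmA⟩ := exists_lower hA
  refine not_support_of_minorant (A := A) (h := fun z => A z) (P := fun _ => (m : ℂ))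
    (differentiableOn_const _) (fun z _ => by exact_mod_cast hm0.ne')
    (fun z _ => by
      rw [Complex.norm_real, Real.norm_of_nonneg hm0.le]
      exact hmA z) ?_
  obtain ⟨g, hg, hg'⟩ := hne
  exact ⟨a_mem hA, Λ, hΛ, ⟨g, hg, by rw [he]; exact hg'⟩, fun g hg => by rw [he]; exact hmax g hg⟩

/-- Riesz representation on a compact space for functionals positive on positive functions -/
lemma riesz_compact {X : Type*} [TopologicalSpace X] [CompactSpace X] [T2Space X]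
    [MeasurableSpace X] [BorelSpace X] (T : C(X, ℝ) →ₗ[ℝ] ℝ)
    (hT : ∀ f : C(X, ℝ), (∀ x, 0 < f x) → 0 < T f) :
    ∃ μ : Measure X, IsFiniteMeasure μ ∧ ∀ f : C(X, ℝ), ∫ x, f x ∂μ = T f := by
  have hT0 : ∀ f : C(X, ℝ), (∀ x, 0 ≤ f x) → 0 ≤ T f := by
    intro f hf
    refine le_of_forall_pos_le_add fun ε hε => ?_
    by_contra hcon
    push Not at hcon
    have h1 : 0 ≤ T (1 : C(X, ℝ)) := (hT 1 (fun x => by simp)).le
    have h2 := hT (f + (ε / (T 1 + 1)) • (1 : C(X, ℝ))) (fun x => by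
      have := hf x
      have : 0 < ε / (T 1 + 1) := by positivity
      simp only [ContinuousMap.add_apply, ContinuousMap.smul_apply, ContinuousMap.one_apply,
        smul_eq_mul, mul_one]
      linarith [hf x])
    rw [map_add, map_smul, smul_eq_mul] at h2
    have h3 : ε / (T 1 + 1) * T 1 ≤ ε := by
      rw [div_mul_eq_mul_div, div_le_iff₀ (by positivity)]
      nlinarith
    linarith
  let T' : C_c(X, ℝ) →ₗ[ℝ] ℝ :=
    { toFun := fun f => T f.toContinuousMap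
      map_add' := by
        intro f g
        rw [← map_add]
        congr 1
      map_smul' := by
        intro c f
        rw [RingHom.id_apply, smul_eq_mul, ← smul_eq_mul, ← map_smul]
        congr 1 }
  let L : C_c(X, ℝ) →ₚ[ℝ] ℝ := PositiveLinearMap.mk₀ T' (by
    intro f hf
    exact hT0 _ fun x => hf x)
  have hL : ∀ f : C_c(X, ℝ), L f = T f.toContinuousMap := fun f => rfl
  have hμ := RealRMK.integral_rieszMeasure L
  refine ⟨RealRMK.rieszMeasure L, ?_, fun f => ?_⟩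
  · constructor
    exact isCompact_univ.measure_lt_top
  · have := hμ ⟨f, HasCompactSupport.of_compactSpace _⟩
    rw [hL] at this
    exact this

/-- a positive lower bound on the sphere forces `t > 0` -/
lemma t_pos {A : Cn n →L[ℂ] Cn n} (hA : ∀ z : Cn n, z ≠ 0 → 0 < (ip (A z) z).re)
    (hne : ∃ ζ : Cn n, ‖ζ‖ = 1) {v : Cn n → Cn n} {R : ℝ} (hv : Tan v R) {t c : ℝ} (hc0 : 0 < c)
    (hc : ∀ ζ : Cn n, ‖ζ‖ = 1 → c ≤ (ip (v ζ) ζ).re + t * (ip (A ζ) ζ).re) : 0 < t := by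
  obtain ⟨ζ, hζ⟩ := hne
  have h1 := slice_min hv hc
  have h6 := (hasFDerivAt_iff_isLittleO_nhds_zero.1 hv.hd).def (show (0 : ℝ) < c / 2 by positivity)
  obtain ⟨δ, hδ, h7⟩ := Metric.eventually_nhds_iff.1 h6
  set r : ℝ := min 1 (δ / 2) with hr
  have hr0 : 0 < r := lt_min one_pos (by positivity)
  have hr1 : r ≤ 1 := min_le_left _ _
  have hrδ : r < δ := lt_of_le_of_lt (min_le_right _ _) (by linarith)
  have hn : ‖(r : ℂ) • ζ‖ = r := by
    rw [norm_smul, Complex.norm_real, Real.norm_of_nonneg hr0.le, hζ, mul_one]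
  have h8 := h7 (y := (r : ℂ) • ζ) (by rw [dist_zero_right, hn]; exact hrδ)
  simp only [zero_add, hv.zero, sub_zero, zero_apply] at h8
  have h9 := h1 ((r : ℂ) • ζ) (by rw [hn]; exact hr1)
  have h10 : (ip (v ((r : ℂ) • ζ)) ((r : ℂ) • ζ)).re ≤ c / 2 * r ^ 2 := by
    calc (ip (v ((r : ℂ) • ζ)) ((r : ℂ) • ζ)).re ≤ ‖ip (v ((r : ℂ) • ζ)) ((r : ℂ) • ζ)‖ :=
          (le_abs_self _).trans (Complex.abs_re_le_norm _)
      _ ≤ ‖v ((r : ℂ) • ζ)‖ * ‖(r : ℂ) • ζ‖ := norm_ip_le _ _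
      _ ≤ (c / 2 * ‖(r : ℂ) • ζ‖) * ‖(r : ℂ) • ζ‖ := by gcongr
      _ = c / 2 * r ^ 2 := by rw [hn]; ring
  rw [hn] at h9
  have h11 : 0 < t * (ip (A ((r : ℂ) • ζ)) ((r : ℂ) • ζ)).re := by
    have : 0 < c / 2 * r ^ 2 := by positivity
    nlinarith
  have h12 : 0 < (ip (A ((r : ℂ) • ζ)) ((r : ℂ) • ζ)).re := hA _ (by
    intro h0
    rw [h0, norm_zero] at hn
    exact hr0.ne hn)
  exact pos_of_mul_pos_left h11 h12.le

lemma tan_mem {A : Cn n →L[ℂ] Cn n}
    {v : Cn n → Cn n} {R : ℝ} (hv : Tan v R) {t c : ℝ} (hc0 : 0 < c) (ht : 0 < t)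
    (hc : ∀ ζ : Cn n, ‖ζ‖ = 1 → c ≤ (ip (v ζ) ζ).re + t * (ip (A ζ) ζ).re) :
    ((fun z => A z) + ((t⁻¹ : ℝ) : ℂ) • v) ∈ NA A := by
  have h1 := slice_min hv hc
  refine ⟨A.differentiable.differentiableOn.add (hv.diff1.const_smul _), by simp [hv.zero], ?_,
    fun z hz hz0 => ?_⟩
  · have h2 := (A.hasFDerivAt (x := (0 : Cn n))).add (hv.hd.const_smul ((t⁻¹ : ℝ) : ℂ))
    rw [smul_zero, add_zero] at h2
    exact h2.fderiv
  · have h3 := h1 z (mem_ball_zero_iff.1 hz).le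
    have h4 : 0 < ‖z‖ := norm_pos_iff.2 hz0
    rw [Pi.add_apply, Pi.smul_apply, ip_add, ip_smul, Complex.add_re, Complex.re_ofReal_mul]
    have h5 : 0 < (ip (v z) z).re + t * (ip (A z) z).re := lt_of_lt_of_le (by positivity) h3
    have h6 : (ip (A z) z).re + t⁻¹ * (ip (v z) z).re =
        t⁻¹ * ((ip (v z) z).re + t * (ip (A z) z).re) := by
      field_simp
      ring
    rw [h6]
    positivity

lemma Tan.add' {v w : Cn n → Cn n} {R R' : ℝ} (h : Tan v R) (h' : Tan w R') :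
    Tan (v + w) (min R R') := h.add h'

lemma Tan.smul' {v : Cn n → Cn n} {R : ℝ} (h : Tan v R) (c : ℂ) : Tan (c • v) R := h.smul c

/-- the function `Re <v,ζ>` on the sphere -/
noncomputable def Fc {v : Cn n → Cn n} (hv : ContinuousOn v (closedBall 0 1)) :
    C(sphere (0 : Cn n) 1, ℝ) :=
  ⟨fun x => (ip (v x) x).re, by
    have h1 : Continuous fun x : sphere (0 : Cn n) 1 => v x :=
      hv.comp_continuous continuous_subtype_val fun x => sphere_subset_closedBall x.2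
    have h2 : Continuous fun x : sphere (0 : Cn n) 1 => ip (v x) (x : Cn n) := by
      unfold ip
      exact continuous_subtype_val.inner h1
    exact Complex.continuous_re.comp h2⟩

theorem exists_functional_C {A : Cn n →L[ℂ] Cn n}
    (hA : ∀ z : Cn n, z ≠ 0 → 0 < (ip (A z) z).re) {h : Cn n → Cn n} {Λ : (Cn n → Cn n) → ℂ}
    (hΛ : IsFunctional Λ) (hne : ∃ g ∈ NA A, (Λ g).re ≠ (Λ h).re) (hh : h ∈ NA A)
    (hmax : ∀ g ∈ NA A, (Λ g).re ≤ (Λ h).re) :
    ∃ T : C(sphere (0 : Cn n) 1, ℝ) →ₗ[ℝ] ℝ, (∀ f, (∀ x, 0 < f x) → 0 < T f) ∧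
      ∀ (v : Cn n → Cn n) (R t : ℝ), Tan v R →
        t * ((Λ h).re - (Λ (fun z => A z)).re) = (Λ v).re →
        ∀ f : C(sphere (0 : Cn n) 1, ℝ),
          (∀ x : sphere (0 : Cn n) 1, f x = (ip (v x) x).re + t * (ip (A x) x).re) → T f = 0 := by
  have hgap := value_gap hA hΛ hne hmax
  set M : ℝ := (Λ h).re - (Λ (fun z => A z)).re with hM
  have hM0 : 0 < M := sub_pos.2 hgap
  obtain ⟨hadd, hsm, -⟩ := hΛ
  have hSne : ∃ ζ : Cn n, ‖ζ‖ = 1 := by
    by_contra hempty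
    push Not at hempty
    have hz : ∀ z : Cn n, z = 0 := by
      intro z
      by_contra hz
      have hR : 0 < ‖z‖ := norm_pos_iff.2 hz
      refine hempty (((‖z‖⁻¹ : ℝ) : ℂ) • z) ?_
      rw [norm_smul, Complex.norm_real, Real.norm_of_nonneg (by positivity)]
      field_simp
    have h1 : h = fun z => A z := funext fun z => by rw [hz z, hh.2.1, map_zero]
    rw [hM, h1, sub_self] at hM0
    exact lt_irrefl _ hM0
  -- the open convex set of positive functions and the subspace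
  let P : Set C(sphere (0 : Cn n) 1, ℝ) := {f | ∀ x, 0 < f x}
  let K : Set C(sphere (0 : Cn n) 1, ℝ) := {f | ∃ (v : Cn n → Cn n) (R t : ℝ), Tan v R ∧
    t * M = (Λ v).re ∧
      ∀ x : sphere (0 : Cn n) 1, f x = (ip (v x) x).re + t * (ip (A x) x).re}
  have hPc : Convex ℝ P := by
    intro f hf g hg a b ha hb hab x
    simp only [ContinuousMap.add_apply, ContinuousMap.smul_apply, smul_eq_mul]
    have h1 := hf x
    have h2 := hg x
    rcases ha.eq_or_lt with h3 | h3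
    · have hb1 : b = 1 := by linarith
      rw [← h3, hb1]; linarith
    · nlinarith
  have hPo : IsOpen P := by
    have h1 : P = {f : C(sphere (0 : Cn n) 1, ℝ) | Set.MapsTo f Set.univ (Set.Ioi 0)} := by
      ext f
      simp [P, Set.MapsTo]
    rw [h1]
    exact ContinuousMap.isOpen_setOfPred_mapsTo isCompact_univ isOpen_Ioi
  have hKlin : ∀ f ∈ K, ∀ g ∈ K, ∀ a b : ℝ, a • f + b • g ∈ K := by
    rintro f ⟨v, R, t, hv, ht, hf⟩ g ⟨w, R', s, hw, hs, hg⟩ a b
    refine ⟨(a : ℂ) • v + (b : ℂ) • w, _, a * t + b * s, (hv.smul' a).add' (hw.smul' b), ?_, ?_⟩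
    · rw [hadd _ _ (hv.diff1.const_smul _) (hw.diff1.const_smul _), hsm _ _ hv.diff1,
        hsm _ _ hw.diff1, Complex.add_re, Complex.re_ofReal_mul, Complex.re_ofReal_mul,
        ← ht, ← hs]
      ring
    · intro x
      simp only [ContinuousMap.add_apply, ContinuousMap.smul_apply, smul_eq_mul, Pi.add_apply,
        Pi.smul_apply]
      rw [ip_add, ip_smul, ip_smul, Complex.add_re, Complex.re_ofReal_mul, Complex.re_ofReal_mul,
        hf x, hg x]
      ring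
  have hKc : Convex ℝ K := fun f hf g hg a b _ _ _ => hKlin f hf g hg a b
  have hdisj : Disjoint P K := by
    rw [Set.disjoint_left]
    rintro f hf ⟨v, R, t, hv, ht, hfv⟩
    haveI hne' : Nonempty (sphere (0 : Cn n) 1) := by
      obtain ⟨ζ, hζ⟩ := hSne
      exact ⟨⟨ζ, by rw [mem_sphere_zero_iff_norm]; exact hζ⟩⟩
    obtain ⟨x0, -, hx0⟩ := (isCompact_univ (X := sphere (0 : Cn n) 1)).exists_isMinOn
      Set.univ_nonempty f.continuous.continuousOn
    have hc0 : 0 < f x0 := hf x0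
    set c : ℝ := f x0 with hc
    obtain ⟨B, hB0, hB⟩ : ∃ B : ℝ, 0 < B ∧ ∀ ζ : Cn n, ‖ζ‖ = 1 → (ip (A ζ) ζ).re ≤ B := by
      refine ⟨‖A‖ + 1, by positivity, fun ζ hζ => ?_⟩
      calc (ip (A ζ) ζ).re ≤ ‖ip (A ζ) ζ‖ := (le_abs_self _).trans (Complex.abs_re_le_norm _)
        _ ≤ ‖A ζ‖ * ‖ζ‖ := norm_ip_le _ _
        _ ≤ ‖A‖ * ‖ζ‖ * ‖ζ‖ := by gcongr; exact A.le_opNorm ζ
        _ ≤ ‖A‖ + 1 := by rw [hζ]; linarith
    set ε : ℝ := c / (2 * B) with hε
    have hε0 : 0 < ε := by positivity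
    have hlow : ∀ ζ : Cn n, ‖ζ‖ = 1 → c / 2 ≤ (ip (v ζ) ζ).re + (t - ε) * (ip (A ζ) ζ).re := by
      intro ζ hζ
      have h1 := hx0 (Set.mem_univ (⟨ζ, by rw [mem_sphere_zero_iff_norm]; exact hζ⟩ :
        sphere (0 : Cn n) 1))
      have h2 : c ≤ (ip (v ζ) ζ).re + t * (ip (A ζ) ζ).re := by
        have h3 := hfv ⟨ζ, by rw [mem_sphere_zero_iff_norm]; exact hζ⟩
        rw [← h3]
        exact h1
      have h3 : ε * (ip (A ζ) ζ).re ≤ c / 2 := by
        calc ε * (ip (A ζ) ζ).re ≤ ε * B := by gcongr; exact hB ζ hζ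
          _ = c / 2 := by rw [hε]; field_simp
      nlinarith
    have htε := t_pos hA hSne hv (by positivity) hlow
    have hmem := tan_mem hv (by positivity) htε hlow
    have h4 := hmax _ hmem
    rw [hadd _ _ A.differentiable.differentiableOn (hv.diff1.const_smul _), hsm _ _ hv.diff1,
      Complex.add_re, Complex.re_ofReal_mul, ← ht] at h4
    have h5 : (t - ε)⁻¹ * (t * M) ≤ M := by linarith
    rw [inv_mul_le_iff₀ htε] at h5
    nlinarith
  obtain ⟨φ, u, hφP, hφK⟩ := geometric_hahn_banach_open hPc hPo hKc hdisj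
  have h0K : (0 : C(sphere (0 : Cn n) 1, ℝ)) ∈ K := by
    refine ⟨0, 2, 0, ⟨by norm_num, differentiableOn_const _, rfl, hasFDerivAt_const _ _⟩, ?_, ?_⟩
    · have h1 := hsm 0 (0 : Cn n → Cn n) (differentiableOn_const _)
      rw [zero_smul, zero_mul] at h1
      rw [h1, zero_mul, Complex.zero_re]
    · intro x
      simp [ip]
  have hu0 : u ≤ 0 := by
    have := hφK 0 h0K
    rwa [map_zero] at this
  have hφK0 : ∀ f ∈ K, φ f = 0 := by
    intro f hf
    have h1 : ∀ s : ℝ, u ≤ s * φ f := by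
      intro s
      have h2 := hφK _ (hKlin f hf 0 h0K s 0)
      rw [smul_zero, add_zero, map_smul, smul_eq_mul] at h2
      exact h2
    by_contra hne0
    have h3 := h1 ((u - 1) / φ f)
    rw [div_mul_cancel₀ _ hne0] at h3
    linarith
  refine ⟨-(φ : C(sphere (0 : Cn n) 1, ℝ) →ₗ[ℝ] ℝ), fun f hf => ?_,
    fun v R t hv ht f hf => ?_⟩
  · have := hφP f hf
    have h2 : (-(φ : C(sphere (0 : Cn n) 1, ℝ) →ₗ[ℝ] ℝ)) f = - φ f := rfl
    rw [h2]
    linarith
  · have h2 : (-(φ : C(sphere (0 : Cn n) 1, ℝ) →ₗ[ℝ] ℝ)) f = - φ f := rfl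
    rw [h2, hφK0 f ⟨v, R, t, hv, ht, hf⟩, neg_zero]

/-- continuity of functionals along dilations -/
lemma func_dil {A : Cn n →L[ℂ] Cn n} {g : Cn n → Cn n} (hg : g ∈ NA A)
    {Λ : (Cn n → Cn n) → ℂ} (hΛ : IsFunctional Λ) :
    Tendsto (fun r : ℝ => Λ (fun z => sec g ((r : ℂ) • z))) (𝓝[<] 1)
      (𝓝 (Λ g - Λ (fun z => A z))) := by
  obtain ⟨hadd, hsm, K, hKb, hKc, C, hC⟩ := hΛ
  have hKρ : ∃ ρ : ℝ, 0 < ρ ∧ ρ < 1 ∧ K ⊆ closedBall (0 : Cn n) ρ := by
    rcases K.eq_empty_or_nonempty with hK | hK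
    · exact ⟨1 / 2, by norm_num, by norm_num, by simp [hK]⟩
    · obtain ⟨z0, hz0, hz0m⟩ := hKc.exists_isMaxOn hK continuous_norm.continuousOn
      refine ⟨max (1 / 2) ‖z0‖, lt_of_lt_of_le (by norm_num) (le_max_left _ _),
        max_lt (by norm_num) (by simpa using hKb hz0), fun z hz => ?_⟩
      rw [mem_closedBall_zero_iff]
      exact le_trans (hz0m hz) (le_max_right _ _)
  obtain ⟨ρ, hρ0, hρ1, hKρ⟩ := hKρ
  have hsd : DifferentiableOn ℂ (sec g) (ball 0 1) :=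
    (hg.1.fun_sub (differentiableOn_const _)).fun_sub (fderiv ℂ g 0).differentiable.differentiableOn
  have hsecM : Λ (sec g) = Λ g - Λ (fun z => A z) := by
    have e1 : sec g = g + (-1 : ℂ) • (fun z => A z) := by
      funext z
      simp [sec, hg.2.1, hg.2.2.1, sub_eq_add_neg]
    rw [e1, hadd _ _ hg.1 (A.differentiable.differentiableOn.const_smul _),
      hsm _ _ A.differentiable.differentiableOn, neg_one_mul]
    ring
  rw [← hsecM, Metric.tendsto_nhds]
  intro ε hε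
  have hu : UniformContinuousOn (sec g) (closedBall 0 ρ) :=
    (isCompact_closedBall (0 : Cn n) ρ).uniformContinuousOn_of_continuous
      ((continuousOn_sec hg.1).mono (closedBall_subset_ball hρ1))
  rw [Metric.uniformContinuousOn_iff] at hu
  set e : ℝ := ε / (|C| + 1) with he
  have he0 : 0 < e := by positivity
  obtain ⟨η, hη, hu⟩ := hu e he0
  have ha1 : max (1 / 2) (1 - η) < 1 := max_lt (by norm_num) (by linarith)
  filter_upwards [Ioo_mem_nhdsLT ha1] with r hr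
  have hr0 : 0 < r := by
    have := le_max_left (1 / 2 : ℝ) (1 - η)
    linarith [hr.1]
  have hr1 : r < 1 := hr.2
  have hr2 : 1 - r < η := by
    have := le_max_right (1 / 2 : ℝ) (1 - η)
    linarith [hr.1]
  have htr := tan_sec hg.1 hr0 hr1
  have h5 : ‖Λ ((fun z => sec g ((r : ℂ) • z)) + (-1 : ℂ) • sec g)‖ ≤ C * e := by
    refine hC _ (htr.diff1.add (hsd.const_smul _)) e he0.le fun z hz => ?_
    have hz1 := hKρ hz
    have hzn : ‖z‖ ≤ ρ := by simpa using hz1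
    have hz2 : (r : ℂ) • z ∈ closedBall (0 : Cn n) ρ := by
      rw [mem_closedBall_zero_iff, norm_smul, Complex.norm_real, Real.norm_of_nonneg hr0.le]
      nlinarith [norm_nonneg z]
    have hd : dist ((r : ℂ) • z) z < η := by
      have e2 : (r : ℂ) • z - z = ((r - 1 : ℝ) : ℂ) • z := by
        push_cast
        rw [sub_smul, one_smul]
      rw [dist_eq_norm, e2, norm_smul, Complex.norm_real, Real.norm_eq_abs]
      have h6 : |r - 1| = 1 - r := by rw [abs_sub_comm, abs_of_pos (by linarith)]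
      rw [h6]
      nlinarith [norm_nonneg z]
    have h7 := hu _ hz2 _ hz1 hd
    rw [dist_eq_norm] at h7
    have e3 : ((fun z => sec g ((r : ℂ) • z)) + (-1 : ℂ) • sec g) z =
        sec g ((r : ℂ) • z) - sec g z := by
      rw [Pi.add_apply, Pi.smul_apply, neg_smul, one_smul, sub_eq_add_neg]
    rw [e3]
    exact h7.le
  rw [hadd _ _ htr.diff1 (hsd.const_smul _), hsm _ _ hsd, neg_one_mul] at h5
  rw [dist_eq_norm, sub_eq_add_neg]
  refine lt_of_le_of_lt h5 ?_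
  have h8 : C * e ≤ |C| * e := mul_le_mul_of_nonneg_right (le_abs_self C) he0.le
  have h9 : (|C| + 1) * e = ε := by rw [he]; field_simp
  nlinarith

/-- representation of extremal functionals by measures -/
theorem exists_rep {A : Cn n →L[ℂ] Cn n}
    (hA : ∀ z : Cn n, z ≠ 0 → 0 < (ip (A z) z).re) {h : Cn n → Cn n} (hh : h ∈ NA A)
    {Λ : (Cn n → Cn n) → ℂ} (hΛ : IsFunctional Λ) (hne : ∃ g ∈ NA A, (Λ g).re ≠ (Λ h).re)
    (hmax : ∀ g ∈ NA A, (Λ g).re ≤ (Λ h).re) :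
    ∃ (ν : Measure (Cn n)) (κ : ℝ), IsProbabilityMeasure ν ∧ ν (sphere (0 : Cn n) 1)ᶜ = 0 ∧
      0 < κ ∧ (∀ (v : Cn n → Cn n) (R : ℝ), Tan v R → ∫ ζ, ip (v ζ) ζ ∂ν = -κ * Λ v) ∧
      Vanishes ν h := by
  have hgap := value_gap hA hΛ hne hmax
  obtain ⟨T, hTpos, hT0⟩ := exists_functional_C hA hΛ hne hh hmax
  set M : ℝ := (Λ h).re - (Λ (fun z => A z)).re with hM
  have hM0 : 0 < M := sub_pos.2 hgap
  have hΛ' := hΛ
  obtain ⟨hadd, hsm, -⟩ := hΛ'
  obtain ⟨μ, hμf, hμ⟩ := riesz_compact T hTpos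
  have hT1 : 0 < T 1 := hTpos 1 fun x => by simp
  have hAc : ContinuousOn (fun z => A z) (closedBall (0 : Cn n) 1) := A.continuous.continuousOn
  set a : C(sphere (0 : Cn n) 1, ℝ) := Fc hAc with ha
  have hTa : 0 < T a := hTpos a fun x => by
    have hx : (x : Cn n) ≠ 0 := by
      intro h0
      have := x.2
      rw [mem_sphere_zero_iff_norm, h0, norm_zero] at this
      exact zero_ne_one this
    exact hA _ hx
  set c0 : ℝ := T 1 with hc0
  have huniv : μ Set.univ = ENNReal.ofReal c0 := by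
    have h1 := hμ 1
    simp only [ContinuousMap.one_apply, integral_const, smul_eq_mul, mul_one] at h1
    rw [← hc0] at h1
    rw [← h1, Measure.real, ENNReal.ofReal_toReal (measure_ne_top μ _)]
  have hemb : MeasurableEmbedding (Subtype.val : sphere (0 : Cn n) 1 → Cn n) :=
    MeasurableEmbedding.subtype_coe isClosed_sphere.measurableSet
  set ν : Measure (Cn n) := (ENNReal.ofReal c0)⁻¹ • μ.map Subtype.val with hν
  have hc0' : ENNReal.ofReal c0 ≠ 0 := by
    rw [Ne, ENNReal.ofReal_eq_zero, not_le]; exact hT1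
  have hνP : IsProbabilityMeasure ν := by
    constructor
    rw [hν, Measure.smul_apply, hemb.map_apply, Set.preimage_univ, huniv, smul_eq_mul,
      ENNReal.inv_mul_cancel hc0' ENNReal.ofReal_ne_top]
  have hνS : ν (sphere (0 : Cn n) 1)ᶜ = 0 := by
    rw [hν, Measure.smul_apply, hemb.map_apply]
    have : (Subtype.val : sphere (0 : Cn n) 1 → Cn n) ⁻¹' (sphere (0 : Cn n) 1)ᶜ = ∅ := by
      ext x
      simp
    rw [this]
    simp
  have hνint : ∀ {v : Cn n → Cn n} (hv : ContinuousOn v (closedBall 0 1)),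
      ∫ ζ, (ip (v ζ) ζ).re ∂ν = c0⁻¹ * T (Fc hv) := by
    intro v hv
    rw [hν, integral_smul_measure, hemb.integral_map, ← hμ, ENNReal.toReal_inv,
      ENNReal.toReal_ofReal hT1.le]
    rfl
  obtain ⟨κ, hκ⟩ : ∃ κ : ℝ, κ = c0⁻¹ * (T a / M) := ⟨_, rfl⟩
  have hκ0 : 0 < κ := by rw [hκ]; positivity
  have hre : ∀ {v : Cn n → Cn n} {R : ℝ}, Tan v R → ∫ ζ, (ip (v ζ) ζ).re ∂ν = -κ * (Λ v).re := by
    intro v R hv
    rw [hνint hv.contS]
    have h1 := hT0 v R ((Λ v).re / M) hv (div_mul_cancel₀ _ hM0.ne')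
      (Fc hv.contS + ((Λ v).re / M) • a) (fun x => rfl)
    rw [map_add, map_smul, smul_eq_mul] at h1
    have h2 : T (Fc hv.contS) = -((Λ v).re / M * T a) := by linarith
    rw [h2, hκ]
    field_simp
  have hfull : ∀ {v : Cn n → Cn n} {R : ℝ}, Tan v R → ∫ ζ, ip (v ζ) ζ ∂ν = -κ * Λ v := by
    intro v R hv
    have hint := int_sec (ν := ν) hνS hv
    apply Complex.ext
    · have e1 : (∫ ζ, ip (v ζ) ζ ∂ν).re = ∫ ζ, (ip (v ζ) ζ).re ∂ν := (integral_re hint).symm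
      rw [e1, hre hv, neg_mul (κ : ℂ), Complex.neg_re, Complex.re_ofReal_mul, neg_mul]
    · have e1 : (∫ ζ, ip (v ζ) ζ ∂ν).im = ∫ ζ, (ip (v ζ) ζ).im ∂ν := (integral_im hint).symm
      have h3 := hre (hv.smul' (-Complex.I))
      have e2 : ∀ ζ : Cn n, (ip (((-Complex.I) • v) ζ) ζ).re = (ip (v ζ) ζ).im := by
        intro ζ
        rw [Pi.smul_apply, ip_smul]
        simp
      simp only [e2] at h3
      rw [e1, h3, hsm _ _ hv.diff1, neg_mul (κ : ℂ), Complex.neg_im, Complex.im_ofReal_mul]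
      simp
  refine ⟨ν, κ, hνP, hνS, hκ0, fun v R hv => hfull hv, ?_⟩
  have hlim : Tendsto (fun r : ℝ => (Λ (fun z => sec h ((r : ℂ) • z))).re) (𝓝[<] 1) (𝓝 M) := by
    have h1 := (Complex.continuous_re.tendsto _).comp (func_dil hh hΛ)
    rw [Complex.sub_re, ← hM] at h1
    exact h1
  have haI : aInt ν A = κ * M := by
    unfold aInt
    rw [hνint hAc, hκ]
    field_simp
    rfl
  have h1 : Tendsto (fun r : ℝ => -κ * (Λ (fun z => sec h ((r : ℂ) • z))).re + r * (κ * M))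
      (𝓝[<] 1) (𝓝 (-κ * M + 1 * (κ * M))) :=
    (hlim.const_mul _).add ((tendsto_id.mono_left nhdsWithin_le_nhds).mul_const _)
  have h2 : -κ * M + 1 * (κ * M) = 0 := by ring
  rw [h2] at h1
  refine h1.congr' ?_
  filter_upwards [Ioo_mem_nhdsLT (show (0 : ℝ) < 1 by norm_num)] with r hr
  have h3 := re_JJ (ν := ν) hνS hh hr.1 hr.2
  have h4 : JJ ν h r = -κ * Λ (fun z => sec h ((r : ℂ) • z)) := hfull (tan_sec hh.1 hr.1 hr.2)
  rw [h4, haI, neg_mul, Complex.neg_re, Complex.re_ofReal_mul] at h3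
  change _ = ∫ ζ, (ip (h ((r : ℂ) • ζ)) ζ).re ∂ν
  linarith

/-- **Support points give test measures.** -/
theorem exists_test {A : Cn n →L[ℂ] Cn n}
    (hA : ∀ z : Cn n, z ≠ 0 → 0 < (ip (A z) z).re) {h : Cn n → Cn n} (hs : IsSupport A h) :
    ∃ ν : Measure (Cn n), IsTestB ν ∧ Vanishes ν h := by
  obtain ⟨hh, Λ, hΛ, hne, hmax⟩ := hs
  obtain ⟨ν, κ, hνP, hνS, hκ0, hfull, hvan⟩ := exists_rep hA hh hΛ hne hmax
  obtain ⟨hadd, hsm, K, hKb, hKc, C, hC⟩ := hΛ
  have hKρ : ∃ ρ : ℝ, 0 < ρ ∧ ρ < 1 ∧ K ⊆ closedBall (0 : Cn n) ρ := by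
    rcases K.eq_empty_or_nonempty with hK | hK
    · exact ⟨1 / 2, by norm_num, by norm_num, by simp [hK]⟩
    · obtain ⟨z0, hz0, hz0m⟩ := hKc.exists_isMaxOn hK continuous_norm.continuousOn
      refine ⟨max (1 / 2) ‖z0‖, lt_of_lt_of_le (by norm_num) (le_max_left _ _),
        max_lt (by norm_num) (by simpa using hKb hz0), fun z hz => ?_⟩
      rw [mem_closedBall_zero_iff]
      exact le_trans (hz0m hz) (le_max_right _ _)
  obtain ⟨ρ, hρ0, hρ1, hKρ⟩ := hKρ
  refine ⟨ν, ⟨hνP, hνS, ρ, κ * C, hρ0, hρ1, fun v R hR hv hv0 hv1 B hB => ?_⟩, ?_⟩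
  · have htan : Tan v R := ⟨hR, hv, hv0, by
      have h1 : DifferentiableAt ℂ v 0 := (hv 0 (mem_ball_self (by linarith))).differentiableAt
        (ball_mem_nhds 0 (by linarith))
      have := h1.hasFDerivAt
      rwa [hv1] at this⟩
    have hB0 : 0 ≤ B := (norm_nonneg _).trans (hB 0 (by simpa using hρ0.le))
    have h1 : ‖Λ v‖ ≤ C * B := hC v htan.diff1 B hB0 fun z hz => hB z (by
      simpa using hKρ hz)
    have h2 := hfull v R htan
    change ‖∫ ζ, ip (v ζ) ζ ∂ν‖ ≤ κ * C * B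
    rw [h2, norm_mul, norm_neg, Complex.norm_real, Real.norm_of_nonneg hκ0.le, mul_assoc]
    exact mul_le_mul_of_nonneg_left h1 hκ0.le
  · exact hvan

end Pool.Agent.P1ae5m
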