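import Pool.Agent.Lib.P1ae5m.Test

/-!
Homogeneous parts of holomorphic maps.
-/

open Metric MeasureTheory Filter Topology

namespace Pool.Agent.P1ae5m

open Pool.Agent.P1ae5 (Cn ip NA cis)
open Pool.Agent.P1ae5.SuppAvgAux

variable {n : ℕ}

lemma continuous_fcis {f : Cn n → Cn n} (hf : DifferentiableOn ℂ f (ball 0 1)) {z : Cn n}
    (hz : z ∈ ball (0 : Cn n) 1) : Continuous fun θ : ℝ => f (cis θ • z) := by
  refine hf.continuousOn.comp_continuous (continuous_cis_smul z) fun θ => ?_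
  rw [mem_ball_zero_iff] at hz ⊢
  rwa [norm_smul, norm_cis, one_mul]

lemma fcis_hasFDerivAt {f : Cn n → Cn n} (hf : DifferentiableOn ℂ f (ball 0 1)) (x : ℂ) (hx : ‖x‖ = 1)
    {z : Cn n} (hz : z ∈ ball (0 : Cn n) 1) :
    HasFDerivAt (fun z => f (x • z)) (x • fderiv ℂ f (x • z)) z := by
  have h1 : x • z ∈ ball (0 : Cn n) 1 := by
    rw [mem_ball_zero_iff] at hz ⊢
    rwa [norm_smul, hx, one_mul]
  have h2 := ((hf _ h1).differentiableAt (isOpen_ball.mem_nhds h1)).hasFDerivAt
  have h3 : HasFDerivAt (fun z : Cn n => x • z) (x • ContinuousLinearMap.id ℂ (Cn n)) z :=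
    (hasFDerivAt_id z).const_smul x
  have h4 := h2.comp z h3
  refine h4.congr_fderiv ?_
  ext w
  simp

theorem wAvg_hasFDerivAt {f : Cn n → Cn n} (hf : DifferentiableOn ℂ f (ball 0 1)) {z₀ : Cn n}
    (hz₀ : z₀ ∈ ball (0 : Cn n) 1) (μ : Measure ℝ) [IsFiniteMeasure μ] {c : ℝ → ℂ}
    (hc : Continuous c) (hc1 : ∀ θ, ‖c θ‖ ≤ 1) :
    HasFDerivAt (fun z => ∫ θ, c θ • f (cis θ • z) ∂μ)
      (∫ θ, c θ • (cis θ • fderiv ℂ f (cis θ • z₀)) ∂μ) z₀ := by
  have hz := hz₀
  rw [mem_ball_zero_iff] at hz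
  set ρ : ℝ := (1 - ‖z₀‖) / 3 with hρ
  have hρ0 : 0 < ρ := by rw [hρ]; linarith
  have hr : ‖z₀‖ + 2 * ρ < 1 := by rw [hρ]; linarith
  obtain ⟨M, hM0, hM⟩ := Pool.Agent.P1ae5.SuppAvgAux.exists_bound hf hr
  have hdiff : ∀ w ∈ ball (0 : Cn n) 1, DifferentiableAt ℂ f w := fun w hw =>
    (hf w hw).differentiableAt (isOpen_ball.mem_nhds hw)
  have hin : ∀ z ∈ ball z₀ ρ, ‖z‖ ≤ ‖z₀‖ + ρ := by
    intro z hz
    rw [mem_ball, dist_eq_norm] at hz
    have := norm_add_le z₀ (z - z₀)
    rw [add_sub_cancel] at this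
    linarith
  have hbd : ∀ w : Cn n, ‖w‖ ≤ ‖z₀‖ + ρ → ‖fderiv ℂ f w‖ ≤ M / ρ := by
    intro w hw
    have hsub : closedBall w ρ ⊆ closedBall (0 : Cn n) (‖z₀‖ + 2 * ρ) := by
      intro u hu
      rw [mem_closedBall, dist_eq_norm] at hu
      rw [mem_closedBall_zero_iff]
      have := norm_add_le w (u - w)
      rw [add_sub_cancel] at this
      linarith
    exact norm_fderiv_le hρ0 hM0 (fun u hu => hdiff u (closedBall_subset_ball hr (hsub hu)))
      fun u hu => hM u (hsub hu)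
  refine hasFDerivAt_integral_of_dominated_of_fderiv_le (F := fun z θ => c θ • f (cis θ • z))
    (F' := fun z θ => c θ • (cis θ • fderiv ℂ f (cis θ • z))) (bound := fun _ => M / ρ)
    (s := ball z₀ ρ) (ball_mem_nhds z₀ hρ0) ?_ ?_ ?_ ?_ (integrable_const _) ?_
  · filter_upwards [isOpen_ball.mem_nhds hz₀] with z hz
    exact (hc.smul (continuous_fcis hf hz)).aestronglyMeasurable
  · refine Integrable.of_bound (hc.smul (continuous_fcis hf hz₀)).aestronglyMeasurable M
      (Filter.Eventually.of_forall fun θ => ?_)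
    rw [norm_smul]
    have h1 := hM (cis θ • z₀) (by
      rw [mem_closedBall_zero_iff, norm_smul, norm_cis, one_mul]; linarith)
    calc ‖c θ‖ * ‖f (cis θ • z₀)‖ ≤ 1 * M :=
          mul_le_mul (hc1 θ) h1 (norm_nonneg _) zero_le_one
      _ = M := one_mul M
  · refine Continuous.aestronglyMeasurable ?_
    refine hc.smul (continuous_cis.smul ?_)
    refine (continuousOn_fderiv hf).comp_continuous (continuous_cis_smul z₀) fun θ => ?_
    rw [mem_ball_zero_iff, norm_smul, norm_cis, one_mul]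
    exact hz
  · refine Filter.Eventually.of_forall fun θ z hz => ?_
    rw [norm_smul, norm_smul, norm_cis, one_mul]
    have h1 := hbd (cis θ • z) (by
      rw [norm_smul, norm_cis, one_mul]
      exact hin z hz)
    calc ‖c θ‖ * ‖fderiv ℂ f (cis θ • z)‖ ≤ 1 * (M / ρ) :=
          mul_le_mul (hc1 θ) h1 (norm_nonneg _) zero_le_one
      _ = M / ρ := one_mul _
  · refine Filter.Eventually.of_forall fun θ z hz => ?_
    refine HasFDerivAt.const_smul (fcis_hasFDerivAt hf (cis θ) (norm_cis θ) ?_) (c θ)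
    rw [mem_ball_zero_iff]
    have := hin z hz
    linarith

/-- the homogeneous part of degree `k` -/
noncomputable def part (k : ℕ) (f : Cn n → Cn n) (z : Cn n) : Cn n :=
  (2 * Real.pi : ℝ)⁻¹ • ∫ θ in (0 : ℝ)..2 * Real.pi, (cis θ)⁻¹ ^ k • f (cis θ • z)

lemma diff_part {f : Cn n → Cn n} (hf : DifferentiableOn ℂ f (ball 0 1)) (k : ℕ) :
    DifferentiableOn ℂ (part k f) (ball 0 1) := by
  intro z hz
  have h1 := wAvg_hasFDerivAt hf hz (volume.restrict (Set.Ioc 0 (2 * Real.pi)))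
    (c := fun θ => (cis θ)⁻¹ ^ k) ((continuous_cis.inv₀ cis_ne).pow k)
    (fun θ => by rw [norm_pow, norm_inv, norm_cis, inv_one, one_pow])
  have h2 : part k f = fun z => (2 * Real.pi : ℝ)⁻¹ •
      ∫ θ, (cis θ)⁻¹ ^ k • f (cis θ • z) ∂(volume.restrict (Set.Ioc 0 (2 * Real.pi))) := by
    funext w
    unfold part
    rw [intervalIntegral.integral_of_le (by positivity)]
  rw [h2]
  exact (h1.const_smul ((2 * Real.pi : ℝ)⁻¹)).differentiableAt.differentiableWithinAt

lemma norm_part_le {f : Cn n → Cn n} {k : ℕ} {z : Cn n} {M : ℝ}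
    (hM : ∀ θ : ℝ, ‖f (cis θ • z)‖ ≤ M) : ‖part k f z‖ ≤ M := by
  unfold part
  rw [norm_smul]
  have h1 : ‖∫ θ in (0 : ℝ)..2 * Real.pi, (cis θ)⁻¹ ^ k • f (cis θ • z)‖ ≤
      M * |2 * Real.pi - 0| := by
    refine intervalIntegral.norm_integral_le_of_norm_le_const fun θ _ => ?_
    rw [norm_smul, norm_pow, norm_inv, norm_cis, inv_one, one_pow, one_mul]
    exact hM θ
  rw [sub_zero, abs_of_pos (by positivity : (0 : ℝ) < 2 * Real.pi)] at h1
  rw [norm_inv, Real.norm_of_nonneg (by positivity : (0 : ℝ) ≤ 2 * Real.pi)]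
  calc (2 * Real.pi)⁻¹ * _ ≤ (2 * Real.pi)⁻¹ * (M * (2 * Real.pi)) := by gcongr
    _ = M := by field_simp

lemma cis_add (a b : ℝ) : cis (a + b) = cis a * cis b := by
  unfold cis
  rw [← Complex.exp_add]
  congr 1
  push_cast
  ring

lemma cis_two_pi : cis (2 * Real.pi) = 1 := by
  unfold cis
  push_cast
  rw [Complex.exp_two_pi_mul_I]

lemma part_rot (f : Cn n → Cn n) (k : ℕ) (t : ℝ) (z : Cn n) :
    part k f (cis t • z) = cis t ^ k • part k f z := by
  unfold part
  have hper : Function.Periodic (fun θ : ℝ => (cis θ)⁻¹ ^ k • f (cis θ • z)) (2 * Real.pi) := by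
    intro θ
    simp only [cis_add, cis_two_pi, mul_one]
  have h1 : ∀ θ : ℝ, (cis θ)⁻¹ ^ k • f (cis θ • cis t • z) =
      cis t ^ k • ((cis (θ + t))⁻¹ ^ k • f (cis (θ + t) • z)) := by
    intro θ
    rw [smul_smul, smul_smul, cis_add]
    congr 1
    rw [← mul_pow]
    congr 1
    rw [mul_inv, mul_comm (cis θ)⁻¹, ← mul_assoc, mul_inv_cancel₀ (cis_ne t), one_mul]
  simp only [h1]
  rw [intervalIntegral.integral_smul, smul_comm]
  congr 2
  have h2 := intervalIntegral.integral_comp_add_right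
    (fun θ : ℝ => (cis θ)⁻¹ ^ k • f (cis θ • z)) t (a := 0) (b := 2 * Real.pi)
  rw [h2]
  have h3 := hper.intervalIntegral_add_eq (0 + t) 0
  rw [zero_add, zero_add] at h3
  rw [zero_add, add_comm (2 * Real.pi) t]
  exact h3

lemma exists_cis {l : ℂ} (hl : ‖l‖ = 1) : ∃ t : ℝ, cis t = l := by
  refine ⟨Complex.arg l, ?_⟩
  unfold cis
  have := Complex.norm_mul_exp_arg_mul_I l
  rwa [hl, Complex.ofReal_one, one_mul] at this

/-- homogeneity -/
lemma part_hom {f : Cn n → Cn n} (hf : DifferentiableOn ℂ f (ball 0 1)) (k : ℕ) {z : Cn n}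
    (hz : z ∈ ball (0 : Cn n) 1) {l : ℂ} (hl : ‖l‖ ≤ 1) :
    part k f (l • z) = l ^ k • part k f z := by
  have hin : ∀ w ∈ closedBall (0 : ℂ) 1, w • z ∈ ball (0 : Cn n) 1 := by
    intro w hw
    rw [mem_closedBall_zero_iff] at hw
    rw [mem_ball_zero_iff] at hz ⊢
    rw [norm_smul]
    exact lt_of_le_of_lt (mul_le_of_le_one_left (norm_nonneg z) hw) hz
  have hd1 : DiffContOnCl ℂ (fun w : ℂ => part k f (w • z)) (ball 0 1) := by
    refine DifferentiableOn.diffContOnCl ?_
    rw [closure_ball _ one_ne_zero]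
    intro w hw
    have h1 := (diff_part hf k _ (hin w hw)).differentiableAt (isOpen_ball.mem_nhds (hin w hw))
    have h2 : DifferentiableAt ℂ (fun w : ℂ => w • z) w := by fun_prop
    exact (DifferentiableAt.comp (g := part k f) w h1 h2).differentiableWithinAt
  have hd2 : DiffContOnCl ℂ (fun w : ℂ => w ^ k • part k f z) (ball 0 1) := by
    refine DifferentiableOn.diffContOnCl ?_
    exact ((differentiable_id.pow k).smul_const _).differentiableOn
  have h3 := Complex.eqOn_closure_of_eqOn_frontier isBounded_ball hd1 hd2 (fun w hw => by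
    rw [frontier_ball _ one_ne_zero, mem_sphere_zero_iff_norm] at hw
    obtain ⟨t, rfl⟩ := exists_cis hw
    exact part_rot f k t z)
  refine h3 ?_
  rw [closure_ball _ one_ne_zero, mem_closedBall_zero_iff]
  exact hl

/-- the Taylor expansion in homogeneous parts -/
lemma hasSum_part {f : Cn n → Cn n} (hf : DifferentiableOn ℂ f (ball 0 1)) {z : Cn n}
    (hz : z ∈ ball (0 : Cn n) 1) : HasSum (fun k => part k f z) (f z) := by
  rcases eq_or_ne z 0 with rfl | hz0
  · have h0 : ∀ k, part k f (0 : Cn n) = (0 : ℂ) ^ k • part k f (0 : Cn n) := by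
      intro k
      have := part_hom hf k hz (l := 0) (by simp)
      rwa [smul_zero] at this
    have h1 : ∀ k, k ≠ 0 → part k f (0 : Cn n) = 0 := by
      intro k hk
      rw [h0 k, zero_pow hk, zero_smul]
    have h2 : part 0 f (0 : Cn n) = f 0 := by
      unfold part
      simp only [pow_zero, smul_zero, one_smul]
      rw [intervalIntegral.integral_const, sub_zero, smul_smul,
        inv_mul_cancel₀ (by positivity : (2 * Real.pi : ℝ) ≠ 0), one_smul]
    rw [← h2]
    exact hasSum_single 0 fun k hk => h1 k hk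
  -- radius
  rw [mem_ball_zero_iff] at hz
  have hz1 : 0 < ‖z‖ := norm_pos_iff.2 hz0
  set s : ℝ := (1 + ‖z‖) / 2 with hs
  have hs0 : 0 < s := by rw [hs]; linarith
  have hs1 : ‖z‖ < s := by rw [hs]; linarith
  have hs2 : s < 1 := by rw [hs]; linarith
  set w : Cn n := ((s / ‖z‖ : ℝ) : ℂ) • z with hw
  set l : ℂ := ((‖z‖ / s : ℝ) : ℂ) with hl
  have hlz : l • w = z := by
    rw [hw, hl, smul_smul, ← Complex.ofReal_mul]
    have : ‖z‖ / s * (s / ‖z‖) = 1 := by field_simp
    rw [this, Complex.ofReal_one, one_smul]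
  have hwn : ‖w‖ = s := by
    rw [hw, norm_smul, Complex.norm_real, Real.norm_of_nonneg (by positivity)]
    field_simp
  have hl1 : ‖l‖ < 1 := by
    rw [hl, Complex.norm_real, Real.norm_of_nonneg (by positivity), div_lt_one hs0]
    exact hs1
  have hwb : w ∈ ball (0 : Cn n) 1 := by rw [mem_ball_zero_iff, hwn]; exact hs2
  have hin : ∀ u ∈ closedBall (0 : ℂ) 1, u • w ∈ ball (0 : Cn n) 1 := by
    intro u hu
    rw [mem_closedBall_zero_iff] at hu
    rw [mem_ball_zero_iff, norm_smul, hwn]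
    exact lt_of_le_of_lt (mul_le_of_le_one_left hs0.le hu) hs2
  set φ : ℂ → Cn n := fun u => f (u • w) with hφ
  have hφd : ∀ u ∈ closedBall (0 : ℂ) 1, DifferentiableAt ℂ φ u := by
    intro u hu
    have h1 := (hf _ (hin u hu)).differentiableAt (isOpen_ball.mem_nhds (hin u hu))
    have h2 : DifferentiableAt ℂ (fun u : ℂ => u • w) u := by fun_prop
    exact DifferentiableAt.comp (g := f) u h1 h2
  have hφc : ContinuousOn φ (sphere 0 1) := fun u hu =>
    (hφd u (sphere_subset_closedBall hu)).continuousAt.continuousWithinAt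
  have h1 := hasSum_cauchyPowerSeries_integral (f := φ) (c := 0) (R := 1) (w := l)
    (hφc.circleIntegrable zero_le_one) hl1
  have h2 : (2 * Real.pi * Complex.I : ℂ)⁻¹ • ∮ u in C(0, 1), (u - (0 + l))⁻¹ • φ u = φ l := by
    rw [zero_add]
    refine Complex.two_pi_I_inv_smul_circleIntegral_sub_inv_smul_of_differentiable_on_off_countable
      (s := ∅) Set.countable_empty (by rwa [mem_ball_zero_iff]) ?_ ?_
    · exact fun u hu => (hφd u hu).continuousAt.continuousWithinAt
    · exact fun u hu => hφd u (ball_subset_closedBall hu.1)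
  rw [h2] at h1
  have h3 : φ l = f z := by rw [hφ]; simp only; rw [hlz]
  rw [h3] at h1
  have h4 : ∀ k, part k f z = cauchyPowerSeries φ 0 1 k fun _ => l := by
    intro k
    rw [← hlz, part_hom hf k hwb hl1.le, cauchyPowerSeries_apply]
    unfold part
    rw [circleIntegral]
    simp only [deriv_circleMap, circleMap_zero, sub_zero]
    rw [← intervalIntegral.integral_smul, ← intervalIntegral.integral_smul,
      ← intervalIntegral.integral_smul]
    congr 1
    funext θ
    have hc : Complex.exp ((θ : ℂ) * Complex.I) = cis θ := rfl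
    rw [Complex.ofReal_one, one_mul, hc]
    rw [← Complex.coe_smul]
    simp only [smul_smul]
    congr 1
    have hcis := cis_ne θ
    have hpi : (Real.pi : ℂ) ≠ 0 := by exact_mod_cast Real.pi_ne_zero
    push_cast
    rw [div_eq_mul_inv, mul_pow]
    field_simp
  have h5 : (fun k => part k f z) = fun k => cauchyPowerSeries φ 0 1 k fun _ => l := funext h4
  rw [h5]
  exact h1

lemma part_zero_eq {f : Cn n → Cn n} (hf : DifferentiableOn ℂ f (ball 0 1)) {z : Cn n}
    (hz : z ∈ ball (0 : Cn n) 1) : part 0 f z = f 0 := by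
  have h1 := part_hom hf 0 hz (l := 0) (by simp)
  rw [zero_smul, pow_zero, one_smul] at h1
  rw [← h1]
  unfold part
  simp only [pow_zero, smul_zero, one_smul]
  rw [intervalIntegral.integral_const, sub_zero, smul_smul,
    inv_mul_cancel₀ (by positivity : (2 * Real.pi : ℝ) ≠ 0), one_smul]

lemma part_one_eq {f : Cn n → Cn n} (hf : DifferentiableOn ℂ f (ball 0 1)) {z : Cn n}
    (hz : z ∈ ball (0 : Cn n) 1) : part 1 f z = fderiv ℂ f 0 z := by
  have hzn := hz
  rw [mem_ball_zero_iff] at hzn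
  -- a disc of radius larger than 1
  obtain ⟨s, hs1, hs2⟩ : ∃ s : ℝ, 1 < s ∧ s * ‖z‖ < 1 := by
    rcases (norm_nonneg z).eq_or_lt with h0 | h0
    · exact ⟨2, by norm_num, by rw [← h0]; norm_num⟩
    · refine ⟨(1 + ‖z‖⁻¹) / 2, ?_, ?_⟩
      · have := (one_lt_inv₀ h0).2 hzn
        linarith
      · have : (1 + ‖z‖⁻¹) / 2 * ‖z‖ = (‖z‖ + 1) / 2 := by field_simp
        rw [this]
        linarith
  have hin : ∀ u ∈ ball (0 : ℂ) s, u • z ∈ ball (0 : Cn n) 1 := by
    intro u hu
    rw [mem_ball_zero_iff] at hu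
    rw [mem_ball_zero_iff, norm_smul]
    exact lt_of_le_of_lt (mul_le_mul_of_nonneg_right hu.le (norm_nonneg z)) hs2
  set φ : ℂ → Cn n := fun u => f (u • z) with hφ
  have hφd : DifferentiableOn ℂ φ (ball 0 s) := by
    intro u hu
    have h1 := (hf _ (hin u hu)).differentiableAt (isOpen_ball.mem_nhds (hin u hu))
    have h2 : DifferentiableAt ℂ (fun u : ℂ => u • z) u := by fun_prop
    exact (DifferentiableAt.comp (g := f) u h1 h2).differentiableWithinAt
  have h1 := Complex.two_pi_I_inv_smul_circleIntegral_sub_sq_inv_smul_of_differentiable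
    (c := 0) (w₀ := 0) (R := 1) isOpen_ball (closedBall_subset_ball hs1) hφd
    (mem_ball_self one_pos)
  have h2 : deriv φ 0 = fderiv ℂ f 0 z := by
    have h3 : HasFDerivAt f (fderiv ℂ f ((0 : ℂ) • z)) ((0 : ℂ) • z) :=
      ((hf _ (hin 0 (mem_ball_self (by linarith)))).differentiableAt
        (isOpen_ball.mem_nhds (hin 0 (mem_ball_self (by linarith))))).hasFDerivAt
    have h4 : HasDerivAt (fun t : ℂ => t • z) z 0 := by
      simpa using (hasDerivAt_id (0 : ℂ)).smul_const z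
    have h5 := h3.comp_hasDerivAt (0 : ℂ) h4
    rw [zero_smul] at h5
    exact h5.deriv
  rw [h2] at h1
  rw [← h1]
  unfold part
  rw [circleIntegral]
  simp only [deriv_circleMap, circleMap_zero, sub_zero]
  rw [← intervalIntegral.integral_smul, ← intervalIntegral.integral_smul]
  congr 1
  funext θ
  have hc : Complex.exp ((θ : ℂ) * Complex.I) = cis θ := rfl
  rw [Complex.ofReal_one, one_mul, hc]
  rw [← Complex.coe_smul]
  simp only [smul_smul]
  congr 1
  have hcis := cis_ne θ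
  have hpi : (Real.pi : ℂ) ≠ 0 := by exact_mod_cast Real.pi_ne_zero
  push_cast
  field_simp

/-- homogeneous holomorphic maps of degree `k` -/
def IsHom (k : ℕ) (v : Cn n → Cn n) : Prop :=
  Differentiable ℂ v ∧ ∀ (l : ℂ) (z : Cn n), v (l • z) = l ^ k • v z

/-- homogeneous maps of the ball extend to the whole space -/
lemma exists_hom {g : Cn n → Cn n} (hg : DifferentiableOn ℂ g (ball 0 1)) {k : ℕ}
    (hk : ∀ z ∈ ball (0 : Cn n) 1, ∀ l : ℂ, ‖l‖ ≤ 1 → g (l • z) = l ^ k • g z) :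
    ∃ V : Cn n → Cn n, IsHom k V ∧ ∀ z ∈ ball (0 : Cn n) 1, V z = g z := by
  set V : Cn n → Cn n := fun z => ((1 + ‖z‖ : ℝ) : ℂ) ^ k • g (((1 + ‖z‖)⁻¹ : ℝ) • z) with hV
  have key : ∀ (z : Cn n) (t : ℝ), 0 < t → t * ‖z‖ < 1 → V z = ((t⁻¹ : ℝ) : ℂ) ^ k • g (t • z) := by
    intro z t ht htz
    have hb : ∀ t : ℝ, 0 < t → t * ‖z‖ < 1 → t • z ∈ ball (0 : Cn n) 1 := by
      intro t ht htz
      rw [mem_ball_zero_iff, norm_smul, Real.norm_of_nonneg ht.le]
      exact htz
    have hcmp : ∀ s t : ℝ, 0 < s → s ≤ t → t * ‖z‖ < 1 →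
        ((s⁻¹ : ℝ) : ℂ) ^ k • g (s • z) = ((t⁻¹ : ℝ) : ℂ) ^ k • g (t • z) := by
      intro s t hs hst htz
      have ht : 0 < t := hs.trans_le hst
      have h1 : s • z = ((s / t : ℝ) : ℂ) • (t • z) := by
        rw [Complex.coe_smul, smul_smul]
        congr 1
        field_simp
      rw [h1, hk _ (hb t ht htz) _ (by
        rw [Complex.norm_real, Real.norm_of_nonneg (by positivity)]
        exact (div_le_one ht).2 hst), smul_smul, ← mul_pow]
      congr 2
      rw [← Complex.ofReal_mul]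
      congr 1
      field_simp
    have h0 : 0 < (1 + ‖z‖)⁻¹ := by positivity
    have h1 : (1 + ‖z‖)⁻¹ * ‖z‖ < 1 := by
      rw [inv_mul_lt_iff₀ (by positivity)]
      linarith
    have h2 : V z = (((1 + ‖z‖)⁻¹⁻¹ : ℝ) : ℂ) ^ k • g ((1 + ‖z‖)⁻¹ • z) := by
      rw [inv_inv]
    rw [h2]
    rcases le_total (1 + ‖z‖)⁻¹ t with h3 | h3
    · exact hcmp _ _ h0 h3 htz
    · exact (hcmp _ _ ht h3 h1).symm
  refine ⟨V, ⟨?_, ?_⟩, ?_⟩
  · intro z₀
    set t : ℝ := (2 + ‖z₀‖)⁻¹ with ht
    have ht0 : 0 < t := by positivity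
    have hloc : ∀ z ∈ ball z₀ 1, t * ‖z‖ < 1 := by
      intro z hz
      rw [mem_ball, dist_eq_norm] at hz
      have h1 := norm_add_le z₀ (z - z₀)
      rw [add_sub_cancel] at h1
      rw [ht, inv_mul_lt_iff₀ (by positivity)]
      linarith
    have h1 : DifferentiableAt ℂ (fun z : Cn n => ((t⁻¹ : ℝ) : ℂ) ^ k • g ((t : ℂ) • z)) z₀ := by
      have h2 : (t : ℂ) • z₀ ∈ ball (0 : Cn n) 1 := by
        rw [mem_ball_zero_iff, norm_smul, Complex.norm_real, Real.norm_of_nonneg ht0.le]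
        exact hloc z₀ (mem_ball_self one_pos)
      have h3 := (hg _ h2).differentiableAt (isOpen_ball.mem_nhds h2)
      have h4 : DifferentiableAt ℂ (fun z : Cn n => (t : ℂ) • z) z₀ := by fun_prop
      exact (DifferentiableAt.comp (g := g) z₀ h3 h4).const_smul (((t⁻¹ : ℝ) : ℂ) ^ k)
    refine h1.congr_of_eventuallyEq ?_
    filter_upwards [isOpen_ball.mem_nhds (mem_ball_self (x := z₀) one_pos)] with z hz
    rw [key z t ht0 (hloc z hz), Complex.coe_smul]
  · have hle : ∀ (l : ℂ) (z : Cn n), ‖l‖ ≤ 1 → V (l • z) = l ^ k • V z := by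
      intro l z hl
      set t : ℝ := (1 + ‖z‖)⁻¹ with ht
      have ht0 : 0 < t := by positivity
      have h1 : t * ‖z‖ < 1 := by
        rw [ht, inv_mul_lt_iff₀ (by positivity)]
        linarith
      have h2 : t * ‖l • z‖ < 1 := by
        rw [norm_smul]
        refine lt_of_le_of_lt ?_ h1
        gcongr
        exact mul_le_of_le_one_left (norm_nonneg z) hl
      rw [key _ t ht0 h2, key _ t ht0 h1, smul_comm t l z, hk (t • z) (by
        rw [mem_ball_zero_iff, norm_smul, Real.norm_of_nonneg ht0.le]; exact h1) l hl, smul_comm]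
    intro l z
    rcases le_total ‖l‖ 1 with hl | hl
    · exact hle l z hl
    · have hl0 : l ≠ 0 := by
        intro h
        rw [h, norm_zero] at hl
        linarith
      have h1 := hle l⁻¹ (l • z) (by rw [norm_inv]; exact inv_le_one_of_one_le₀ hl)
      rw [smul_smul, inv_mul_cancel₀ hl0, one_smul] at h1
      rw [h1, smul_smul, ← mul_pow, mul_inv_cancel₀ hl0, one_pow, one_smul]
  · intro z hz
    rw [mem_ball_zero_iff] at hz
    rw [key z 1 one_pos (by linarith)]
    simp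

end Pool.Agent.P1ae5m
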