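import Pool.Agent.Lib.P1ae5m.Forth

/-!
Test measures do not charge peak sets.
-/

open Metric MeasureTheory Filter Topology

namespace Pool.Agent.P1ae5m

open Pool.Agent.P1ae5 (Cn ip NA IsSupport IsExtreme IsFunctional exists_lower
  not_support_of_minorant)

variable {n : ℕ}

lemma mobius_lt {a w : ℂ} (ha : ‖a‖ < 1) (hw : ‖w‖ < 1) :
    ‖w - a‖ < ‖1 - (starRingEnd ℂ) a * w‖ := by
  rw [← sq_lt_sq₀ (norm_nonneg _) (norm_nonneg _), ← Complex.normSq_eq_norm_sq,
    ← Complex.normSq_eq_norm_sq]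
  have h1 : Complex.normSq a < 1 := by
    rw [Complex.normSq_eq_norm_sq]; nlinarith [norm_nonneg a]
  have h2 : Complex.normSq w < 1 := by
    rw [Complex.normSq_eq_norm_sq]; nlinarith [norm_nonneg w]
  have h3 : Complex.normSq (1 - (starRingEnd ℂ) a * w) - Complex.normSq (w - a) =
      (1 - Complex.normSq a) * (1 - Complex.normSq w) := by
    simp only [Complex.normSq_apply, Complex.sub_re, Complex.sub_im, Complex.mul_re,
      Complex.mul_im, Complex.conj_re, Complex.conj_im, Complex.one_re, Complex.one_im]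
    ring
  have h4 : 0 < (1 - Complex.normSq a) * (1 - Complex.normSq w) :=
    mul_pos (by linarith) (by linarith)
  linarith

lemma mobius_den {a w : ℂ} (ha : ‖a‖ < 1) (hw : ‖w‖ ≤ 1) : 1 - (starRingEnd ℂ) a * w ≠ 0 := by
  intro h
  have h1 : (starRingEnd ℂ) a * w = 1 := (sub_eq_zero.1 h).symm
  have h2 : ‖(starRingEnd ℂ) a * w‖ < 1 := by
    rw [norm_mul, RCLike.norm_conj]
    nlinarith [norm_nonneg a, norm_nonneg w]
  rw [h1, norm_one] at h2
  exact lt_irrefl _ h2

/-- a peak function vanishing at the origin -/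
lemma exists_peak0 {K : Set (Cn n)} (hK : IsPeak K) :
    ∃ g : Cn n → ℂ, ContinuousOn g (closedBall 0 1) ∧ DifferentiableOn ℂ g (ball 0 1) ∧
      (∀ z ∈ K, g z = 1) ∧ (∀ z ∈ closedBall (0 : Cn n) 1, z ∉ K → ‖g z‖ < 1) ∧ g 0 = 0 := by
  obtain ⟨hKs, f, hfc, hfd, hf1, hf2⟩ := hK
  have h0K : (0 : Cn n) ∉ K := fun h => by
    have := hKs h
    rw [mem_sphere_zero_iff_norm, norm_zero] at this
    exact zero_ne_one this
  set a : ℂ := f 0 with ha
  have ha1 : ‖a‖ < 1 := hf2 0 (by simp) h0K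
  have hle : ∀ z ∈ closedBall (0 : Cn n) 1, ‖f z‖ ≤ 1 := by
    intro z hz
    by_cases hzK : z ∈ K
    · rw [hf1 z hzK, norm_one]
    · exact (hf2 z hz hzK).le
  have h1a : (1 : ℂ) - a ≠ 0 := by
    intro h
    have : a = 1 := (sub_eq_zero.1 h).symm
    rw [this, norm_one] at ha1
    exact lt_irrefl _ ha1
  have h1a' : (1 : ℂ) - (starRingEnd ℂ) a ≠ 0 := by
    have := mobius_den (w := 1) ha1 (by simp)
    rwa [mul_one] at this
  set u : ℂ := (1 - (starRingEnd ℂ) a) / (1 - a) with hu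
  have hu1 : ‖u‖ = 1 := by
    have : (1 : ℂ) - (starRingEnd ℂ) a = (starRingEnd ℂ) (1 - a) := by simp
    rw [hu, norm_div, this, RCLike.norm_conj, div_self (norm_ne_zero_iff.2 h1a)]
  refine ⟨fun z => u * ((f z - a) * (1 - (starRingEnd ℂ) a * f z)⁻¹), ?_, ?_, ?_, ?_, ?_⟩
  · exact continuousOn_const.mul ((hfc.sub continuousOn_const).mul
      ((continuousOn_const.sub (continuousOn_const.mul hfc)).inv₀
        fun z hz => mobius_den ha1 (hle z hz)))
  · exact (differentiableOn_const _).fun_mul ((hfd.fun_sub (differentiableOn_const _)).fun_mul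
      (((differentiableOn_const _).fun_sub ((differentiableOn_const _).fun_mul hfd)).fun_inv
      fun z hz => mobius_den ha1 (hle z (ball_subset_closedBall hz))))
  · intro z hz
    simp only [hf1 z hz, mul_one]
    rw [hu]
    field_simp
  · intro z hz hzK
    simp only []
    rw [norm_mul, hu1, one_mul, ← div_eq_mul_inv, norm_div]
    rw [div_lt_one (norm_pos_iff.2 (mobius_den ha1 (hle z hz)))]
    exact mobius_lt ha1 (hf2 z hz hzK)
  · simp only [← ha, sub_self, zero_mul, mul_zero]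

lemma peak_eq {K : Set (Cn n)} (hKs : K ⊆ sphere 0 1) {g : Cn n → ℂ}
    (h1 : ∀ z ∈ K, g z = 1) (h2 : ∀ z ∈ closedBall (0 : Cn n) 1, z ∉ K → ‖g z‖ < 1) :
    K = closedBall (0 : Cn n) 1 ∩ g ⁻¹' {1} := by
  ext z
  constructor
  · intro hz
    exact ⟨sphere_subset_closedBall (hKs hz), h1 z hz⟩
  · rintro ⟨hz, hz1⟩
    by_contra hzK
    have := h2 z hz hzK
    rw [show g z = 1 from hz1, norm_one] at this
    exact lt_irrefl _ this

/-- **Test measures do not charge peak sets.** -/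
theorem peak_null {ν : Measure (Cn n)} (hν : IsTestB ν) {K : Set (Cn n)} (hK : IsPeak K) :
    ν K = 0 := by
  obtain ⟨g, hgc, hgd, hg1, hg2, hg0⟩ := exists_peak0 hK
  have hKe := peak_eq hK.1 hg1 hg2
  have hKcl : IsClosed K := by
    rw [hKe]
    exact hgc.preimage_isClosed_of_isClosed isClosed_closedBall isClosed_singleton
  obtain ⟨hP, hS, ρ, C, hρ0, hρ1, hT⟩ := hν
  have hle : ∀ z ∈ closedBall (0 : Cn n) 1, ‖g z‖ ≤ 1 := by
    intro z hz
    by_cases hzK : z ∈ K
    · rw [hg1 z hzK, norm_one]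
    · exact (hg2 z hz hzK).le
  have hlt : ∀ z ∈ ball (0 : Cn n) 1, ‖g z‖ < 1 := by
    intro z hz
    refine hg2 z (ball_subset_closedBall hz) fun hzK => ?_
    have h1 := hK.1 hzK
    rw [mem_sphere_zero_iff_norm] at h1
    rw [mem_ball_zero_iff, h1] at hz
    exact lt_irrefl _ hz
  -- the maximum on the ball of radius `ρ`
  obtain ⟨z1, hz1, hz1m⟩ := (isCompact_closedBall (0 : Cn n) ρ).exists_isMaxOn
    ⟨0, mem_closedBall_self hρ0.le⟩
    ((hgc.mono (closedBall_subset_closedBall hρ1.le)).norm)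
  set η : ℝ := ‖g z1‖ with hη
  have hη1 : η < 1 := hlt z1 (closedBall_subset_ball hρ1 hz1)
  have hη0 : 0 ≤ η := norm_nonneg _
  have hηm : ∀ z : Cn n, ‖z‖ ≤ ρ → ‖g z‖ ≤ η := fun z hz => hz1m (mem_closedBall_zero_iff.2 hz)
  -- the test bound
  have hstep : ∀ k : ℕ, 1 ≤ k → ∀ s : ℝ, 0 < s → s < 1 →
      ‖∫ ζ, g ((s : ℂ) • ζ) ^ k ∂ν‖ ≤ C * η ^ k := by
    intro k hk s hs0 hs1
    have hmaps : ∀ z ∈ ball (0 : Cn n) s⁻¹, (s : ℂ) • z ∈ ball (0 : Cn n) 1 := by
      intro z hz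
      rw [mem_ball_zero_iff] at hz ⊢
      rw [norm_smul, Complex.norm_real, Real.norm_of_nonneg hs0.le]
      calc s * ‖z‖ < s * s⁻¹ := by gcongr
        _ = 1 := mul_inv_cancel₀ hs0.ne'
    have hgs : DifferentiableOn ℂ (fun z : Cn n => g ((s : ℂ) • z)) (ball 0 s⁻¹) :=
      hgd.comp (differentiable_id.const_smul (s : ℂ)).differentiableOn hmaps
    have hs1' : 1 < s⁻¹ := (one_lt_inv₀ hs0).2 hs1
    have hd : DifferentiableOn ℂ (fun z : Cn n => (g ((s : ℂ) • z) ^ k) • z) (ball 0 s⁻¹) :=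
      (hgs.fun_pow k).fun_smul differentiableOn_id
    have hfd : fderiv ℂ (fun z : Cn n => (g ((s : ℂ) • z) ^ k) • z) 0 = 0 := by
      have h1 : HasFDerivAt (fun z : Cn n => g ((s : ℂ) • z) ^ k) _ 0 :=
        (((hgs.fun_pow k) 0 (mem_ball_self (by linarith))).differentiableAt
          (ball_mem_nhds 0 (by linarith))).hasFDerivAt
      have h2 := h1.fun_smul (hasFDerivAt_id (0 : Cn n))
      have h3 : HasFDerivAt (fun z : Cn n => (g ((s : ℂ) • z) ^ k) • z) (0 : Cn n →L[ℂ] Cn n) 0 := by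
        refine h2.congr_fderiv ?_
        ext z
        simp [hg0, zero_pow (show k ≠ 0 by omega)]
      exact h3.fderiv
    have h4 := hT _ s⁻¹ hs1' hd (by simp) hfd (η ^ k) (fun z hz => by
      rw [norm_smul, norm_pow]
      have h5 : ‖g ((s : ℂ) • z)‖ ≤ η := by
        refine hηm _ ?_
        rw [norm_smul, Complex.norm_real, Real.norm_of_nonneg hs0.le]
        nlinarith [norm_nonneg z]
      calc ‖g ((s : ℂ) • z)‖ ^ k * ‖z‖ ≤ η ^ k * 1 := by
            gcongr
            linarith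
        _ = η ^ k := mul_one _)
    have h6 : ∫ ζ, g ((s : ℂ) • ζ) ^ k ∂ν =
        ∫ ζ, Pool.Agent.P1ae5.St.sp ((g ((s : ℂ) • ζ) ^ k) • ζ) ζ ∂ν := by
      refine integral_congr_ae ?_
      filter_upwards [ae_sphere hS] with ζ hζ
      change _ = ip ((g ((s : ℂ) • ζ) ^ k) • ζ) ζ
      rw [ip_smul, ip_self, hζ]
      simp
    rw [h6]
    exact h4
  -- `s → 1`
  have hlimit : ∀ k : ℕ, 1 ≤ k → ‖∫ ζ, g ζ ^ k ∂ν‖ ≤ C * η ^ k := by
    intro k hk
    have h1 : Tendsto (fun s : ℝ => ∫ ζ, g ((s : ℂ) • ζ) ^ k ∂ν) (𝓝[<] 1)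
        (𝓝 (∫ ζ, g ζ ^ k ∂ν)) := by
      refine tendsto_integral_filter_of_dominated_convergence (fun _ => 1) ?_ ?_
        (integrable_const 1) ?_
      · filter_upwards [Ioo_mem_nhdsLT (show (0 : ℝ) < 1 by norm_num)] with s hs
        refine (integrable_sphere hS (ContinuousOn.pow ?_ k)).aestronglyMeasurable
        refine hgc.comp (continuous_const_smul _).continuousOn fun z hz => ?_
        rw [mem_sphere_zero_iff_norm] at hz
        rw [mem_closedBall_zero_iff, norm_smul, Complex.norm_real, Real.norm_of_nonneg hs.1.le, hz,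
          mul_one]
        exact hs.2.le
      · filter_upwards [Ioo_mem_nhdsLT (show (0 : ℝ) < 1 by norm_num)] with s hs
        filter_upwards [ae_sphere hS] with ζ hζ
        rw [norm_pow]
        refine pow_le_one₀ (norm_nonneg _) (hle _ ?_)
        rw [mem_closedBall_zero_iff, norm_smul, Complex.norm_real, Real.norm_of_nonneg hs.1.le, hζ,
          mul_one]
        exact hs.2.le
      · filter_upwards [ae_sphere hS] with ζ hζ
        refine Tendsto.pow ?_ k
        have h2 : Tendsto (fun s : ℝ => (s : ℂ) • ζ) (𝓝[<] 1) (𝓝[closedBall 0 1] ζ) := by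
          refine tendsto_nhdsWithin_iff.2 ⟨?_, ?_⟩
          · have h3 : Tendsto (fun s : ℝ => (s : ℂ) • ζ) (𝓝 1) (𝓝 (((1 : ℝ) : ℂ) • ζ)) :=
              ((Complex.continuous_ofReal.tendsto 1).smul_const ζ)
            rw [Complex.ofReal_one, one_smul] at h3
            exact h3.mono_left nhdsWithin_le_nhds
          · filter_upwards [Ioo_mem_nhdsLT (show (0 : ℝ) < 1 by norm_num)] with s hs
            rw [mem_closedBall_zero_iff, norm_smul, Complex.norm_real,
              Real.norm_of_nonneg hs.1.le, hζ, mul_one]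
            exact hs.2.le
        exact (hgc ζ (by rw [mem_closedBall_zero_iff, hζ])).tendsto.comp h2
    refine le_of_tendsto h1.norm ?_
    filter_upwards [Ioo_mem_nhdsLT (show (0 : ℝ) < 1 by norm_num)] with s hs
    exact hstep k hk s hs.1 hs.2
  -- `k → ∞`
  have h2 : Tendsto (fun k : ℕ => ∫ ζ, g ζ ^ k ∂ν) atTop
      (𝓝 (∫ ζ, K.indicator (fun _ => (1 : ℂ)) ζ ∂ν)) := by
    refine tendsto_integral_of_dominated_convergence (fun _ => 1) ?_ (integrable_const 1) ?_ ?_
    · intro k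
      exact (integrable_sphere hS ((hgc.mono sphere_subset_closedBall).pow k)).aestronglyMeasurable
    · intro k
      filter_upwards [ae_sphere hS] with ζ hζ
      rw [norm_pow]
      exact pow_le_one₀ (norm_nonneg _) (hle _ (by rw [mem_closedBall_zero_iff, hζ]))
    · filter_upwards [ae_sphere hS] with ζ hζ
      by_cases hζK : ζ ∈ K
      · rw [Set.indicator_of_mem hζK]
        simp only [hg1 ζ hζK, one_pow]
        exact tendsto_const_nhds
      · rw [Set.indicator_of_notMem hζK]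
        exact tendsto_pow_atTop_nhds_zero_of_norm_lt_one
          (hg2 ζ (by rw [mem_closedBall_zero_iff, hζ]) hζK)
  have h3 : Tendsto (fun k : ℕ => C * η ^ k) atTop (𝓝 0) := by
    have := (tendsto_pow_atTop_nhds_zero_of_lt_one hη0 hη1).const_mul C
    rwa [mul_zero] at this
  have h4 : ‖∫ ζ, K.indicator (fun _ => (1 : ℂ)) ζ ∂ν‖ ≤ 0 := by
    refine le_of_tendsto_of_tendsto h2.norm h3 ?_
    filter_upwards [eventually_ge_atTop 1] with k hk
    exact hlimit k hk
  rw [integral_indicator hKcl.measurableSet] at h4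
  simp only [integral_const, measureReal_restrict_apply MeasurableSet.univ, Set.univ_inter,
    Complex.real_smul, mul_one, Complex.norm_real] at h4
  have h5 : ν.real K = 0 := by
    have := norm_le_zero_iff.1 h4
    exact this
  rwa [measureReal_eq_zero_iff] at h5

/-- a test measure with vanishing integrals is carried by the zeros -/
lemma ae_rzero {ν : Measure (Cn n)} (hν : IsTestB ν) {A : Cn n →L[ℂ] Cn n} {h : Cn n → Cn n}
    (hh : h ∈ NA A) (hv : Vanishes ν h) : ∀ᵐ ζ ∂ν, ζ ∈ rzero h := by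
  obtain ⟨hP, hS, -⟩ := hν
  set r : ℕ → ℝ := fun k => 1 - 1 / ((k : ℝ) + 2) with hr
  have hr01 : ∀ k, r k ∈ Set.Ioo (0 : ℝ) 1 := by
    intro k
    have h1 : (0 : ℝ) < 1 / ((k : ℝ) + 2) := by positivity
    have h2 : 1 / ((k : ℝ) + 2) < 1 := by
      rw [div_lt_one (by positivity)]
      have : (0 : ℝ) ≤ k := Nat.cast_nonneg k
      linarith
    exact ⟨by simp only [hr]; linarith, by simp only [hr]; linarith⟩
  have hrt : Tendsto r atTop (𝓝[<] 1) := by
    refine tendsto_nhdsWithin_iff.2 ⟨?_, Filter.Eventually.of_forall fun k => (hr01 k).2⟩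
    have h1 : Tendsto (fun k : ℕ => 1 / ((k : ℝ) + 2)) atTop (𝓝 0) := by
      have h2 := (tendsto_one_div_add_atTop_nhds_zero_nat (𝕜 := ℝ)).comp (tendsto_add_atTop_nat 1)
      refine h2.congr fun k => ?_
      simp only [Function.comp_apply]
      push_cast
      ring_nf
    have h3 := h1.const_sub 1
    rwa [sub_zero] at h3
  have hint : ∀ k, Integrable (fun ζ => (ip (h ((r k : ℂ) • ζ)) ζ).re) ν := by
    intro k
    have hcont : ContinuousOn (fun ζ : Cn n => h ((r k : ℂ) • ζ)) (sphere 0 1) := by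
      refine hh.1.continuousOn.comp (continuous_const_smul _).continuousOn fun z hz => ?_
      rw [mem_sphere_zero_iff_norm] at hz
      rw [mem_ball_zero_iff, norm_smul, Complex.norm_real, Real.norm_of_nonneg (hr01 k).1.le, hz,
        mul_one]
      exact (hr01 k).2
    exact integrable_sphere hS (Complex.continuous_re.comp_continuousOn
      (continuous_ip hcont continuousOn_id))
  have hlim : Tendsto (fun k => ∫ ζ, (ip (h ((r k : ℂ) • ζ)) ζ).re ∂ν) atTop (𝓝 0) :=
    hv.comp hrt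
  have h1 : ∀ k, ∫⁻ ζ, ENNReal.ofReal (ip (h ((r k : ℂ) • ζ)) ζ).re ∂ν =
      ENNReal.ofReal (∫ ζ, (ip (h ((r k : ℂ) • ζ)) ζ).re ∂ν) := fun k =>
    (ofReal_integral_eq_lintegral_ofReal (hint k) (ae_nonneg' hS hh (hr01 k).1 (hr01 k).2)).symm
  have h2 : ∫⁻ ζ, liminf (fun k => ENNReal.ofReal (ip (h ((r k : ℂ) • ζ)) ζ).re) atTop ∂ν ≤
      liminf (fun k => ∫⁻ ζ, ENNReal.ofReal (ip (h ((r k : ℂ) • ζ)) ζ).re ∂ν) atTop :=
    lintegral_liminf_le' fun k => (hint k).aestronglyMeasurable.aemeasurable.ennreal_ofReal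
  have h3 : liminf (fun k => ∫⁻ ζ, ENNReal.ofReal (ip (h ((r k : ℂ) • ζ)) ζ).re ∂ν) atTop = 0 := by
    simp only [h1]
    have h4 := (ENNReal.continuous_ofReal.tendsto 0).comp hlim
    rw [ENNReal.ofReal_zero] at h4
    exact h4.liminf_eq
  rw [h3] at h2
  have h5 : ∫⁻ ζ, liminf (fun k => ENNReal.ofReal (ip (h ((r k : ℂ) • ζ)) ζ).re) atTop ∂ν = 0 :=
    le_antisymm h2 bot_le
  have h6 : ∀ᵐ ζ ∂ν, liminf (fun k => ENNReal.ofReal (ip (h ((r k : ℂ) • ζ)) ζ).re) atTop = 0 := by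
    have hm : AEMeasurable (fun ζ => liminf (fun k =>
        ENNReal.ofReal (ip (h ((r k : ℂ) • ζ)) ζ).re) atTop) ν := by
      simp only [liminf_eq_iSup_iInf_of_nat]
      exact AEMeasurable.iSup fun m => AEMeasurable.biInf _ (Set.to_countable _)
        fun i _ => (hint i).aestronglyMeasurable.aemeasurable.ennreal_ofReal
    exact (lintegral_eq_zero_iff' hm).1 h5
  filter_upwards [h6, ae_sphere hS] with ζ h7 hζ
  refine ⟨hζ, fun ε hε => ?_⟩
  by_contra hcon
  rw [Filter.not_frequently] at hcon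
  have h8 : ∀ᶠ k in atTop, ENNReal.ofReal ε ≤ ENNReal.ofReal (ip (h ((r k : ℂ) • ζ)) ζ).re := by
    filter_upwards [hrt.eventually hcon] with k hk
    exact ENNReal.ofReal_le_ofReal (not_lt.1 hk)
  have h9 : ENNReal.ofReal ε ≤
      liminf (fun k => ENNReal.ofReal (ip (h ((r k : ℂ) • ζ)) ζ).re) atTop :=
    le_liminf_of_le (by isBoundedDefault) h8
  rw [h7] at h9
  have h10 : 0 < ENNReal.ofReal ε := ENNReal.ofReal_pos.2 hε
  exact absurd h9 (not_le.2 h10)

theorem not_support_of_cover {A : Cn n →L[ℂ] Cn n}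
    (hA : ∀ z : Cn n, z ≠ 0 → 0 < (ip (A z) z).re) {h : Cn n → Cn n}
    (hh : h ∈ NA A) {K : ℕ → Set (Cn n)}
    (hK : ∀ i, IsPeak (K i)) (hcov : rzero h ⊆ ⋃ i, K i) : ¬ IsSupport A h := by
  intro hs
  obtain ⟨ν, hν, hv⟩ := exists_test hA hs
  have h1 := ae_rzero hν hh hv
  have h2 : ν (⋃ i, K i) = 0 := measure_iUnion_null fun i => peak_null hν (hK i)
  have h3 : ∀ᵐ ζ ∂ν, ζ ∉ ⋃ i, K i := by
    rw [ae_iff]
    have : {a | ¬ a ∉ ⋃ i, K i} = ⋃ i, K i := by
      ext a
      simp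
    rw [this]
    exact h2
  haveI := hν.1
  have h4 : ∀ᵐ _ζ ∂ν, False := by
    filter_upwards [h1, h3] with ζ h5 h6
    exact h6 (hcov h5)
  rw [ae_iff] at h4
  simp at h4

/-- points of the sphere are peak sets -/
lemma isPeak_point {ζ : Cn n} (hζ : ‖ζ‖ = 1) : IsPeak ({ζ} : Set (Cn n)) := by
  refine ⟨by
    rintro _ rfl
    rw [mem_sphere_zero_iff_norm]; exact hζ, fun z => (1 + ip z ζ) / 2, ?_, ?_, ?_, ?_⟩
  · refine ContinuousOn.div_const ?_ _
    exact continuousOn_const.add (continuous_ip continuousOn_id continuousOn_const)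
  · have h1 : DifferentiableOn ℂ (fun z : Cn n => ip z ζ) (ball 0 1) :=
      (innerSL ℂ ζ : Cn n →L[ℂ] ℂ).differentiable.differentiableOn
    have h2 : DifferentiableOn ℂ (fun z : Cn n => 1 + ip z ζ) (ball 0 1) :=
      (differentiableOn_const _).fun_add h1
    have h3 : DifferentiableOn ℂ (fun z : Cn n => (1 + ip z ζ) * (2 : ℂ)⁻¹) (ball 0 1) :=
      h2.fun_mul (differentiableOn_const _)
    exact h3
  · intro z hz
    have hz' : z = ζ := hz
    rw [hz']
    change (1 + ip ζ ζ) / 2 = 1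
    rw [ip_self, hζ]
    norm_num
  · intro z hz hzζ
    rw [mem_closedBall_zero_iff] at hz
    have hre : (ip z ζ).re < 1 := by
      have h1 : 0 < ‖z - ζ‖ ^ 2 := by
        have : z - ζ ≠ 0 := sub_ne_zero.2 (fun h => hzζ (by rw [h]; rfl))
        positivity
      have h2 : ‖z - ζ‖ ^ 2 = ‖z‖ ^ 2 - 2 * (ip z ζ).re + ‖ζ‖ ^ 2 := by
        rw [@norm_sub_sq ℂ]
        have : (ip z ζ).re = RCLike.re (inner ℂ z ζ) := inner_re_symm (𝕜 := ℂ) ζ z
        rw [this]
      rw [h2, hζ] at h1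
      nlinarith [norm_nonneg z]
    have hn : ‖ip z ζ‖ ≤ 1 := by
      refine (norm_ip_le z ζ).trans ?_
      rw [hζ, mul_one]; exact hz
    rw [norm_div]
    have h5 : ‖(2 : ℂ)‖ = 2 := by simp
    rw [h5, div_lt_one (by norm_num)]
    have h6 : ‖1 + ip z ζ‖ ^ 2 < 2 ^ 2 := by
      rw [← Complex.normSq_eq_norm_sq, Complex.normSq_apply]
      have h7 : ‖ip z ζ‖ ^ 2 ≤ 1 := by nlinarith [norm_nonneg (ip z ζ)]
      rw [← Complex.normSq_eq_norm_sq, Complex.normSq_apply] at h7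
      simp only [Complex.add_re, Complex.add_im, Complex.one_re, Complex.one_im]
      nlinarith
    exact lt_of_pow_lt_pow_left₀ 2 (by norm_num) h6

end Pool.Agent.P1ae5m
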