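import Pool.Agent.Lib.P1ae5m.DSupp
import Pool.Agent.Lib.P1ae5m.Peak
import Pool.Agent.Lib.P1ae5m.Circle

/-!
The restriction principle.
-/

open Metric MeasureTheory Filter Topology

namespace Pool.Agent.P1ae5m

open Pool.Agent.P1ae5 (Cn ip NA IsSupport IsExtreme IsFunctional exists_lower herm
  not_support_of_minorant)

variable {m n : ℕ}

lemma cmpL_pos (κ : Cn m →ₗᵢ[ℂ] Cn n) {A : Cn n →L[ℂ] Cn n}
    (hA : ∀ z : Cn n, z ≠ 0 → 0 < (ip (A z) z).re) (x : Cn m) (hx : x ≠ 0) :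
    0 < (ip (cmpL κ A x) x).re := by
  have h1 : κ x ≠ 0 := by
    intro h
    have := κ.norm_map x
    rw [h, norm_zero] at this
    exact hx (norm_eq_zero.1 this.symm)
  have h2 := hA _ h1
  rw [ip_iota'] at h2
  exact h2

lemma cmp_mem (κ : Cn m →ₗᵢ[ℂ] Cn n) {A : Cn n →L[ℂ] Cn n} {h : Cn n → Cn n} (hh : h ∈ NA A) :
    cmp κ h ∈ NA (cmpL κ A) := by
  have hmap : ∀ x ∈ ball (0 : Cn m) 1, κ x ∈ ball (0 : Cn n) 1 := by
    intro x hx
    rw [mem_ball_zero_iff] at hx ⊢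
    rwa [κ.norm_map]
  have hd1 : DifferentiableOn ℂ (fun x : Cn m => h (κ x)) (ball 0 1) :=
    hh.1.comp κ.toContinuousLinearMap.differentiable.differentiableOn hmap
  refine ⟨(pr κ).differentiable.comp_differentiableOn hd1, ?_, ?_, fun x hx hx0 => ?_⟩
  · unfold cmp
    rw [map_zero, hh.2.1, map_zero]
  · have e1 : HasFDerivAt h A (κ 0) := by
      rw [map_zero]
      have := (hh.1.differentiableAt (ball_mem_nhds 0 one_pos)).hasFDerivAt
      rwa [hh.2.2.1] at this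
    have e2 := e1.comp (0 : Cn m) κ.toContinuousLinearMap.hasFDerivAt
    have e3 := ((pr κ).hasFDerivAt).comp (0 : Cn m) e2
    exact e3.fderiv
  · have h1 : κ x ≠ 0 := by
      intro h
      have := κ.norm_map x
      rw [h, norm_zero] at this
      exact hx0 (norm_eq_zero.1 this.symm)
    have h2 := hh.2.2.2 _ (hmap x hx) h1
    rw [ip_iota'] at h2
    exact h2

/-- a compression which is a support point -/
theorem support_of_cmp (κ : Cn m →ₗᵢ[ℂ] Cn n) {A : Cn n →L[ℂ] Cn n}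
    (hA : ∀ z : Cn n, z ≠ 0 → 0 < (ip (A z) z).re) {h : Cn n → Cn n} (hh : h ∈ NA A)
    (hs : IsSupport (cmpL κ A) (cmp κ h)) : IsSupport A h := by
  obtain ⟨ν, hν, hv⟩ := exists_test (cmpL_pos κ hA) hs
  have hT := test_map κ hν
  refine support_of_test hA hh hT ?_
  obtain ⟨hP', hS', -⟩ := hT
  refine Tendsto.congr' ?_ hv
  filter_upwards [Ioo_mem_nhdsLT (show (0 : ℝ) < 1 by norm_num)] with s hs
  have hint := int_sphere_aux hS' hh.1 hs.1 hs.2
  change ∫ x, (ip (cmp κ h ((s : ℂ) • x)) x).re ∂ν =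
    ∫ ζ, (ip (h ((s : ℂ) • ζ)) ζ).re ∂(ν.map κ)
  rw [integral_map κ.continuous.measurable.aemeasurable hint]
  refine integral_congr_ae (Filter.Eventually.of_forall fun x => ?_)
  simp only []
  rw [ip_iota', ← map_smul]
  rfl

/-- test measures carried by a subspace -/
lemma test_pr (κ : Cn m →ₗᵢ[ℂ] Cn n) {ν : Measure (Cn n)} (hν : IsTestB ν)
    (hr : ∀ᵐ ζ ∂ν, ζ ∈ Set.range κ) : IsTestB (ν.map (pr κ)) := by
  obtain ⟨hP, hS, ρ, C, hρ0, hρ1, hT⟩ := hν
  have hp : Measurable (pr κ) := (pr κ).continuous.measurable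
  have hP' : IsProbabilityMeasure (ν.map (pr κ)) :=
    Measure.isProbabilityMeasure_map hp.aemeasurable
  have hS' : (ν.map (pr κ)) (sphere (0 : Cn m) 1)ᶜ = 0 := by
    rw [Measure.map_apply hp isClosed_sphere.measurableSet.compl]
    have : ∀ᵐ ζ ∂ν, ζ ∉ pr κ ⁻¹' (sphere (0 : Cn m) 1)ᶜ := by
      filter_upwards [hr, ae_sphere hS] with ζ h1 h2
      obtain ⟨x, rfl⟩ := h1
      rw [κ.norm_map] at h2
      simp [pr_iota, h2]
    rw [ae_iff] at this
    convert this using 2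
    ext ζ
    simp
  refine ⟨hP', hS', ρ, C, hρ0, hρ1, fun v R hR hv hv0 hv1 M hM => ?_⟩
  have hmapR : ∀ z ∈ ball (0 : Cn n) R, pr κ z ∈ ball (0 : Cn m) R := by
    intro z hz
    rw [mem_ball_zero_iff] at hz ⊢
    exact lt_of_le_of_lt (norm_pr_le κ z) hz
  have hd1 : DifferentiableOn ℂ (fun z : Cn n => v (pr κ z)) (ball 0 R) :=
    hv.comp (pr κ).differentiable.differentiableOn hmapR
  have hd : DifferentiableOn ℂ (fun z : Cn n => κ (v (pr κ z))) (ball 0 R) :=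
    κ.toContinuousLinearMap.differentiable.comp_differentiableOn hd1
  have hfd : fderiv ℂ (fun z : Cn n => κ (v (pr κ z))) 0 = 0 := by
    have e0 : DifferentiableAt ℂ v 0 := (hv 0 (mem_ball_self (by linarith))).differentiableAt
      (ball_mem_nhds 0 (by linarith))
    have e1 : HasFDerivAt v (0 : Cn m →L[ℂ] Cn m) (pr κ 0) := by
      rw [map_zero]
      have := e0.hasFDerivAt
      rwa [hv1] at this
    have e2 := e1.comp (0 : Cn n) (pr κ).hasFDerivAt
    have e3 := (κ.toContinuousLinearMap.hasFDerivAt).comp (0 : Cn n) e2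
    rw [ContinuousLinearMap.zero_comp, ContinuousLinearMap.comp_zero] at e3
    exact e3.fderiv
  have h1 := hT _ R hR hd (by simp [hv0]) hfd M (fun z hz => by
    rw [κ.norm_map]
    exact hM _ ((norm_pr_le κ z).trans hz))
  have h2 : ∫ ζ, ip (v ζ) ζ ∂(ν.map (pr κ)) = ∫ z, ip (κ (v (pr κ z))) z ∂ν := by
    have h3 : ContinuousOn (fun ζ => ip (v ζ) ζ) (sphere (0 : Cn m) 1) :=
      continuous_ip (hv.continuousOn.mono fun z hz => by
        rw [mem_sphere_zero_iff_norm] at hz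
        rw [mem_ball_zero_iff, hz]; exact hR) continuousOn_id
    rw [integral_map hp.aemeasurable (integrable_sphere hS' h3).aestronglyMeasurable]
    refine integral_congr_ae (Filter.Eventually.of_forall fun x => ?_)
    simp only []
    rw [ip_iota]
  change ‖∫ ζ, ip (v ζ) ζ ∂(ν.map (pr κ))‖ ≤ C * M
  rw [h2]
  exact h1

/-- the compression to a subspace containing the zeros -/
theorem cmp_of_support (κ : Cn m →ₗᵢ[ℂ] Cn n) {A : Cn n →L[ℂ] Cn n}
    (hA : ∀ z : Cn n, z ≠ 0 → 0 < (ip (A z) z).re) {h : Cn n → Cn n} (hh : h ∈ NA A)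
    {K : ℕ → Set (Cn n)} (hK : ∀ i, IsPeak (K i)) (hcov : rzero h ⊆ Set.range κ ∪ ⋃ i, K i)
    (hs : IsSupport A h) : IsSupport (cmpL κ A) (cmp κ h) := by
  obtain ⟨ν, hν, hv⟩ := exists_test hA hs
  have h1 := ae_rzero hν hh hv
  have h2 : ν (⋃ i, K i) = 0 := measure_iUnion_null fun i => peak_null hν (hK i)
  have h3 : ∀ᵐ ζ ∂ν, ζ ∉ ⋃ i, K i := by
    rw [ae_iff]
    have : {a | ¬ a ∉ ⋃ i, K i} = ⋃ i, K i := by
      ext a
      simp
    rw [this]
    exact h2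
  have hr : ∀ᵐ ζ ∂ν, ζ ∈ Set.range κ := by
    filter_upwards [h1, h3] with ζ h5 h6
    exact (hcov h5).resolve_right h6
  have hT := test_pr κ hν hr
  refine support_of_test (cmpL_pos κ hA) (cmp_mem κ hh) hT ?_
  obtain ⟨hP', hS', -⟩ := hT
  refine Tendsto.congr' ?_ hv
  filter_upwards [Ioo_mem_nhdsLT (show (0 : ℝ) < 1 by norm_num)] with s hs
  have hint := int_sphere_aux hS' (cmp_mem κ hh).1 hs.1 hs.2
  change ∫ ζ, (ip (h ((s : ℂ) • ζ)) ζ).re ∂ν =
    ∫ x, (ip (cmp κ h ((s : ℂ) • x)) x).re ∂(ν.map (pr κ))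
  rw [integral_map (pr κ).continuous.measurable.aemeasurable hint]
  refine integral_congr_ae ?_
  filter_upwards [hr] with ζ hζ
  obtain ⟨x, rfl⟩ := hζ
  rw [pr_iota]
  unfold cmp
  rw [← ip_iota', map_smul]

/-- **Circle actions.** -/
theorem support_act_iff {A : Cn n →L[ℂ] Cn n} (hA : ∀ z : Cn n, z ≠ 0 → 0 < (ip (A z) z).re)
    {w : Fin n → ℕ} {h : Cn n → Cn n} (hh : h ∈ NA A)
    (heq : ∀ l : ℂ, ‖l‖ = 1 → ∀ z ∈ ball (0 : Cn n) 1, h (act w l z) = act w l (h z))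
    (κ : Cn m →ₗᵢ[ℂ] Cn n) (hκ : Set.range κ = {z | ∀ j, w j ≠ 0 → z j = 0}) :
    IsSupport A h ↔ (∃ ζ ∈ rzero h, ∃ j, w j ≠ 0 ∧ ζ j ≠ 0) ∨
      IsSupport (cmpL κ A) (cmp κ h) := by
  constructor
  · intro hs
    by_cases hmv : ∃ ζ ∈ rzero h, ∃ j, w j ≠ 0 ∧ ζ j ≠ 0
    · exact Or.inl hmv
    · right
      push Not at hmv
      refine cmp_of_support κ hA hh (K := fun _ => ∅) (fun i => ?_) (fun ζ hζ => ?_) hs
      · exact ⟨Set.empty_subset _, fun _ => 0, continuousOn_const, differentiableOn_const _,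
          fun z hz => absurd hz (Set.notMem_empty z), fun z _ _ => by simp⟩
      · left
        rw [hκ]
        exact fun j hj => hmv ζ hζ j hj
  · rintro (⟨ζ, hζ, hj⟩ | hs)
    · exact support_orbit hA hh heq hζ hj
    · exact support_of_cmp κ hA hh hs

end Pool.Agent.P1ae5m
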