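import Pool.Agent.Lib.P1ae5m.Defs

/-!
The parts of the theorem on test measures and support points (MP_1ae5d5_an), as named statements.
-/

open Metric MeasureTheory Filter Topology

namespace Pool.Agent.P1ae5m

open Pool.Agent.P1ae5.St

variable {E : Type} [NormedAddCommGroup E] [InnerProductSpace ℂ E]

/-- (1a) If `Re Λ` is not constant on `N_A`, then `h` maximises `Re Λ` over `N_A` iff there is a
finite positive measure `σ` on the unit sphere which represents `Λ` and satisfies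
`∫ Re <h(rζ),ζ> dσ(ζ) → 0` as `r → 1`. -/
def Part1a [MeasurableSpace E] (A : E →L[ℂ] E) (h : E → E) : Prop :=
  ∀ Λ : (E → E) → ℂ, IsFunc Λ → (∃ g ∈ FamN A, (Λ g).re ≠ (Λ h).re) →
    ((∀ g ∈ FamN A, (Λ g).re ≤ (Λ h).re) ↔ ∃ σ : Measure E, Reps σ Λ ∧
      Tendsto (fun r : ℝ => ∫ ζ, (sp (h ((r : ℂ) • ζ)) ζ).re ∂σ) (𝓝[<] 1) (𝓝 0))

/-- (1b) `h` is a support point iff `∫ Re <h(rζ),ζ> dν(ζ) → 0` as `r → 1` for some test measure
`ν`. If `h` is continuous on the closed ball, then `h` is a support point iff some test measure is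
carried by the zero set of `Re <h(ζ),ζ>`. -/
def Part1b [MeasurableSpace E] (A : E →L[ℂ] E) (h : E → E) : Prop :=
  (IsSupp A h ↔ ∃ ν : Measure E, IsTestM ν ∧
    Tendsto (fun r : ℝ => ∫ ζ, (sp (h ((r : ℂ) • ζ)) ζ).re ∂ν) (𝓝[<] 1) (𝓝 0)) ∧
  (ContinuousOn h (closedBall 0 1) → (IsSupp A h ↔ ∃ ν : Measure E, IsTestM ν ∧
    ν {ζ | (sp (h ζ) ζ).re ≠ 0} = 0))

/-- (1c) If `liminf ∫ Re <h(rΓ(e^{iθ})),Γ(e^{iθ})> Φ(e^{iθ}) dθ = 0` as `r → 1` for a closed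
analytic transverse curve `Γ` and an analytic density `Φ`, then `h` is a support point. -/
def Part1c (A : E →L[ℂ] E) (h : E → E) : Prop :=
  ∀ (R : ℝ) (Γ : ℂ → E) (Φ : ℂ → ℂ), IsCurve R Γ → IsDensity R Φ →
    (∀ ε : ℝ, 0 < ε → ∃ᶠ r : ℝ in 𝓝[<] 1, ∫ θ in (0 : ℝ)..2 * Real.pi,
      (sp (h ((r : ℂ) • Γ (expi θ))) (Γ (expi θ))).re * (Φ (expi θ)).re < ε) →
    IsSupp A h

/-- (1d) Test measures do not charge peak sets. -/
def Part1d (E : Type) [NormedAddCommGroup E] [InnerProductSpace ℂ E] [MeasurableSpace E] : Prop :=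
  ∀ K : Set E, IsPeak K → ∀ ν : Measure E, IsTestM ν → ν K = 0

/-- (1e) Let `ι : C^m → E` be a linear isometry. The compression `ι^* h ι` is in `N_{ι^* A ι}`. If
it is a support point there, then `h` is a support point of `N_A`. The converse holds if `rzero h`
is covered by `ι(C^m)` and countably many peak sets. -/
def Part1e [CompleteSpace E] (A : E →L[ℂ] E) (h : E → E) : Prop :=
  ∀ (m : ℕ) (ι : EuclideanSpace ℂ (Fin m) →ₗᵢ[ℂ] E),
    cmp ι h ∈ FamN (cmpL ι A) ∧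
    (IsSupp (cmpL ι A) (cmp ι h) → IsSupp A h) ∧
    (∀ K : ℕ → Set E, (∀ i, IsPeak (K i)) → rzero h ⊆ Set.range ι ∪ ⋃ i, K i → IsSupp A h →
      IsSupp (cmpL ι A) (cmp ι h))

/-- (1f) If `h` commutes with the circle action of weights `w_j ≥ 0` and `ι(C^m)` is the fixed
space of the action, then `h` is a support point iff some point of `rzero h` is not fixed by the
action or `ι^* h ι` is a support point. -/
def Part1f {n : ℕ} (A : EuclideanSpace ℂ (Fin n) →L[ℂ] EuclideanSpace ℂ (Fin n))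
    (h : EuclideanSpace ℂ (Fin n) → EuclideanSpace ℂ (Fin n)) : Prop :=
  ∀ (m : ℕ) (ι : EuclideanSpace ℂ (Fin m) →ₗᵢ[ℂ] EuclideanSpace ℂ (Fin n)) (w : Fin n → ℕ),
    (∀ l : ℂ, ‖l‖ = 1 → ∀ z ∈ ball (0 : EuclideanSpace ℂ (Fin n)) 1,
      h (act w l z) = act w l (h z)) →
    Set.range ι = {z | ∀ j, w j ≠ 0 → z j = 0} →
    (IsSupp A h ↔ (∃ ζ ∈ rzero h, ∃ j, w j ≠ 0 ∧ ζ j ≠ 0) ∨ IsSupp (cmpL ι A) (cmp ι h))

/-- (2) Let `ι_j` be isometries with `Σ ι_j ι_j^* = 1` and `D ι_j = ι_j D_j`. Direct sums of maps in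
`N_{D_j}` belong to `N_A`, are not extreme points if there are at least two nonzero blocks, and are
support points iff one of the summands is. -/
def Part2 [CompleteSpace E] (A : E →L[ℂ] E) : Prop :=
  ∀ (r : ℕ) (d : Fin r → ℕ) (ι : ∀ j, EuclideanSpace ℂ (Fin (d j)) →ₗᵢ[ℂ] E)
    (D : ∀ j, EuclideanSpace ℂ (Fin (d j)) →L[ℂ] EuclideanSpace ℂ (Fin (d j)))
    (g : ∀ j, EuclideanSpace ℂ (Fin (d j)) → EuclideanSpace ℂ (Fin (d j))),
    (∀ z, ∑ j, ι j (pr (ι j) z) = z) → (∀ j x, hp A (ι j x) = ι j (D j x)) →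
    (∀ j, g j ∈ FamN (D j)) →
    dsum A ι g ∈ FamN A ∧
    ((∃ i j, i ≠ j ∧ 1 ≤ d i ∧ 1 ≤ d j) → ¬ IsExtr A (dsum A ι g)) ∧
    (IsSupp A (dsum A ι g) ↔ ∃ j, IsSupp (D j) (g j))

end Pool.Agent.P1ae5m
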