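import Pool.Agent.Lib.P1ae5m.Dual
import Pool.Agent.Lib.P1ae5m.Peak
import Pool.Agent.Lib.P1ae5.Bridge

/-!
The two forms of the definition of test measures.
-/

open Metric MeasureTheory Filter Topology

namespace Pool.Agent.P1ae5m

open Pool.Agent.P1ae5 (Cn ip NA IsSupport IsExtreme IsFunctional exists_lower
  not_support_of_minorant)

variable {n : ℕ}

theorem test_of_testB {ν : Measure (Cn n)} (hν : IsTestB ν) : IsTest ν := by
  obtain ⟨hP, hS, ρ, C, hρ0, hρ1, hT⟩ := hν
  refine ⟨IsProbabilityMeasure.ne_zero ν, Lam ν, isFunctional_Lam hS hρ0 hρ1 hT, inferInstance, hS,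
    fun v R hR hv hv0 hv1 => ?_⟩
  have hsec : ∀ z, sec v z = v z := by
    intro z
    unfold sec
    rw [hv0, hv1]
    simp
  have hc : ContinuousOn v (closedBall 0 1) :=
    hv.continuousOn.mono (closedBall_subset_ball hR)
  obtain ⟨B, hB⟩ := (isCompact_closedBall (0 : Cn n) 1).exists_bound_of_continuousOn hc
  have hin : ∀ s : ℝ, s ∈ Set.Ioo (0 : ℝ) 1 → ∀ ζ : Cn n, ‖ζ‖ = 1 →
      (s : ℂ) • ζ ∈ closedBall (0 : Cn n) 1 := by
    intro s hs ζ hζ
    rw [mem_closedBall_zero_iff, norm_smul, Complex.norm_real, Real.norm_of_nonneg hs.1.le, hζ,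
      mul_one]
    exact hs.2.le
  have h1 : Tendsto (JJ ν v) (𝓝[<] 1) (𝓝 (∫ ζ, ip (v ζ) ζ ∂ν)) := by
    unfold JJ
    simp only [hsec]
    refine tendsto_integral_filter_of_dominated_convergence (fun _ => B) ?_ ?_
      (integrable_const B) ?_
    · filter_upwards [Ioo_mem_nhdsLT (show (0 : ℝ) < 1 by norm_num)] with s hs
      refine (integrable_sphere hS (continuous_ip ?_ continuousOn_id)).aestronglyMeasurable
      exact hc.comp (continuous_const_smul _).continuousOn fun z hz =>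
        hin s hs z (by rwa [mem_sphere_zero_iff_norm] at hz)
    · filter_upwards [Ioo_mem_nhdsLT (show (0 : ℝ) < 1 by norm_num)] with s hs
      filter_upwards [ae_sphere hS] with ζ hζ
      refine (norm_ip_le _ _).trans ?_
      rw [hζ, mul_one]
      exact hB _ (hin s hs ζ hζ)
    · filter_upwards [ae_sphere hS] with ζ hζ
      have h2 : Tendsto (fun s : ℝ => (s : ℂ) • ζ) (𝓝[<] 1) (𝓝[closedBall 0 1] ζ) := by
        refine tendsto_nhdsWithin_iff.2 ⟨?_, ?_⟩
        · have h3 : Tendsto (fun s : ℝ => (s : ℂ) • ζ) (𝓝 1) (𝓝 (((1 : ℝ) : ℂ) • ζ)) :=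
            ((Complex.continuous_ofReal.tendsto 1).smul_const ζ)
          rw [Complex.ofReal_one, one_smul] at h3
          exact h3.mono_left nhdsWithin_le_nhds
        · filter_upwards [Ioo_mem_nhdsLT (show (0 : ℝ) < 1 by norm_num)] with s hs
          exact hin s hs ζ hζ
      have h3 := (hc ζ (by rw [mem_closedBall_zero_iff, hζ])).tendsto.comp h2
      have h4 : Continuous fun w : Cn n => ip w ζ := by
        unfold ip
        exact continuous_const.inner continuous_id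
      exact (h4.tendsto _).comp h3
  unfold Lam
  rw [h1.limUnder_eq]
  rfl

theorem testB_of_test {ν : Measure (Cn n)} (hν : IsTest ν) :
    IsFiniteMeasure ν ∧ IsTestB ((ν Set.univ)⁻¹ • ν) := by
  obtain ⟨hν0, Λ, ⟨hadd, hsm, K, hKb, hKc, C, hC⟩, hF, hS, hrep⟩ := hν
  refine ⟨hF, ?_⟩
  have hu0 : ν Set.univ ≠ 0 := by
    rw [Ne, Measure.measure_univ_eq_zero]; exact hν0
  have hut : ν Set.univ ≠ ⊤ := measure_ne_top ν _
  have hP : IsProbabilityMeasure ((ν Set.univ)⁻¹ • ν) := by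
    constructor
    rw [Measure.smul_apply, smul_eq_mul, ENNReal.inv_mul_cancel hu0 hut]
  have hKρ : ∃ ρ : ℝ, 0 < ρ ∧ ρ < 1 ∧ K ⊆ closedBall (0 : Cn n) ρ := by
    rcases K.eq_empty_or_nonempty with hK | hK
    · exact ⟨1 / 2, by norm_num, by norm_num, by simp [hK]⟩
    · obtain ⟨z0, hz0, hz0m⟩ := hKc.exists_isMaxOn hK continuous_norm.continuousOn
      refine ⟨max (1 / 2) ‖z0‖, lt_of_lt_of_le (by norm_num) (le_max_left _ _),
        max_lt (by norm_num) (by simpa using hKb hz0), fun z hz => ?_⟩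
      rw [mem_closedBall_zero_iff]
      exact le_trans (hz0m hz) (le_max_right _ _)
  obtain ⟨ρ, hρ0, hρ1, hKρ⟩ := hKρ
  refine ⟨hP, by rw [Measure.smul_apply, hS, smul_zero], ρ, (ν Set.univ)⁻¹.toReal * C, hρ0, hρ1,
    fun v R hR hv hv0 hv1 M hM => ?_⟩
  have hM0 : 0 ≤ M := (norm_nonneg _).trans (hM 0 (by simpa using hρ0.le))
  have h1 := hrep v R hR hv hv0 hv1
  have h2 : ‖Λ v‖ ≤ C * M := hC v (hv.mono (ball_subset_ball hR.le)) M hM0 fun z hz => hM z (by
    simpa using hKρ hz)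
  rw [h1, norm_neg] at h2
  rw [integral_smul_measure, norm_smul, Real.norm_of_nonneg ENNReal.toReal_nonneg, mul_assoc]
  exact mul_le_mul_of_nonneg_left h2 ENNReal.toReal_nonneg

/-- **The criterion.** -/
theorem support_iff {A : Cn n →L[ℂ] Cn n} (hA : ∀ z : Cn n, z ≠ 0 → 0 < (ip (A z) z).re)
    {h : Cn n → Cn n} (hh : h ∈ NA A) :
    IsSupport A h ↔ ∃ ν : Measure (Cn n), IsTest ν ∧ Vanishes ν h := by
  constructor
  · intro hs
    obtain ⟨ν, hν, hv⟩ := exists_test hA hs
    exact ⟨ν, test_of_testB hν, hv⟩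
  · rintro ⟨ν, hν, hv⟩
    refine support_of_test hA hh (testB_of_test hν).2 ?_
    have h1 := hv.const_mul (ν Set.univ)⁻¹.toReal
    rw [mul_zero] at h1
    refine h1.congr fun r => ?_
    rw [integral_smul_measure, smul_eq_mul]

theorem peak_null' {ν : Measure (Cn n)} (hν : IsTest ν) {K : Set (Cn n)} (hK : IsPeak K) :
    ν K = 0 := by
  obtain ⟨hF, hT⟩ := testB_of_test hν
  have h1 := peak_null hT hK
  rw [Measure.smul_apply, smul_eq_mul, mul_eq_zero] at h1
  refine h1.resolve_left ?_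
  rw [ENNReal.inv_eq_zero]
  exact measure_ne_top ν _

end Pool.Agent.P1ae5m
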